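import Pool.Agent.Helper8.TS.HighEnv

/-!
# The high main cell, by pairs

The class `a` has a main cell `M` with `d = M a - 1 ≥ 3/5`; `z`, `y`, `o` are the other columns. The
gain `γ m` of the far cell in the column `m` is at most `φ m w`, `w` at most the support
`t = M m + d`. Of the cells in the columns `z`, `y` one supports the other one: if `z` supports `y`
then the gain of `z` is at most `B z y w_z w_y`. The values `φ m 0` may be positive.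
-/

set_option autoImplicit false

namespace Pool.Agent.Helper8.TS

open Pool.Agent.Helper84.TS Pool.Agent.Helper36.TS Pool.Agent.Helper44.TS Pool.Agent.Helper5.TS

/-- one cell -/
structure EnvOne (φ : ℝ → ℝ) (K : ℝ) : Prop where
  a : ∀ t : ℝ, 0 ≤ t → t ≤ 3 / 5 → 179 / 750 + t / 25 - 3 / 10 * t ^ 2 + φ t ≤ K
  d : ∀ t : ℝ, 3 / 5 ≤ t → t ≤ 1 →
    11 / 12 - t / 2 - 3 / 4 * t ^ 2 + t ^ 3 / 3 - 3 / 20 * ((1 - t) * (5 - t)) + φ t ≤ K

/-- two cells with supports of sum `t` -/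
structure EnvTwo (φ : ℝ → ℝ) (K : ℝ) : Prop where
  b : ∀ t : ℝ, 0 ≤ t → t ≤ 3 / 5 → 88 / 375 + 2 / 25 * t - 3 / 10 * t ^ 2 + φ t ≤ K
  c : ∀ t : ℝ, 3 / 5 ≤ t → t ≤ 1 → 2 / 3 - t + t ^ 2 / 4 + t ^ 3 / 12 + φ t ≤ K

/-- two cells, the first one supports the second one -/
structure EnvPair (B : ℝ → ℝ → ℝ) (φ : ℝ → ℝ) (K : ℝ) : Prop where
  b : ∀ t x : ℝ, 0 ≤ x → x ≤ t → t ≤ 3 / 5 →
    88 / 375 + 2 / 25 * t - 3 / 10 * t ^ 2 + B (t - x) x + φ x ≤ K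
  c : ∀ t x : ℝ, 0 ≤ x → x ≤ t → 3 / 5 ≤ t → t ≤ 1 →
    2 / 3 - t + t ^ 2 / 4 + t ^ 3 / 12 + B (t - x) x + φ x ≤ K

/-- the inequalities of the high main cell, by pairs -/
structure HiP (φ : Fin 4 → ℝ → ℝ) (B : Fin 4 → Fin 4 → ℝ → ℝ → ℝ) (a z y o : Fin 4) (K : ℝ) :
    Prop where
  mono : ∀ m, m ≠ a → ∀ s t : ℝ, 0 ≤ s → s ≤ t → t ≤ 1 → φ m s ≤ φ m t
  conv : ∀ m, m ≠ a → ∀ l t : ℝ, 0 ≤ l → l ≤ 1 → 0 ≤ t → t ≤ 1 →
    φ m (l * t) ≤ l * φ m t + (1 - l) * φ m 0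
  bzy : ∀ s t c : ℝ, 0 ≤ s → s ≤ t → t ≤ 1 → 0 ≤ c → c ≤ 1 → B z y s c ≤ B z y t c
  byz : ∀ s t c : ℝ, 0 ≤ s → s ≤ t → t ≤ 1 → 0 ≤ c → c ≤ 1 → B y z s c ≤ B y z t c
  zero : 6 / 25 ≤ K
  one : ∀ m, m ≠ a → EnvOne (φ m) K
  zy : EnvPair (B z y) (φ y) K
  yz : EnvPair (B y z) (φ z) K
  zo : EnvTwo (fun t => φ z t + φ o 0) K
  oz : EnvTwo (fun t => φ o t + φ z 0) K
  yo : EnvTwo (fun t => φ y t + φ o 0) K
  oy : EnvTwo (fun t => φ o t + φ y 0) K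
  tzy : ∀ u x v : ℝ, 0 ≤ u → 0 ≤ x → 0 ≤ v → 1 / 5 ≤ u + x + v → u + x + v ≤ 1 →
    (1 - (u + x + v)) * (2 - (u + x + v)) / 6 + B z y u x + φ y x + φ o v ≤ K
  tyz : ∀ u x v : ℝ, 0 ≤ u → 0 ≤ x → 0 ≤ v → 1 / 5 ≤ u + x + v → u + x + v ≤ 1 →
    (1 - (u + x + v)) * (2 - (u + x + v)) / 6 + B y z u x + φ z x + φ o v ≤ K

/-- the volume of a main cell with the support `t` in one column -/
theorem vol_one {a z y x : Fin 4} {M : Fin 4 → ℝ} (hM : IsCell a M) (hn : [a, z, y, x].Nodup)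
    (hm : ∀ m, m ≠ a → -M m ≤ 1) (hd : 3 / 5 ≤ M a - 1) {φ : ℝ → ℝ} {K : ℝ} (h : EnvOne φ K)
    (hmono : ∀ s t : ℝ, 0 ≤ s → s ≤ t → t ≤ 1 → φ s ≤ φ t) {w : ℝ} (hw : 0 ≤ w)
    (hs : w ≤ M z + (M a - 1)) : fcl a M + φ w ≤ K := by
  obtain ⟨a1, a2, a3, a4, a5, a6, a7, a8, a9⟩ := cell_lin hM hn
  obtain ⟨b1, b2, b3⟩ := main_ent hn hm
  obtain ⟨d, hdd⟩ : ∃ d, d = M a - 1 := ⟨_, rfl⟩
  obtain ⟨t, ht⟩ : ∃ t, t = M z + (M a - 1) := ⟨_, rfl⟩
  have ht1 : t ≤ 1 := by linarith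
  have hpt : w ≤ t := by linarith
  have e1 := hmono w t hw hpt ht1
  rcases le_total 0 (M z) with h0 | h0
  · have e2 := main_sup_d hM hn hm h0
    have e3 := h.d t (by linarith) ht1
    have h1 : 3 / 5 * ((1 - t) * (5 - t)) ≤ d * ((1 - t) * (5 - t)) :=
      mul_le_mul_of_nonneg_right (by linarith) (mul_nonneg (by linarith) (by linarith))
    rw [← ht, ← hdd] at e2
    unfold HH at e2
    linarith
  · have e2 : fcl a M ≤ F1 d t := by
      rw [main_np hn hm h0 (by linarith) (by linarith), ← hdd, F1]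
      have ez : M z = t - d := by linarith
      have ex : M x = -(1 + t) - M y := by linarith
      have d1 : 0 ≤ 1 - d := by linarith
      have := mul_nonneg d1 (sq_nonneg (M y + (1 + t) / 2))
      rw [ez, ex]
      nlinarith
    rcases le_total t (3 / 5) with h' | h'
    · have e3 := F1_anti (d := 3 / 5) (e := d) (t := t) le_rfl (by linarith) (by linarith)
        (by linarith) h'
      have e4 := h.a t (by linarith) h'
      have e5 : F1 (3 / 5) t = 179 / 750 + t / 25 - 3 / 10 * t ^ 2 := by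
        unfold F1 cd
        ring
      linarith
    · have e3 := F1_anti (d := t) (e := d) (t := t) h' (by linarith) (by linarith)
        (by linarith) le_rfl
      have e4 := h.d t h' ht1
      have e5 : F1 t t ≤ 11 / 12 - t / 2 - 3 / 4 * t ^ 2 + t ^ 3 / 3
          - 3 / 20 * ((1 - t) * (5 - t)) := by
        have e6 : 11 / 12 - t / 2 - 3 / 4 * t ^ 2 + t ^ 3 / 3 - 3 / 20 * ((1 - t) * (5 - t))
            - F1 t t = (1 - t) * (t - 3 / 5) * (5 - t) / 4 := by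
          unfold F1 cd
          ring
        have := mul_nonneg (mul_nonneg (sub_nonneg.2 ht1) (sub_nonneg.2 h'))
          (by linarith : 0 ≤ 5 - t)
        linarith
      linarith

/-- the volume of a main cell with supports of sum `t` in two columns: `V2 t` -/
theorem vol_two {a z y x : Fin 4} {M : Fin 4 → ℝ} (hM : IsCell a M) (hn : [a, z, y, x].Nodup)
    (hm : ∀ m, m ≠ a → -M m ≤ 1) (hd : 3 / 5 ≤ M a - 1) (hz : 0 ≤ M z + (M a - 1))
    (hy : 0 ≤ M y + (M a - 1)) {t : ℝ} (ht : t = (M z + (M a - 1)) + (M y + (M a - 1))) :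
    0 ≤ t ∧ t ≤ 1 ∧ (t ≤ 3 / 5 → fcl a M ≤ 88 / 375 + 2 / 25 * t - 3 / 10 * t ^ 2) ∧
      (3 / 5 ≤ t → fcl a M ≤ 2 / 3 - t + t ^ 2 / 4 + t ^ 3 / 12) := by
  obtain ⟨a1, a2, a3, a4, a5, a6, a7, a8, a9⟩ := cell_lin hM hn
  obtain ⟨b1, b2, b3⟩ := main_ent hn hm
  obtain ⟨d, hdd⟩ : ∃ d, d = M a - 1 := ⟨_, rfl⟩
  have hP : t ≤ d := by linarith
  have e3 : fcl a M ≤ F2 d t := by
    rw [main_np hn hm (by linarith) (by linarith) (by linarith), ← hdd, F2]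
    have ez : M z = t - M y - 2 * d := by linarith
    have ex : M x = -(1 - d + t) := by linarith
    have d1 : 0 ≤ 1 - d := by linarith
    have := mul_nonneg d1 (sq_nonneg (2 * M y - (t - 2 * d)))
    rw [ez, ex]
    nlinarith
  refine ⟨by linarith, by linarith, fun h' => ?_, fun h' => ?_⟩
  · have e1 := F2_anti (d := 3 / 5) (e := d) (t := t) le_rfl (by linarith) (by linarith)
      (by linarith) h'
    have e4 : F2 (3 / 5) t = 88 / 375 + 2 / 25 * t - 3 / 10 * t ^ 2 := by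
      unfold F2 cd
      ring
    linarith
  · have e1 := F2_anti (d := t) (e := d) (t := t) h' (by linarith) (by linarith)
      (by linarith) le_rfl
    have e4 : F2 t t = 2 / 3 - t + t ^ 2 / 4 + t ^ 3 / 12 := by
      unfold F2 cd
      ring
    linarith

/-- two cells whose gains are bounded by convex functions -/
theorem vol_mix {a z y x : Fin 4} {M : Fin 4 → ℝ} (hM : IsCell a M) (hn : [a, z, y, x].Nodup)
    (hm : ∀ m, m ≠ a → -M m ≤ 1) (hd : 3 / 5 ≤ M a - 1) {φ ψ : ℝ → ℝ} {K : ℝ}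
    (hφ : ∀ s t : ℝ, 0 ≤ s → s ≤ t → t ≤ 1 → φ s ≤ φ t)
    (cφ : ∀ l t : ℝ, 0 ≤ l → l ≤ 1 → 0 ≤ t → t ≤ 1 → φ (l * t) ≤ l * φ t + (1 - l) * φ 0)
    (cψ : ∀ l t : ℝ, 0 ≤ l → l ≤ 1 → 0 ≤ t → t ≤ 1 → ψ (l * t) ≤ l * ψ t + (1 - l) * ψ 0)
    (h1 : EnvTwo (fun t => φ t + ψ 0) K) (h2 : EnvTwo (fun t => ψ t + φ 0) K) {w v : ℝ}
    (hw : 0 ≤ w) (hv : 0 ≤ v) (hs : w ≤ M z + (M a - 1)) (hs' : v ≤ M y + (M a - 1)) :
    fcl a M + φ w + ψ v ≤ K := by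
  obtain ⟨t, ht⟩ : ∃ t, t = (M z + (M a - 1)) + (M y + (M a - 1)) := ⟨_, rfl⟩
  obtain ⟨t0, t1, f1, f2⟩ := vol_two hM hn hm hd (by linarith) (by linarith) ht
  have E1 : fcl a M + (φ t + ψ 0) ≤ K := by
    rcases le_total t (3 / 5) with h' | h'
    · have := f1 h'
      have := h1.b t t0 h'
      linarith
    · have := f2 h'
      have := h1.c t h' t1
      linarith
  have E2 : fcl a M + (ψ t + φ 0) ≤ K := by
    rcases le_total t (3 / 5) with h' | h'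
    · have := f1 h'
      have := h2.b t t0 h'
      linarith
    · have := f2 h'
      have := h2.c t h' t1
      linarith
  rcases t0.eq_or_lt with h0 | h0
  · have ew : w = 0 := by linarith
    have ev : v = 0 := by linarith
    rw [ew, ev]
    rw [← h0] at E1
    linarith
  · obtain ⟨l, hl⟩ : ∃ l, l = v / t := ⟨_, rfl⟩
    have l0 : 0 ≤ l := by rw [hl]; positivity
    have l1 : l ≤ 1 := by
      rw [hl, div_le_one h0]
      linarith
    have ev : v = l * t := by rw [hl, div_mul_cancel₀ v h0.ne']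
    have e1 := hφ w ((1 - l) * t) hw (by linarith) (by nlinarith)
    have e2 := cφ (1 - l) t (by linarith) (by linarith) h0.le t1
    have e3 := cψ l t l0 l1 h0.le t1
    rw [← ev] at e3
    have g1 := mul_le_mul_of_nonneg_left E2 l0
    have g2 := mul_le_mul_of_nonneg_left E1 (by linarith : 0 ≤ 1 - l)
    nlinarith

/-- two cells, the first one supports the second one -/
theorem vol_pair {a z y x : Fin 4} {M : Fin 4 → ℝ} (hM : IsCell a M) (hn : [a, z, y, x].Nodup)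
    (hm : ∀ m, m ≠ a → -M m ≤ 1) (hd : 3 / 5 ≤ M a - 1) {B : ℝ → ℝ → ℝ} {φ : ℝ → ℝ} {K : ℝ}
    (hB : ∀ s t c : ℝ, 0 ≤ s → s ≤ t → t ≤ 1 → 0 ≤ c → c ≤ 1 → B s c ≤ B t c)
    (h : EnvPair B φ K) {w v : ℝ} (hw : 0 ≤ w) (hv : 0 ≤ v) (hs : w ≤ M z + (M a - 1))
    (hs' : v ≤ M y + (M a - 1)) : fcl a M + B w v + φ v ≤ K := by
  obtain ⟨t, ht⟩ : ∃ t, t = (M z + (M a - 1)) + (M y + (M a - 1)) := ⟨_, rfl⟩
  obtain ⟨t0, t1, f1, f2⟩ := vol_two hM hn hm hd (by linarith) (by linarith) ht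
  have e1 := hB w (t - v) v hw (by linarith) (by linarith) hv (by linarith)
  rcases le_total t (3 / 5) with h' | h'
  · have := f1 h'
    have := h.b t v hv (by linarith) h'
    linarith
  · have := f2 h'
    have := h.c t v hv (by linarith) h' t1
    linarith

/-- three cells, the first one supports the second one -/
theorem vol_three {a z y x : Fin 4} {M : Fin 4 → ℝ} (hM : IsCell a M) (hn : [a, z, y, x].Nodup)
    (hm : ∀ m, m ≠ a → -M m ≤ 1) (hd : 3 / 5 ≤ M a - 1) {B : ℝ → ℝ → ℝ} {φ ψ : ℝ → ℝ} {K : ℝ}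
    (hB : ∀ s t c : ℝ, 0 ≤ s → s ≤ t → t ≤ 1 → 0 ≤ c → c ≤ 1 → B s c ≤ B t c)
    (h : ∀ u x v : ℝ, 0 ≤ u → 0 ≤ x → 0 ≤ v → 1 / 5 ≤ u + x + v → u + x + v ≤ 1 →
      (1 - (u + x + v)) * (2 - (u + x + v)) / 6 + B u x + φ x + ψ v ≤ K) {w v r : ℝ}
    (hw : 0 ≤ w) (hv : 0 ≤ v) (hr : 0 ≤ r) (hs : w ≤ M z + (M a - 1))
    (hs' : v ≤ M y + (M a - 1)) (hs'' : r ≤ M x + (M a - 1)) :
    fcl a M + B w v + φ v + ψ r ≤ K := by
  obtain ⟨a1, a2, a3, a4, a5, a6, a7, a8, a9⟩ := cell_lin hM hn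
  have e0 := main_d hM hm
  obtain ⟨d, hdd⟩ : ∃ d, d = M a - 1 := ⟨_, rfl⟩
  rw [← hdd] at e0 hs hs' hs''
  have e1 := hB w (2 * d - 1 - v - r) v hw (by linarith) (by linarith) hv (by linarith)
  have e2 := h (2 * d - 1 - v - r) v r (by linarith) hv hr (by linarith) (by linarith)
  have e3 : 2 * d - 1 - v - r + v + r = 2 * d - 1 := by ring
  rw [e3] at e2
  nlinarith

/-- **A high main cell and the gains of the far cells of its class, by pairs.** -/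
theorem gains_pair {φ : Fin 4 → ℝ → ℝ} {B : Fin 4 → Fin 4 → ℝ → ℝ → ℝ} {a z y o : Fin 4} {K : ℝ}
    (H : HiP φ B a z y o K) {M : Fin 4 → ℝ} (hM : IsCell a M) (hn : [a, z, y, o].Nodup)
    (hm : ∀ m, m ≠ a → -M m ≤ 1) (hd : 3 / 5 ≤ M a - 1) {γ : Fin 4 → ℝ}
    (hz : γ z ≤ 0 ∨ ∃ w, 0 ≤ w ∧ w ≤ M z + (M a - 1) ∧ γ z ≤ φ z w)
    (hy : γ y ≤ 0 ∨ ∃ w, 0 ≤ w ∧ w ≤ M y + (M a - 1) ∧ γ y ≤ φ y w)
    (ho : γ o ≤ 0 ∨ ∃ w, 0 ≤ w ∧ w ≤ M o + (M a - 1) ∧ γ o ≤ φ o w)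
    (hzy : γ z ≤ 0 ∨ γ y ≤ 0 ∨ ∃ w v, 0 ≤ w ∧ 0 ≤ v ∧ w ≤ M z + (M a - 1) ∧
      v ≤ M y + (M a - 1) ∧ ((γ z ≤ B z y w v ∧ γ y ≤ φ y v) ∨ (γ y ≤ B y z v w ∧ γ z ≤ φ z w))) :
    fcl a M + γ z + γ y + γ o ≤ K := by
  have ne := nodup_ne hn
  have n1 : [a, z, o, y].Nodup := perm_kl hn
  have n2 : [a, y, z, o].Nodup := perm_jk hn
  have n3 : [a, o, z, y].Nodup := perm_jl hn
  have n4 : [a, y, o, z].Nodup := perm_kl n2
  have nil : fcl a M ≤ K := by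
    have e0 := main_d hM hm
    have c := cell_lin hM hn
    have := H.zero
    nlinarith
  have one_z : ∀ w, 0 ≤ w → w ≤ M z + (M a - 1) → fcl a M + φ z w ≤ K := fun w h1 h2 =>
    vol_one hM hn hm hd (H.one z ne.1) (H.mono z ne.1) h1 h2
  have one_y : ∀ w, 0 ≤ w → w ≤ M y + (M a - 1) → fcl a M + φ y w ≤ K := fun w h1 h2 =>
    vol_one hM n2 hm hd (H.one y ne.2.1) (H.mono y ne.2.1) h1 h2
  have one_o : ∀ w, 0 ≤ w → w ≤ M o + (M a - 1) → fcl a M + φ o w ≤ K := fun w h1 h2 =>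
    vol_one hM n3 hm hd (H.one o ne.2.2) (H.mono o ne.2.2) h1 h2
  rcases hzy with h | h | ⟨w, v, w0, v0, hw, hv, h⟩
  · rcases hy with h1 | ⟨v, v0, hv, h1⟩ <;> rcases ho with h2 | ⟨r, r0, hr, h2⟩
    · linarith
    · have := one_o r r0 hr
      linarith
    · have := one_y v v0 hv
      linarith
    · have := vol_mix hM n4 hm hd (H.mono y ne.2.1) (H.conv y ne.2.1) (H.conv o ne.2.2) H.yo H.oy
        v0 r0 hv hr
      linarith
  · rcases hz with h1 | ⟨v, v0, hv, h1⟩ <;> rcases ho with h2 | ⟨r, r0, hr, h2⟩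
    · linarith
    · have := one_o r r0 hr
      linarith
    · have := one_z v v0 hv
      linarith
    · have := vol_mix hM n1 hm hd (H.mono z ne.1) (H.conv z ne.1) (H.conv o ne.2.2) H.zo H.oz
        v0 r0 hv hr
      linarith
  · rcases ho with h2 | ⟨r, r0, hr, h2⟩ <;> rcases h with ⟨h3, h4⟩ | ⟨h3, h4⟩
    · have := vol_pair hM hn hm hd H.bzy H.zy w0 v0 hw hv
      linarith
    · have := vol_pair hM n2 hm hd H.byz H.yz v0 w0 hv hw
      linarith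
    · have := vol_three hM hn hm hd H.bzy H.tzy w0 v0 r0 hw hv hr
      linarith
    · have := vol_three hM n2 hm hd H.byz H.tyz v0 w0 r0 hv hw hr
      linarith

end Pool.Agent.Helper8.TS
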