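import Mathlib

/-!
# The numbers of the piece `OL1Ar` (LP: helper11)

`x`, `y`, `z` are the heights of the rows `p`, `r`, `s` (in `[0, 3/5]`, with sum at most `9/10`).
`np`, `nr`, `ns`: multipliers of the rows; `kpr`, `kps`, `krs`: multipliers of the pairs; `mpr`, `mrs`:
the shares of the pairs in the columns with two rows (the share of `p`, `s` is `0`); `Wp`, `Wr`, `Ws`:
the bounds of the columns with two rows (`Wp0`, `Ws0` without the cell of the low class); `Wa`: the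
bound of the column of the low class; `sg`: the multiplier of `1 - d` in the column `r`; `gg`: the
bound of the gains; `fp`, `fr`, `fs`: the bounds of the gain of a cell; `Bzy w c`: the bound of the
gain of the cell of the column `z` that supports `c` in the column `y`.
-/

set_option autoImplicit false

namespace Pool.Agent.Helper8.TS.OL1Ar

noncomputable def np (x : ℝ) : ℝ := 1721 / 2500 + 1333 / 10000 * x - 5759 / 10000 * x ^ 2

noncomputable def nr (y : ℝ) : ℝ := 8079 / 10000 - 1453 / 10000 * y - 3719 / 10000 * y ^ 2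

noncomputable def ns (z : ℝ) : ℝ := 8167 / 10000 - 2063 / 10000 * z - 2453 / 10000 * z ^ 2

noncomputable def kpr (x y : ℝ) : ℝ :=
  21 / 40 - 5527 / 10000 * x - 5227 / 10000 * y + 7099 / 10000 * (x * y)

noncomputable def kps (x z : ℝ) : ℝ :=
  2669 / 5000 - 1263 / 2500 * x - 4393 / 10000 * z + 5819 / 10000 * (x * z)

noncomputable def krs (y z : ℝ) : ℝ :=
  3421 / 10000 - 1137 / 2000 * y - 1137 / 2000 * z + 2827 / 2000 * (y * z)

noncomputable def mpr (x y : ℝ) : ℝ :=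
  1921 / 10000 - 58 / 625 * x - 203 / 1000 * y + 1619 / 10000 * (x * y)

noncomputable def mrs (y z : ℝ) : ℝ :=
  77 / 2500 - 253 / 5000 * y - 507 / 10000 * z + 96 / 625 * (y * z)

noncomputable def Wp (y z : ℝ) : ℝ :=
  889 / 2000 + 6193 / 10000 * y + 6563 / 10000 * z - 2307 / 10000 * y ^ 2 - 633 / 2500 * z ^ 2
    - 909 / 10000 * (y * z)

noncomputable def Wr (x z : ℝ) : ℝ :=
  -(162 / 625) + 3869 / 10000 * x + 1229 / 2500 * z + 657 / 5000 * x ^ 2 - 72 / 625 * z ^ 2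
    + 83 / 500 * (x * z)

noncomputable def Ws (x y : ℝ) : ℝ :=
  1717 / 5000 + 1527 / 5000 * x + 1441 / 2500 * y + 103 / 1250 * x ^ 2 - 897 / 5000 * y ^ 2
    + 391 / 2500 * (x * y)

noncomputable def Wp0 (y z : ℝ) : ℝ := Wp y z - 1 / 1250

noncomputable def Ws0 (x y : ℝ) : ℝ := Ws x y - 19 / 10000

noncomputable def Wa (x y z : ℝ) : ℝ :=
  5709 / 10000 + 5457 / 10000 * x + 1009 / 10000 * y + 109 / 1250 * z - 3523 / 10000 * x ^ 2
    + 359 / 1000 * y ^ 2 + 3763 / 10000 * z ^ 2 + 1389 / 5000 * (x * y) + 323 / 1250 * (x * z)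
    - 331 / 10000 * (y * z)

noncomputable def sg (x : ℝ) : ℝ := 3373 / 10000 - 1283 / 5000 * x

noncomputable def gg (x y z : ℝ) : ℝ := 1943 / 2500 + 273 / 10000 * x

noncomputable def fp (w : ℝ) : ℝ :=
  11 / 10000 + 97 / 1000 * w + 283 / 2500 * w ^ 2 + 101 / 2500 * w ^ 3

noncomputable def fr (w : ℝ) : ℝ :=
  769 / 2000 + 2857 / 10000 * w + 13 / 250 * w ^ 2 + 16 / 625 * w ^ 3

noncomputable def fs (w : ℝ) : ℝ :=
  1 / 125 + 1749 / 10000 * w + 3179 / 10000 * w ^ 2 - 1193 / 10000 * w ^ 3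

noncomputable def Bpr (w c : ℝ) : ℝ :=
  17 / 2500 + 2517 / 10000 * w + 479 / 10000 * w ^ 2 - 23 / 10000 * w ^ 3 + 11 / 1000 * c
    - 57 / 5000 * c ^ 2 - 47 / 400 * (w * c) - 11 / 250 * (w ^ 2 * c) - 73 / 625 * (w * c ^ 2)

noncomputable def Bps (w c : ℝ) : ℝ :=
  4 / 625 + 539 / 10000 * w + 123 / 625 * w ^ 2 - 73 / 10000 * w ^ 3 - 27 / 2000 * c
    + 43 / 5000 * c ^ 2 + 213 / 1000 * (w * c) - 2123 / 10000 * (w ^ 2 * c)
    - 213 / 1000 * (w * c ^ 2)

noncomputable def Brp (w c : ℝ) : ℝ :=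
  393 / 1000 + 11 / 40 * w - 1043 / 5000 * w ^ 2 + 3041 / 10000 * w ^ 3 - 341 / 10000 * c
    + 213 / 10000 * c ^ 2 + 609 / 2000 * (w * c) - 3279 / 10000 * (w ^ 2 * c)
    - 2013 / 10000 * (w * c ^ 2)

noncomputable def Brs (w c : ℝ) : ℝ :=
  807 / 2000 + 1271 / 5000 * w - 29 / 2500 * w ^ 2 + 769 / 10000 * w ^ 3 + 447 / 2500 * c
    - 729 / 2000 * c ^ 2 - 1511 / 5000 * (w * c) - 717 / 5000 * (w ^ 2 * c)
    + 1057 / 5000 * (w * c ^ 2)

noncomputable def Bsp (w c : ℝ) : ℝ :=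
  18 / 625 + 677 / 2000 * w - 627 / 5000 * w ^ 2 + 973 / 5000 * w ^ 3 + 117 / 10000 * c
    - 197 / 10000 * c ^ 2 - 209 / 10000 * (w * c) + 273 / 5000 * (w ^ 2 * c)
    - 499 / 2000 * (w * c ^ 2)

noncomputable def Bsr (w c : ℝ) : ℝ :=
  77 / 2500 + 413 / 2000 * w + 219 / 2000 * w ^ 2 + 119 / 10000 * w ^ 3 + 23 / 625 * c
    - 339 / 5000 * c ^ 2 - 2053 / 10000 * (w * c) - 559 / 5000 * (w ^ 2 * c)

end Pool.Agent.Helper8.TS.OL1Ar
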