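import Pool.Agent.Helper8.TS.OL1ArC
import Pool.Agent.Helper8.TS.OL1ArD
import Pool.Agent.Helper8.TS.HighPair
import Pool.Agent.Helper36.TS.Frame

/-!
# The piece `OL1Ar`: the high main cell, the cycle, the total
-/

set_option autoImplicit false

namespace Pool.Agent.Helper8.TS.OL1Ar

open Pool.Agent.Helper8.TS Pool.Agent.Helper8.TS.OL1ArC Pool.Agent.Helper36.TS

/-- the functions of the columns `p`, `r`, `s` -/
structure Vals (φ : Fin 4 → ℝ → ℝ) (B : Fin 4 → Fin 4 → ℝ → ℝ → ℝ) (p r s : Fin 4) : Prop where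
  hp : φ p = fp
  hr : φ r = fr
  hs : φ s = fs
  pr : B p r = Bpr
  ps : B p s = Bps
  rp : B r p = Brp
  rs : B r s = Brs
  sp : B s p = Bsp
  sr : B s r = Bsr

theorem exists_vals {p r s : Fin 4} (hpr : p ≠ r) (hps : p ≠ s) (hrs : r ≠ s) :
    ∃ φ B, Vals φ B p r s := by
  refine ⟨fun i => if i = p then fp else if i = r then fr else fs,
    fun i j => if i = p then (if j = r then Bpr else Bps) else
      if i = r then (if j = p then Brp else Brs) else (if j = p then Bsp else Bsr), ?_⟩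
  constructor <;> simp [hpr, hps, hrs, hpr.symm, hps.symm, hrs.symm]

theorem gg_ge {x y z : ℝ} (x0 : 0 ≤ x) (_ : 0 ≤ y) (z0 : 0 ≤ z) : 1943 / 2500 ≤ gg x y z := by
  unfold gg
  linarith

private theorem m_pr {s t c : ℝ} (s0 : 0 ≤ s) (st : s ≤ t) (t1 : t ≤ 1) (c0 : 0 ≤ c) (c1 : c ≤ 1) :
    Bpr s c ≤ Bpr t c := by
  have h :=
    bm_pr (s := s) (t := t) (c := c) (by linarith) (by linarith) (by linarith) (by linarith)
      (by linarith) (by linarith)
  have := mul_nonneg (sub_nonneg.2 st) h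
  unfold Bpr
  linarith

private theorem m_ps {s t c : ℝ} (s0 : 0 ≤ s) (st : s ≤ t) (t1 : t ≤ 1) (c0 : 0 ≤ c) (c1 : c ≤ 1) :
    Bps s c ≤ Bps t c := by
  have h :=
    bm_ps (s := s) (t := t) (c := c) (by linarith) (by linarith) (by linarith) (by linarith)
      (by linarith) (by linarith)
  have := mul_nonneg (sub_nonneg.2 st) h
  unfold Bps
  linarith

private theorem m_rp {s t c : ℝ} (s0 : 0 ≤ s) (st : s ≤ t) (t1 : t ≤ 1) (c0 : 0 ≤ c) (c1 : c ≤ 1) :
    Brp s c ≤ Brp t c := by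
  have h :=
    bm_rp (s := s) (t := t) (c := c) (by linarith) (by linarith) (by linarith) (by linarith)
      (by linarith) (by linarith)
  have := mul_nonneg (sub_nonneg.2 st) h
  unfold Brp
  linarith

private theorem m_rs {s t c : ℝ} (s0 : 0 ≤ s) (st : s ≤ t) (t1 : t ≤ 1) (c0 : 0 ≤ c) (c1 : c ≤ 1) :
    Brs s c ≤ Brs t c := by
  have h :=
    bm_rs (s := s) (t := t) (c := c) (by linarith) (by linarith) (by linarith) (by linarith)
      (by linarith) (by linarith)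
  have := mul_nonneg (sub_nonneg.2 st) h
  unfold Brs
  linarith

private theorem m_sp {s t c : ℝ} (s0 : 0 ≤ s) (st : s ≤ t) (t1 : t ≤ 1) (c0 : 0 ≤ c) (c1 : c ≤ 1) :
    Bsp s c ≤ Bsp t c := by
  have h :=
    bm_sp (s := s) (t := t) (c := c) (by linarith) (by linarith) (by linarith) (by linarith)
      (by linarith) (by linarith)
  have := mul_nonneg (sub_nonneg.2 st) h
  unfold Bsp
  linarith

private theorem m_sr {s t c : ℝ} (s0 : 0 ≤ s) (st : s ≤ t) (t1 : t ≤ 1) (c0 : 0 ≤ c) (c1 : c ≤ 1) :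
    Bsr s c ≤ Bsr t c := by
  have h :=
    bm_sr (s := s) (t := t) (c := c) (by linarith) (by linarith) (by linarith) (by linarith)
      (by linarith) (by linarith)
  have := mul_nonneg (sub_nonneg.2 st) h
  unfold Bsr
  linarith

/-- the bounds of a supporting cell are increasing in its width -/
theorem bmono {φ : Fin 4 → ℝ → ℝ} {B : Fin 4 → Fin 4 → ℝ → ℝ → ℝ} {a p r s : Fin 4}
    (hn : [a, p, r, s].Nodup) (V : Vals φ B p r s) : ∀ z y, z ≠ a → y ≠ a → z ≠ y →
    ∀ u t c : ℝ, 0 ≤ u → u ≤ t → t ≤ 1 → 0 ≤ c → c ≤ 1 → B z y u c ≤ B z y t c := by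
  intro z y hz hy hzy u t c u0 ut t1 c0 c1
  have h : (z = p ∧ y = r) ∨ (z = p ∧ y = s) ∨ (z = r ∧ y = p) ∨ (z = r ∧ y = s) ∨
      (z = s ∧ y = p) ∨ (z = s ∧ y = r) := by
    clear * - hn hz hy hzy
    revert hn hz hy hzy
    revert a p r s z y
    decide
  rcases h with ⟨rfl, rfl⟩ | ⟨rfl, rfl⟩ | ⟨rfl, rfl⟩ | ⟨rfl, rfl⟩ | ⟨rfl, rfl⟩ | ⟨rfl, rfl⟩
  · rw [V.pr]; exact m_pr u0 ut t1 c0 c1
  · rw [V.ps]; exact m_ps u0 ut t1 c0 c1
  · rw [V.rp]; exact m_rp u0 ut t1 c0 c1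
  · rw [V.rs]; exact m_rs u0 ut t1 c0 c1
  · rw [V.sp]; exact m_sp u0 ut t1 c0 c1
  · rw [V.sr]; exact m_sr u0 ut t1 c0 c1

theorem cyc_prs {u v w : ℝ} (u0 : 0 ≤ u) (u1 : u ≤ 1) (v0 : 0 ≤ v) (v1 : v ≤ 1) (w0 : 0 ≤ w)
    (w1 : w ≤ 1) : Bpr u v + Brs v w + Bsp w u ≤ 1943 / 2500 := by
  have :=
    cyc1 (p := u) (q := v) (r := w) (by linarith) (by linarith) (by linarith) (by linarith)
      (by linarith) (by linarith)
  unfold Bpr Brs Bsp
  linarith

theorem cyc_psr {u v w : ℝ} (u0 : 0 ≤ u) (u1 : u ≤ 1) (v0 : 0 ≤ v) (v1 : v ≤ 1) (w0 : 0 ≤ w)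
    (w1 : w ≤ 1) : Bps u v + Bsr v w + Brp w u ≤ 1943 / 2500 := by
  have :=
    cyc2 (p := u) (q := v) (r := w) (by linarith) (by linarith) (by linarith) (by linarith)
      (by linarith) (by linarith)
  unfold Bps Bsr Brp
  linarith

/-- the sum around the cycle -/
theorem cyc {φ : Fin 4 → ℝ → ℝ} {B : Fin 4 → Fin 4 → ℝ → ℝ → ℝ} {a p r s : Fin 4} {K : ℝ}
    (hn : [a, p, r, s].Nodup) (V : Vals φ B p r s) (hK : 1943 / 2500 ≤ K) :
    ∀ z y x, [a, z, y, x].Nodup → ∀ u v w : ℝ, 0 ≤ u → u ≤ 1 → 0 ≤ v → v ≤ 1 → 0 ≤ w → w ≤ 1 →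
      B z y u v + B y x v w + B x z w u ≤ K := by
  intro z y x hn' u v w u0 u1 v0 v1 w0 w1
  have h : (z = p ∧ y = r ∧ x = s) ∨ (z = r ∧ y = s ∧ x = p) ∨ (z = s ∧ y = p ∧ x = r) ∨
      (z = p ∧ y = s ∧ x = r) ∨ (z = s ∧ y = r ∧ x = p) ∨ (z = r ∧ y = p ∧ x = s) := by
    clear * - hn hn'
    revert hn hn'
    revert a p r s z y x
    decide
  rcases h with ⟨rfl, rfl, rfl⟩ | ⟨rfl, rfl, rfl⟩ | ⟨rfl, rfl, rfl⟩ | ⟨rfl, rfl, rfl⟩ |
    ⟨rfl, rfl, rfl⟩ | ⟨rfl, rfl, rfl⟩
  · rw [V.pr, V.rs, V.sp]; linarith [cyc_prs u0 u1 v0 v1 w0 w1]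
  · rw [V.rs, V.sp, V.pr]; linarith [cyc_prs w0 w1 u0 u1 v0 v1]
  · rw [V.sp, V.pr, V.rs]; linarith [cyc_prs v0 v1 w0 w1 u0 u1]
  · rw [V.ps, V.sr, V.rp]; linarith [cyc_psr u0 u1 v0 v1 w0 w1]
  · rw [V.sr, V.rp, V.ps]; linarith [cyc_psr w0 w1 u0 u1 v0 v1]
  · rw [V.rp, V.ps, V.sr]; linarith [cyc_psr v0 v1 w0 w1 u0 u1]

private theorem mono_p {s t : ℝ} (s0 : 0 ≤ s) (st : s ≤ t) (t1 : t ≤ 1) : fp s ≤ fp t := by
  have h : 0 ≤ (t - s) * (97 / 1000 + 283 / 2500 * (s + t) + 101 / 2500 * (s ^ 2 + s * t + t ^ 2)) :=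
    mul_nonneg (sub_nonneg.2 st) (by nlinarith [mul_nonneg s0 s0, mul_nonneg s0 (s0.trans st), sq_nonneg t])
  unfold fp
  linarith

private theorem conv_p {l t : ℝ} (l0 : 0 ≤ l) (l1 : l ≤ 1) (t0 : 0 ≤ t) (t1 : t ≤ 1) :
    fp (l * t) ≤ l * fp t + (1 - l) * fp 0 := by
  have h : 0 ≤ l * (1 - l) * t ^ 2 * (283 / 2500 + 101 / 2500 * (t * (1 + l))) :=
    mul_nonneg (mul_nonneg (mul_nonneg l0 (by linarith)) (sq_nonneg t))
      (by nlinarith [mul_nonneg t0 l0, mul_le_mul t1 l1 l0 zero_le_one])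
  unfold fp
  linarith

private theorem mono_r {s t : ℝ} (s0 : 0 ≤ s) (st : s ≤ t) (t1 : t ≤ 1) : fr s ≤ fr t := by
  have h : 0 ≤ (t - s) * (2857 / 10000 + 13 / 250 * (s + t) + 16 / 625 * (s ^ 2 + s * t + t ^ 2)) :=
    mul_nonneg (sub_nonneg.2 st) (by nlinarith [mul_nonneg s0 s0, mul_nonneg s0 (s0.trans st), sq_nonneg t])
  unfold fr
  linarith

private theorem conv_r {l t : ℝ} (l0 : 0 ≤ l) (l1 : l ≤ 1) (t0 : 0 ≤ t) (t1 : t ≤ 1) :
    fr (l * t) ≤ l * fr t + (1 - l) * fr 0 := by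
  have h : 0 ≤ l * (1 - l) * t ^ 2 * (13 / 250 + 16 / 625 * (t * (1 + l))) :=
    mul_nonneg (mul_nonneg (mul_nonneg l0 (by linarith)) (sq_nonneg t))
      (by nlinarith [mul_nonneg t0 l0, mul_le_mul t1 l1 l0 zero_le_one])
  unfold fr
  linarith

private theorem mono_s {s t : ℝ} (s0 : 0 ≤ s) (st : s ≤ t) (t1 : t ≤ 1) : fs s ≤ fs t := by
  have h : 0 ≤ (t - s) * (1749 / 10000 + 3179 / 10000 * (s + t) + (-(1193 / 10000)) * (s ^ 2 + s * t + t ^ 2)) :=
    mul_nonneg (sub_nonneg.2 st) (by nlinarith [mul_nonneg s0 s0, mul_nonneg s0 (s0.trans st), sq_nonneg t])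
  unfold fs
  linarith

private theorem conv_s {l t : ℝ} (l0 : 0 ≤ l) (l1 : l ≤ 1) (t0 : 0 ≤ t) (t1 : t ≤ 1) :
    fs (l * t) ≤ l * fs t + (1 - l) * fs 0 := by
  have h : 0 ≤ l * (1 - l) * t ^ 2 * (3179 / 10000 + (-(1193 / 10000)) * (t * (1 + l))) :=
    mul_nonneg (mul_nonneg (mul_nonneg l0 (by linarith)) (sq_nonneg t))
      (by nlinarith [mul_nonneg t0 l0, mul_le_mul t1 l1 l0 zero_le_one])
  unfold fs
  linarith

private theorem one_p {K : ℝ} (hK : 1943 / 2500 ≤ K) : EnvOne fp K where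
  a := fun t t0 t1 => by
    have :=
      one_p_a (t := t) (by linarith) (by linarith)
    unfold fp
    linarith
  d := fun t t0 t1 => by
    have :=
      one_p_d (t := t) (by linarith) (by linarith) (by linarith)
    unfold fp
    linarith

private theorem one_r {K : ℝ} (hK : 1943 / 2500 ≤ K) : EnvOne fr K where
  a := fun t t0 t1 => by
    have :=
      one_r_a (t := t) (by linarith) (by linarith)
    unfold fr
    linarith
  d := fun t t0 t1 => by
    have :=
      one_r_d (t := t) (by linarith) (by linarith) (by linarith)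
    unfold fr
    linarith

private theorem one_s {K : ℝ} (hK : 1943 / 2500 ≤ K) : EnvOne fs K where
  a := fun t t0 t1 => by
    have :=
      one_s_a (t := t) (by linarith) (by linarith)
    unfold fs
    linarith
  d := fun t t0 t1 => by
    have :=
      one_s_d (t := t) (by linarith) (by linarith) (by linarith)
    unfold fs
    linarith

private theorem t_zo {K : ℝ} (hK : 1943 / 2500 ≤ K) : EnvTwo (fun t => fr t + fs 0) K where
  b := fun t t0 t1 => by
    have :=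
      zo_b (t := t) (by linarith) (by linarith)
    simp only [fr, fs]
    linarith
  c := fun t t0 t1 => by
    have :=
      zo_c (t := t) (by linarith) (by linarith) (by linarith)
    simp only [fr, fs]
    linarith

private theorem t_oz {K : ℝ} (hK : 1943 / 2500 ≤ K) : EnvTwo (fun t => fs t + fr 0) K where
  b := fun t t0 t1 => by
    have :=
      oz_b (t := t) (by linarith) (by linarith)
    simp only [fs, fr]
    linarith
  c := fun t t0 t1 => by
    have :=
      oz_c (t := t) (by linarith) (by linarith) (by linarith)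
    simp only [fs, fr]
    linarith

private theorem t_yo {K : ℝ} (hK : 1943 / 2500 ≤ K) : EnvTwo (fun t => fp t + fs 0) K where
  b := fun t t0 t1 => by
    have :=
      yo_b (t := t) (by linarith) (by linarith)
    simp only [fp, fs]
    linarith
  c := fun t t0 t1 => by
    have :=
      yo_c (t := t) (by linarith) (by linarith) (by linarith)
    simp only [fp, fs]
    linarith

private theorem t_oy {K : ℝ} (hK : 1943 / 2500 ≤ K) : EnvTwo (fun t => fs t + fp 0) K where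
  b := fun t t0 t1 => by
    have :=
      oy_b (t := t) (by linarith) (by linarith)
    simp only [fs, fp]
    linarith
  c := fun t t0 t1 => by
    have :=
      oy_c (t := t) (by linarith) (by linarith) (by linarith)
    simp only [fs, fp]
    linarith

private theorem q_zy {K : ℝ} (hK : 1943 / 2500 ≤ K) : EnvPair Brp fp K where
  b := fun t x x0 xt t1 => by
    have :=
      zy_b (v := t - x) (x := x) (by linarith) (by linarith) (by linarith)
    unfold Brp fp
    linarith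
  c := fun t x x0 xt t0 t1 => by
    have :=
      zy_c (v := t - x) (x := x) (by linarith) (by linarith) (by linarith) (by linarith)
    unfold Brp fp
    linarith

private theorem q_yz {K : ℝ} (hK : 1943 / 2500 ≤ K) : EnvPair Bpr fr K where
  b := fun t x x0 xt t1 => by
    have :=
      yz_b (v := t - x) (x := x) (by linarith) (by linarith) (by linarith)
    unfold Bpr fr
    linarith
  c := fun t x x0 xt t0 t1 => by
    have :=
      yz_c (v := t - x) (x := x) (by linarith) (by linarith) (by linarith) (by linarith)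
    unfold Bpr fr
    linarith

/-- **the high main cell, by pairs** -/
theorem hiP {φ : Fin 4 → ℝ → ℝ} {B : Fin 4 → Fin 4 → ℝ → ℝ → ℝ} {a p r s : Fin 4} {K : ℝ}
    (hn : [a, p, r, s].Nodup) (V : Vals φ B p r s) (hK : 1943 / 2500 ≤ K) : HiP φ B a r p s K := by
  have mem : ∀ m, m ≠ a → m = p ∨ m = r ∨ m = s := by
    clear * - hn
    revert hn
    revert a p r s
    decide
  refine
    { mono := ?_, conv := ?_, bzy := ?_, byz := ?_, zero := by linarith, one := ?_, zy := ?_, yz := ?_,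
      zo := ?_, oz := ?_, yo := ?_, oy := ?_, tzy := ?_, tyz := ?_ }
  · intro m hm u t u0 ut t1
    rcases mem m hm with rfl | rfl | rfl
    · rw [V.hp]; exact mono_p u0 ut t1
    · rw [V.hr]; exact mono_r u0 ut t1
    · rw [V.hs]; exact mono_s u0 ut t1
  · intro m hm l t l0 l1 t0 t1
    rcases mem m hm with rfl | rfl | rfl
    · rw [V.hp]; exact conv_p l0 l1 t0 t1
    · rw [V.hr]; exact conv_r l0 l1 t0 t1
    · rw [V.hs]; exact conv_s l0 l1 t0 t1
  · intro u t c u0 ut t1 c0 c1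
    rw [V.rp]; exact m_rp u0 ut t1 c0 c1
  · intro u t c u0 ut t1 c0 c1
    rw [V.pr]; exact m_pr u0 ut t1 c0 c1
  · intro m hm
    rcases mem m hm with rfl | rfl | rfl
    · rw [V.hp]; exact one_p hK
    · rw [V.hr]; exact one_r hK
    · rw [V.hs]; exact one_s hK
  · rw [V.rp, V.hp]; exact q_zy hK
  · rw [V.pr, V.hr]; exact q_yz hK
  · rw [V.hr, V.hs]; exact t_zo hK
  · rw [V.hs, V.hr]; exact t_oz hK
  · rw [V.hp, V.hs]; exact t_yo hK
  · rw [V.hs, V.hp]; exact t_oy hK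
  · intro u x v u0 x0 v0 h1 h2
    have :=
      tzy (u := u) (x := x) (v := v) (by linarith) (by linarith) (by linarith) (by linarith)
        (by linarith)
    rw [V.rp, V.hp, V.hs]
    unfold Brp fp fs
    linarith
  · intro u x v u0 x0 v0 h1 h2
    have :=
      tyz (u := u) (x := x) (v := v) (by linarith) (by linarith) (by linarith) (by linarith)
        (by linarith)
    rw [V.pr, V.hr, V.hs]
    unfold Bpr fr fs
    linarith

/-- **the total** -/
theorem tot {x y z : ℝ} (x0 : 0 ≤ x) (x1 : x ≤ 3 / 5) (y0 : 0 ≤ y) (y1 : y ≤ 3 / 5)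
    (z0 : 0 ≤ z) (z1 : z ≤ 3 / 5) (sm : x + y + z ≤ 9 / 10) :
    rowc (np x) x + rowc (nr y) y + rowc (ns z) z + kpr x y * (x + y) + kps x z * (x + z)
      + krs y z * (y + z) + Wa x y z + Wp y z + Wr x z + Ws x y + gg x y z ≤ 613 / 200 := by
  have :=
    total (x := x) (y := y) (z := z) (by linarith) (by linarith) (by linarith) (by linarith)
      (by linarith) (by linarith) (by linarith)
  unfold rowc np nr ns kpr kps krs Wa Wp Wr Ws gg
  linarith

end Pool.Agent.Helper8.TS.OL1Ar
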