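import Pool.Agent.Helper8.TS.OL1BrC
import Pool.Agent.Helper83.OL.Dig
import Pool.Agent.Helper8.TS.HighPair
import Pool.Agent.Helper36.TS.Frame

/-!
# The piece `OL1Br`: the high main cell, the cycle, the total
-/

set_option autoImplicit false

namespace Pool.Agent.Helper8.TS.OL1Br

open Pool.Agent.Helper8.TS Pool.Agent.Helper8.TS.OL1BrC Pool.Agent.Helper36.TS
open Pool.Agent.Helper83.OL

/-- the functions of the columns `p`, `r`, `s` -/
structure Vals (φ : Fin 4 → ℝ → ℝ) (B : Fin 4 → Fin 4 → ℝ → ℝ → ℝ) (p r s : Fin 4) : Prop where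
  hp : φ p = fp
  hr : φ r = fr
  hs : φ s = fs
  pr : B p r = bpr
  ps : B p s = bps
  rp : B r p = brp
  rs : B r s = brs
  sp : B s p = bsp
  sr : B s r = bsr

theorem exists_vals {p r s : Fin 4} (hpr : p ≠ r) (hps : p ≠ s) (hrs : r ≠ s) :
    ∃ φ B, Vals φ B p r s := by
  refine ⟨fun i => if i = p then fp else if i = r then fr else fs,
    fun i j => if i = p then (if j = r then bpr else bps) else
      if i = r then (if j = p then brp else brs) else (if j = p then bsp else bsr), ?_⟩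
  constructor <;> simp [hpr.symm, hps.symm, hrs.symm]

private theorem m_pr {s t c : ℝ} (s0 : 0 ≤ s) (st : s ≤ t) (t1 : t ≤ 1) (c0 : 0 ≤ c) (c1 : c ≤ 1) :
    bpr s c ≤ bpr t c := by
  have h :=
    bm_pr (s := s) (t := t) (c := c) (by linarith) (by linarith) (by linarith) (by linarith)
      (by linarith) (by linarith)
  have := mul_nonneg (sub_nonneg.2 st) h
  unfold bpr
  linarith

private theorem m_ps {s t c : ℝ} (s0 : 0 ≤ s) (st : s ≤ t) (t1 : t ≤ 1) (c0 : 0 ≤ c) (c1 : c ≤ 1) :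
    bps s c ≤ bps t c := by
  have h :=
    bm_ps (s := s) (t := t) (c := c) (by linarith) (by linarith) (by linarith) (by linarith)
      (by linarith) (by linarith)
  have := mul_nonneg (sub_nonneg.2 st) h
  unfold bps
  linarith

private theorem m_rp {s t c : ℝ} (s0 : 0 ≤ s) (st : s ≤ t) (t1 : t ≤ 1) (c0 : 0 ≤ c) (c1 : c ≤ 1) :
    brp s c ≤ brp t c := by
  have h :=
    bm_rp (s := s) (t := t) (c := c) (by linarith) (by linarith) (by linarith) (by linarith)
      (by linarith) (by linarith)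
  have := mul_nonneg (sub_nonneg.2 st) h
  unfold brp
  linarith

private theorem m_rs {s t c : ℝ} (s0 : 0 ≤ s) (st : s ≤ t) (t1 : t ≤ 1) (c0 : 0 ≤ c) (c1 : c ≤ 1) :
    brs s c ≤ brs t c := by
  have h :=
    bm_rs (s := s) (t := t) (c := c) (by linarith) (by linarith) (by linarith) (by linarith)
      (by linarith) (by linarith)
  have := mul_nonneg (sub_nonneg.2 st) h
  unfold brs
  linarith

private theorem m_sp {s t c : ℝ} (s0 : 0 ≤ s) (st : s ≤ t) (t1 : t ≤ 1) (c0 : 0 ≤ c) (c1 : c ≤ 1) :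
    bsp s c ≤ bsp t c := by
  have h :=
    bm_sp (s := s) (t := t) (c := c) (by linarith) (by linarith) (by linarith) (by linarith)
      (by linarith) (by linarith)
  have := mul_nonneg (sub_nonneg.2 st) h
  unfold bsp
  linarith

private theorem m_sr {s t c : ℝ} (s0 : 0 ≤ s) (st : s ≤ t) (t1 : t ≤ 1) (c0 : 0 ≤ c) (c1 : c ≤ 1) :
    bsr s c ≤ bsr t c := by
  have h :=
    bm_sr (s := s) (t := t) (c := c) (by linarith) (by linarith) (by linarith) (by linarith)
      (by linarith) (by linarith)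
  have := mul_nonneg (sub_nonneg.2 st) h
  unfold bsr
  linarith

/-- the bounds of a supporting cell are increasing in its width -/
theorem bmono {φ : Fin 4 → ℝ → ℝ} {B : Fin 4 → Fin 4 → ℝ → ℝ → ℝ} {a p r s : Fin 4}
    (hn : [a, p, r, s].Nodup) (V : Vals φ B p r s) : ∀ z y, z ≠ a → y ≠ a → z ≠ y →
    ∀ u t c : ℝ, 0 ≤ u → u ≤ t → t ≤ 1 → 0 ≤ c → c ≤ 1 → B z y u c ≤ B z y t c := by
  intro z y hz hy hzy u t c u0 ut t1 c0 c1
  have h : (z = p ∧ y = r) ∨ (z = p ∧ y = s) ∨ (z = r ∧ y = p) ∨ (z = r ∧ y = s) ∨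
      (z = s ∧ y = p) ∨ (z = s ∧ y = r) := by
    clear * - hn hz hy hzy
    revert hn hz hy hzy
    revert a p r s z y
    decide
  rcases h with ⟨rfl, rfl⟩ | ⟨rfl, rfl⟩ | ⟨rfl, rfl⟩ | ⟨rfl, rfl⟩ | ⟨rfl, rfl⟩ | ⟨rfl, rfl⟩
  · rw [V.pr]; exact m_pr u0 ut t1 c0 c1
  · rw [V.ps]; exact m_ps u0 ut t1 c0 c1
  · rw [V.rp]; exact m_rp u0 ut t1 c0 c1
  · rw [V.rs]; exact m_rs u0 ut t1 c0 c1
  · rw [V.sp]; exact m_sp u0 ut t1 c0 c1
  · rw [V.sr]; exact m_sr u0 ut t1 c0 c1

theorem cyc_prs {u v w : ℝ} (u0 : 0 ≤ u) (u1 : u ≤ 1) (v0 : 0 ≤ v) (v1 : v ≤ 1) (w0 : 0 ≤ w)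
    (w1 : w ≤ 1) : bpr u v + brs v w + bsp w u ≤ 333 / 625 := by
  have :=
    cyc1 (p := u) (q := v) (r := w) (by linarith) (by linarith) (by linarith) (by linarith)
      (by linarith) (by linarith)
  unfold bpr brs bsp
  linarith

theorem cyc_psr {u v w : ℝ} (u0 : 0 ≤ u) (u1 : u ≤ 1) (v0 : 0 ≤ v) (v1 : v ≤ 1) (w0 : 0 ≤ w)
    (w1 : w ≤ 1) : bps u v + bsr v w + brp w u ≤ 333 / 625 := by
  have :=
    cyc2 (p := u) (q := v) (r := w) (by linarith) (by linarith) (by linarith) (by linarith)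
      (by linarith) (by linarith)
  unfold bps bsr brp
  linarith

/-- the sum around the cycle -/
theorem cyc {φ : Fin 4 → ℝ → ℝ} {B : Fin 4 → Fin 4 → ℝ → ℝ → ℝ} {a p r s : Fin 4} {K : ℝ}
    (hn : [a, p, r, s].Nodup) (V : Vals φ B p r s) (hK : Pool.Agent.Helper83.OL.gg ≤ K) :
    ∀ z y x, [a, z, y, x].Nodup → ∀ u v w : ℝ, 0 ≤ u → u ≤ 1 → 0 ≤ v → v ≤ 1 → 0 ≤ w → w ≤ 1 →
      B z y u v + B y x v w + B x z w u ≤ K := by
  intro z y x hn' u v w u0 u1 v0 v1 w0 w1
  unfold Pool.Agent.Helper83.OL.gg at hK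
  have h : (z = p ∧ y = r ∧ x = s) ∨ (z = r ∧ y = s ∧ x = p) ∨ (z = s ∧ y = p ∧ x = r) ∨
      (z = p ∧ y = s ∧ x = r) ∨ (z = s ∧ y = r ∧ x = p) ∨ (z = r ∧ y = p ∧ x = s) := by
    clear * - hn hn'
    revert hn hn'
    revert a p r s z y x
    decide
  rcases h with ⟨rfl, rfl, rfl⟩ | ⟨rfl, rfl, rfl⟩ | ⟨rfl, rfl, rfl⟩ | ⟨rfl, rfl, rfl⟩ |
    ⟨rfl, rfl, rfl⟩ | ⟨rfl, rfl, rfl⟩
  · rw [V.pr, V.rs, V.sp]; linarith [cyc_prs u0 u1 v0 v1 w0 w1]
  · rw [V.rs, V.sp, V.pr]; linarith [cyc_prs w0 w1 u0 u1 v0 v1]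
  · rw [V.sp, V.pr, V.rs]; linarith [cyc_prs v0 v1 w0 w1 u0 u1]
  · rw [V.ps, V.sr, V.rp]; linarith [cyc_psr u0 u1 v0 v1 w0 w1]
  · rw [V.sr, V.rp, V.ps]; linarith [cyc_psr w0 w1 u0 u1 v0 v1]
  · rw [V.rp, V.ps, V.sr]; linarith [cyc_psr v0 v1 w0 w1 u0 u1]

private theorem mono_p {s t : ℝ} (s0 : 0 ≤ s) (st : s ≤ t) (t1 : t ≤ 1) : fp s ≤ fp t := by
  have h : 0 ≤ (t - s) * (10993 / 50000 + 173 / 3125 * (s + t) + 1403 / 50000 * (s ^ 2 + s * t + t ^ 2)) :=
    mul_nonneg (sub_nonneg.2 st)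
      (by nlinarith [mul_nonneg s0 s0, mul_nonneg s0 (s0.trans st), sq_nonneg t])
  unfold fp
  linarith

private theorem conv_p {l t : ℝ} (l0 : 0 ≤ l) (l1 : l ≤ 1) (t0 : 0 ≤ t) (t1 : t ≤ 1) :
    fp (l * t) ≤ l * fp t + (1 - l) * fp 0 := by
  have h : 0 ≤ l * (1 - l) * t ^ 2 * (173 / 3125 + 1403 / 50000 * (t * (1 + l))) :=
    mul_nonneg (mul_nonneg (mul_nonneg l0 (by linarith)) (sq_nonneg t))
      (by nlinarith [mul_nonneg t0 l0, mul_le_mul t1 l1 l0 zero_le_one])
  unfold fp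
  linarith

private theorem mono_r {s t : ℝ} (s0 : 0 ≤ s) (st : s ≤ t) (t1 : t ≤ 1) : fr s ≤ fr t := by
  have h : 0 ≤ (t - s) * (6441 / 25000 + 59 / 100000 * (s + t) + 713 / 4000 * (s ^ 2 + s * t + t ^ 2)) :=
    mul_nonneg (sub_nonneg.2 st)
      (by nlinarith [mul_nonneg s0 s0, mul_nonneg s0 (s0.trans st), sq_nonneg t])
  unfold fr
  linarith

private theorem conv_r {l t : ℝ} (l0 : 0 ≤ l) (l1 : l ≤ 1) (t0 : 0 ≤ t) (t1 : t ≤ 1) :
    fr (l * t) ≤ l * fr t + (1 - l) * fr 0 := by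
  have h : 0 ≤ l * (1 - l) * t ^ 2 * (59 / 100000 + 713 / 4000 * (t * (1 + l))) :=
    mul_nonneg (mul_nonneg (mul_nonneg l0 (by linarith)) (sq_nonneg t))
      (by nlinarith [mul_nonneg t0 l0, mul_le_mul t1 l1 l0 zero_le_one])
  unfold fr
  linarith

private theorem mono_s {s t : ℝ} (s0 : 0 ≤ s) (st : s ≤ t) (t1 : t ≤ 1) : fs s ≤ fs t := by
  have h : 0 ≤ (t - s) * (44653 / 100000 + 13 / 3125 * (s + t) + 117 / 4000 * (s ^ 2 + s * t + t ^ 2)) :=
    mul_nonneg (sub_nonneg.2 st)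
      (by nlinarith [mul_nonneg s0 s0, mul_nonneg s0 (s0.trans st), sq_nonneg t])
  unfold fs
  linarith

private theorem conv_s {l t : ℝ} (l0 : 0 ≤ l) (l1 : l ≤ 1) (t0 : 0 ≤ t) (t1 : t ≤ 1) :
    fs (l * t) ≤ l * fs t + (1 - l) * fs 0 := by
  have h : 0 ≤ l * (1 - l) * t ^ 2 * (13 / 3125 + 117 / 4000 * (t * (1 + l))) :=
    mul_nonneg (mul_nonneg (mul_nonneg l0 (by linarith)) (sq_nonneg t))
      (by nlinarith [mul_nonneg t0 l0, mul_le_mul t1 l1 l0 zero_le_one])
  unfold fs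
  linarith

private theorem one_p {K : ℝ} (hK : 333 / 625 ≤ K) : EnvOne fp K where
  a := fun t t0 t1 => by
    have :=
      one_p_a (t := t) (by linarith) (by linarith)
    unfold fp
    linarith
  d := fun t t0 t1 => by
    have :=
      one_p_d (t := t) (by linarith) (by linarith) (by linarith)
    unfold fp
    linarith

private theorem one_r {K : ℝ} (hK : 333 / 625 ≤ K) : EnvOne fr K where
  a := fun t t0 t1 => by
    have :=
      one_r_a (t := t) (by linarith) (by linarith)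
    unfold fr
    linarith
  d := fun t t0 t1 => by
    have :=
      one_r_d (t := t) (by linarith) (by linarith) (by linarith)
    unfold fr
    linarith

private theorem one_s {K : ℝ} (hK : 333 / 625 ≤ K) : EnvOne fs K where
  a := fun t t0 t1 => by
    have :=
      one_s_a (t := t) (by linarith) (by linarith)
    unfold fs
    linarith
  d := fun t t0 t1 => by
    have :=
      one_s_d (t := t) (by linarith) (by linarith) (by linarith)
    unfold fs
    linarith

private theorem t_zo {K : ℝ} (hK : 333 / 625 ≤ K) : EnvTwo (fun t => fr t + fp 0) K where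
  b := fun t t0 t1 => by
    have :=
      zo_b (t := t) (by linarith) (by linarith)
    simp only [fr, fp]
    linarith
  c := fun t t0 t1 => by
    have :=
      zo_c (t := t) (by linarith) (by linarith) (by linarith)
    simp only [fr, fp]
    linarith

private theorem t_oz {K : ℝ} (hK : 333 / 625 ≤ K) : EnvTwo (fun t => fp t + fr 0) K where
  b := fun t t0 t1 => by
    have :=
      oz_b (t := t) (by linarith) (by linarith)
    simp only [fp, fr]
    linarith
  c := fun t t0 t1 => by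
    have :=
      oz_c (t := t) (by linarith) (by linarith) (by linarith)
    simp only [fp, fr]
    linarith

private theorem t_yo {K : ℝ} (hK : 333 / 625 ≤ K) : EnvTwo (fun t => fs t + fp 0) K where
  b := fun t t0 t1 => by
    have :=
      yo_b (t := t) (by linarith) (by linarith)
    simp only [fs, fp]
    linarith
  c := fun t t0 t1 => by
    have :=
      yo_c (t := t) (by linarith) (by linarith) (by linarith)
    simp only [fs, fp]
    linarith

private theorem t_oy {K : ℝ} (hK : 333 / 625 ≤ K) : EnvTwo (fun t => fp t + fs 0) K where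
  b := fun t t0 t1 => by
    have :=
      oy_b (t := t) (by linarith) (by linarith)
    simp only [fp, fs]
    linarith
  c := fun t t0 t1 => by
    have :=
      oy_c (t := t) (by linarith) (by linarith) (by linarith)
    simp only [fp, fs]
    linarith

private theorem q_zy {K : ℝ} (hK : 333 / 625 ≤ K) : EnvPair brs fs K where
  b := fun t x x0 xt t1 => by
    have :=
      zy_b (v := t - x) (x := x) (by linarith) (by linarith) (by linarith)
    unfold brs fs
    linarith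
  c := fun t x x0 xt t0 t1 => by
    have :=
      zy_c (v := t - x) (x := x) (by linarith) (by linarith) (by linarith) (by linarith)
    unfold brs fs
    linarith

private theorem q_yz {K : ℝ} (hK : 333 / 625 ≤ K) : EnvPair bsr fr K where
  b := fun t x x0 xt t1 => by
    have :=
      yz_b (v := t - x) (x := x) (by linarith) (by linarith) (by linarith)
    unfold bsr fr
    linarith
  c := fun t x x0 xt t0 t1 => by
    have :=
      yz_c (v := t - x) (x := x) (by linarith) (by linarith) (by linarith) (by linarith)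
    unfold bsr fr
    linarith

/-- **the high main cell, by pairs** -/
theorem hiP {φ : Fin 4 → ℝ → ℝ} {B : Fin 4 → Fin 4 → ℝ → ℝ → ℝ} {a p r s : Fin 4} {K : ℝ}
    (hn : [a, p, r, s].Nodup) (V : Vals φ B p r s) (hK : Pool.Agent.Helper83.OL.gg ≤ K) : HiP φ B a r s p K := by
  have mem : ∀ m, m ≠ a → m = p ∨ m = r ∨ m = s := by
    clear * - hn
    revert hn
    revert a p r s
    decide
  unfold Pool.Agent.Helper83.OL.gg at hK
  refine
    { mono := ?_, conv := ?_, bzy := ?_, byz := ?_, zero := by linarith, one := ?_, zy := ?_, yz := ?_,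
      zo := ?_, oz := ?_, yo := ?_, oy := ?_, tzy := ?_, tyz := ?_ }
  · intro m hm u t u0 ut t1
    rcases mem m hm with rfl | rfl | rfl
    · rw [V.hp]; exact mono_p u0 ut t1
    · rw [V.hr]; exact mono_r u0 ut t1
    · rw [V.hs]; exact mono_s u0 ut t1
  · intro m hm l t l0 l1 t0 t1
    rcases mem m hm with rfl | rfl | rfl
    · rw [V.hp]; exact conv_p l0 l1 t0 t1
    · rw [V.hr]; exact conv_r l0 l1 t0 t1
    · rw [V.hs]; exact conv_s l0 l1 t0 t1
  · intro u t c u0 ut t1 c0 c1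
    rw [V.rs]; exact m_rs u0 ut t1 c0 c1
  · intro u t c u0 ut t1 c0 c1
    rw [V.sr]; exact m_sr u0 ut t1 c0 c1
  · intro m hm
    rcases mem m hm with rfl | rfl | rfl
    · rw [V.hp]; exact one_p hK
    · rw [V.hr]; exact one_r hK
    · rw [V.hs]; exact one_s hK
  · rw [V.rs, V.hs]; exact q_zy hK
  · rw [V.sr, V.hr]; exact q_yz hK
  · rw [V.hr, V.hp]; exact t_zo hK
  · rw [V.hp, V.hr]; exact t_oz hK
  · rw [V.hs, V.hp]; exact t_yo hK
  · rw [V.hp, V.hs]; exact t_oy hK
  · intro u x v u0 x0 v0 h1 h2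
    have :=
      tzy (u := u) (x := x) (v := v) (by linarith) (by linarith) (by linarith) (by linarith)
        (by linarith)
    rw [V.rs, V.hs, V.hp]
    unfold brs fs fp
    linarith
  · intro u x v u0 x0 v0 h1 h2
    have :=
      tyz (u := u) (x := x) (v := v) (by linarith) (by linarith) (by linarith) (by linarith)
        (by linarith)
    rw [V.sr, V.hr, V.hp]
    unfold bsr fr fp
    linarith

/-- **the total** -/
theorem tot {x y z : ℝ} (x0 : 0 ≤ x) (x1 : x ≤ 3 / 5) (y0 : 0 ≤ y) (y1 : y ≤ 3 / 5)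
    (z0 : 0 ≤ z) (z1 : z ≤ 3 / 5) :
    rowc (np x) x + rowc (nr y) y + rowc (ns z) z + kpr x y * (x + y) + kps x z * (x + z)
      + krs y z * (y + z) + wa x y z + wp y z + wr x z + ws x y
      + Pool.Agent.Helper83.OL.gg ≤ 613 / 200 := by
  have :=
    total (x := x) (y := y) (z := z) (by linarith) (by linarith) (by linarith) (by linarith)
      (by linarith) (by linarith)
  unfold rowc np nr ns kpr kps krs wa wp wr ws Pool.Agent.Helper83.OL.gg
  linarith

end Pool.Agent.Helper8.TS.OL1Br
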