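import Pool.Agent.Helper8.TS.HighNum
import Pool.Agent.Helper19.TS.OL0D

/-!
# `OL0'`: the high main cell
-/

set_option autoImplicit false

namespace Pool.Agent.Helper8.TS

open Pool.Agent.Helper19.TS.OL0

theorem ol0_star {x y : ℝ} (x0 : 0 ≤ x) (x1 : x ≤ 3 / 5) (y0 : 0 ≤ y) (y1 : y ≤ 3 / 5) :
    Star (fun w => Pool.Agent.Helper19.TS.OL0.ph w x y) :=
  cub_star (A := 1046 / 10000 + 1280 / 10000 * (x + y) - 585 / 10000 * (x ^ 2 + y ^ 2)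
    + 3631 / 10000 * (x * y)) (B := 1299 / 10000 + 1262 / 10000 * (x + y)) (C := 426 / 10000)
    (by nlinarith [mul_nonneg x0 y0]) (by linarith) (by norm_num)

theorem ol0_le {x y t w : ℝ} (x0 : 0 ≤ x) (x1 : x ≤ 3 / 5) (y0 : 0 ≤ y) (y1 : y ≤ 3 / 5)
    (t0 : 0 ≤ t) (t1 : t ≤ 3 / 5) (w0 : 0 ≤ w) (w1 : w ≤ 1) :
    Pool.Agent.Helper19.TS.OL0.ph w y t ≤
      ps w + (Pool.Agent.Helper19.TS.OL0.gg x y t + 3 / 100 - 61 / 200) := by
  have h1 : 0 ≤ x * (2578 / 10000 - 645 / 10000 * x + 3631 / 10000 * (y + t)) :=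
    mul_nonneg x0 (by linarith)
  have h2 : 0 ≤ (1 - w) * (1280 / 10000 * (y + t) - 585 / 10000 * (y ^ 2 + t ^ 2)
      + 3631 / 10000 * (y * t)) :=
    mul_nonneg (by linarith) (by nlinarith [mul_nonneg y0 t0])
  have h3 : 0 ≤ (1 - w) * (1 + w) * (y + t) :=
    mul_nonneg (mul_nonneg (by linarith) (by linarith)) (by linarith)
  have h4 : 0 ≤ y * (36 / 10000 - 60 / 10000 * y) := mul_nonneg y0 (by linarith)
  have h5 : 0 ≤ t * (36 / 10000 - 60 / 10000 * t) := mul_nonneg t0 (by linarith)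
  have h6 : 1046 / 10000 * w + 1299 / 10000 * w ^ 2 + 426 / 10000 * w ^ 3 ≤ ps w := by
    unfold ps
    have : 0 ≤ w * (304 / 10000 - 599 / 10000 * w + 524 / 10000 * w ^ 2) :=
      mul_nonneg w0 (by nlinarith [sq_nonneg (w - 599 / 1048)])
    nlinarith
  unfold Pool.Agent.Helper19.TS.OL0.ph Pool.Agent.Helper19.TS.OL0.gg
  nlinarith

/-- **`OL0'`: the inequalities of the high main cell.** `x` is the height of the row `m`, `y`, `t` are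
the heights of the two rows of the column `m`. -/
theorem ol0_hi {φ : Fin 4 → ℝ → ℝ} {a : Fin 4} {K : ℝ}
    (h : ∀ m, m ≠ a → ∃ x y t : ℝ, 0 ≤ x ∧ x ≤ 3 / 5 ∧ 0 ≤ y ∧ y ≤ 3 / 5 ∧ 0 ≤ t ∧ t ≤ 3 / 5 ∧
      (∀ w, φ m w = Pool.Agent.Helper19.TS.OL0.ph w y t) ∧
      K = Pool.Agent.Helper19.TS.OL0.gg x y t + 3 / 100) : Hi φ a (3 / 5) K := by
  refine hi_gen (fun m hm => ?_) fun m hm w w0 w1 => ?_
  · obtain ⟨x, y, t, x0, x1, y0, y1, t0, t1, e, -⟩ := h m hm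
    have : φ m = fun w => Pool.Agent.Helper19.TS.OL0.ph w y t := funext e
    rw [this]
    exact ol0_star y0 y1 t0 t1
  · obtain ⟨x, y, t, x0, x1, y0, y1, t0, t1, e, hK⟩ := h m hm
    rw [e w, hK]
    exact ol0_le x0 x1 y0 y1 t0 t1 w0 w1

end Pool.Agent.Helper8.TS
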