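import Pool.Agent.Helper83.Cert.Check
import Pool.Agent.Helper19.TS.OL0D

/-!
# `OL0'`: the sum around the cycle

If no cell of the low class supports the others in a chain, they support each other in a cycle; then
every gain is at most the bound `bb` of a cell that supports a given height.
-/

set_option autoImplicit false
set_option maxRecDepth 100000

namespace Pool.Agent.Helper8.TS

open Pool.Agent.Helper83.Cert Pool.Agent.Helper19.TS.OL0

private theorem cyc_aux {x y t p q r : ℝ} (hx : 0 ≤ x) (hy : 0 ≤ y) (ht : 0 ≤ t) (hp : 0 ≤ p) (hq : 0 ≤ q) (hr : 0 ≤ r) (kx : 0 ≤ 3 / 5 - x) (ky : 0 ≤ 3 / 5 - y) (kt : 0 ≤ 3 / 5 - t) (kp : 0 ≤ 1 - p) (pq : 0 ≤ p - q) (pr : 0 ≤ p - r) :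
    0 ≤ 77 / 250 + 1289 / 5000 * x + 1289 / 5000 * y + 1289 / 5000 * t - 1979 / 10000 * p - 1979 / 10000 * q - 1979 / 10000 * r - 129 / 2000 * x ^ 2 + 3631 / 10000 * x * y + 3631 / 10000 * x * t - 2217 / 10000 * x * q - 2217 / 10000 * x * r - 129 / 2000 * y ^ 2 + 3631 / 10000 * y * t - 2217 / 10000 * y * p - 2217 / 10000 * y * r - 129 / 2000 * t ^ 2 - 2217 / 10000 * t * p - 2217 / 10000 * t * q - 803 / 10000 * p ^ 2 - 803 / 10000 * q ^ 2 - 803 / 10000 * r ^ 2 + 399 / 10000 * x ^ 2 * q + 399 / 10000 * x ^ 2 * r - 3609 / 10000 * x * y * r - 3609 / 10000 * x * t * q + 1093 / 5000 * x * p * q - 189 / 10000 * x * q ^ 2 + 1093 / 5000 * x * q * r - 189 / 10000 * x * r ^ 2 + 399 / 10000 * y ^ 2 * p + 399 / 10000 * y ^ 2 * r - 3609 / 10000 * y * t * p - 189 / 10000 * y * p ^ 2 + 1093 / 5000 * y * p * r + 1093 / 5000 * y * q * r - 189 / 10000 * y * r ^ 2 + 399 / 10000 * t ^ 2 * p + 399 / 10000 * t ^ 2 * q - 189 / 10000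 * t * p ^ 2 + 1093 / 5000 * t * p * q + 1093 / 5000 * t * p * r - 189 / 10000 * t * q ^ 2 + 327 / 2500 * p ^ 2 * q + 76 / 625 * p ^ 2 * r + 76 / 625 * p * q ^ 2 + 327 / 2500 * p * r ^ 2 + 327 / 2500 * q ^ 2 * r + 76 / 625 * q * r ^ 2 := by
  have h := cert (y := yv x y t p q r 0 0 0)
    (gs := [(.v 2),
      (.v 3),
      (.v 5),
      (.v 7),
      (.v 11),
      (.v 13),
      (.add (.c (3)) (.mul (.c (-5)) (.v 2))),
      (.add (.c (3)) (.mul (.c (-5)) (.v 3))),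
      (.add (.c (3)) (.mul (.c (-5)) (.v 5))),
      (.add (.c (1)) (.mul (.c (-1)) (.v 7))),
      (.add (.v 7) (.mul (.c (-1)) (.v 11))),
      (.add (.v 7) (.mul (.c (-1)) (.v 13)))])
    (p := .mul (.c 5000000) (.add (.add (.add (.add (.add (.c (3080)) (.add (.mul (.c (2578)) (.v 2)) (.mul (.c (2578)) (.v 3)))) (.add (.mul (.c (-645)) (.mul (.v 2) (.v 2))) (.add (.mul (.c (2578)) (.v 5)) (.mul (.c (3631)) (.mul (.v 2) (.v 3)))))) (.add (.add (.mul (.c (-1979)) (.v 7)) (.add (.mul (.c (-645)) (.mul (.v 3) (.v 3))) (.mul (.c (3631)) (.mul (.v 2) (.v 5))))) (.add (.mul (.c (-1979)) (.v 11)) (.add (.mul (.c (-1979)) (.v 13)) (.mul (.c (3631)) (.mul (.v 3) (.v 5))))))) (.add (.add (.add (.mul (.c (-2217)) (.mul (.v 3) (.v 7))) (.add (.mul (.c (-2217)) (.mul (.v 2) (.v 11))) (.mul (.c (-645)) (.mul (.v 5) (.v 5))))) (.add (.mul (.c (-2217)) (.mul (.v 2) (.v 13))) (.add (.mul (.c (-2217)) (.mul (.v 5) (.v 7))) (.mul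 (.c (-2217)) (.mul (.v 3) (.v 13)))))) (.add (.add (.mul (.c (399)) (.mul (.mul (.v 2) (.v 2)) (.v 11))) (.add (.mul (.c (-803)) (.mul (.v 7) (.v 7))) (.mul (.c (399)) (.mul (.mul (.v 2) (.v 2)) (.v 13))))) (.add (.mul (.c (-2217)) (.mul (.v 5) (.v 11))) (.add (.mul (.c (399)) (.mul (.mul (.v 3) (.v 3)) (.v 7))) (.mul (.c (-3609)) (.mul (.mul (.v 2) (.v 3)) (.v 13)))))))) (.add (.add (.add (.add (.mul (.c (-3609)) (.mul (.mul (.v 3) (.v 5)) (.v 7))) (.add (.mul (.c (-3609)) (.mul (.mul (.v 2) (.v 5)) (.v 11))) (.mul (.c (399)) (.mul (.mul (.v 3) (.v 3)) (.v 13))))) (.add (.mul (.c (-803)) (.mul (.v 11) (.v 11))) (.add (.mul (.c (-189)) (.mul (.mul (.v 3) (.v 7)) (.v 7))) (.mul (.c (2186)) (.mul (.mul (.v 2) (.v 7)) (.v 11)))))) (.add (.add (.mul (.c (-803)) (.mul (.v 13) (.v 13))) (.add (.mul (.c (399)) (.mul (.mul (.v 5) (.v 5)) (.v 7))) (.mul (.c (-189)) (.mul (.mul (.v 2) (.v 11)) (.v 11))))) (.add (.mul (.c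 (-189)) (.mul (.mul (.v 5) (.v 7)) (.v 7))) (.add (.mul (.c (2186)) (.mul (.mul (.v 3) (.v 7)) (.v 13))) (.mul (.c (399)) (.mul (.mul (.v 5) (.v 5)) (.v 11))))))) (.add (.add (.add (.mul (.c (2186)) (.mul (.mul (.v 2) (.v 11)) (.v 13))) (.add (.mul (.c (-189)) (.mul (.mul (.v 2) (.v 13)) (.v 13))) (.mul (.c (2186)) (.mul (.mul (.v 5) (.v 7)) (.v 11))))) (.add (.mul (.c (2186)) (.mul (.mul (.v 3) (.v 11)) (.v 13))) (.add (.mul (.c (2186)) (.mul (.mul (.v 5) (.v 7)) (.v 13))) (.mul (.c (-189)) (.mul (.mul (.v 3) (.v 13)) (.v 13)))))) (.add (.add (.mul (.c (1308)) (.mul (.mul (.v 7) (.v 7)) (.v 11))) (.add (.mul (.c (-189)) (.mul (.mul (.v 5) (.v 11)) (.v 11))) (.mul (.c (1216)) (.mul (.mul (.v 7) (.v 7)) (.v 13))))) (.add (.add (.mul (.c (1216)) (.mul (.mul (.v 7) (.v 11)) (.v 11))) (.mul (.c (1308)) (.mul (.mul (.v 7) (.v 13)) (.v 13)))) (.add (.mul (.c (1308)) (.mul (.mul (.v 11) (.v 11)) (.v 13))) (.mul (.c (1216))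 (.mul (.mul (.v 11) (.v 13)) (.v 13))))))))))
    (e := (.add (.add (.add (.add (.mul (.g 0) (.add (.add (.mul (.g 1) (.add (.add (.pp [(1, 107100000)]) (.add (.mul (.g 6) (.pp [(1, 100000)])) (.mul (.g 7) (.pp [(1, 100000)])))) (.add (.add (.mul (.g 8) (.pp [(1, 100000)])) (.mul (.g 9) (.pp [(1, 18046500000)]))) (.add (.mul (.g 10) (.pp [(1, 500000)])) (.mul (.g 11) (.pp [(1, 18045500000)])))))) (.add (.mul (.g 2) (.add (.add (.pp [(1, 2894100000)]) (.add (.mul (.g 6) (.pp [(1, 100000)])) (.mul (.g 8) (.pp [(1, 100000)])))) (.add (.mul (.g 9) (.pp [(1, 15259800000)])) (.add (.mul (.g 10) (.pp [(1, 15258800000)])) (.mul (.g 11) (.pp [(1, 500000)])))))) (.mul (.g 4) (.add (.add (.mul (.g 0) (.pp [(1, 762700000)])) (.mul (.g 3) (.pp [(1, 8800350000)]))) (.add (.mul (.g 5) (.pp [(1, 94700000)])) (.add (.mul (.g 8) (.pp [(1, 557340000)])) (.mul (.g 10) (.pp [(1, 945500000)])))))))) (.add (.add (.mul (.g 6) (.add (.add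 (.mul (.g 0) (.pp [(1, 100000)])) (.mul (.g 9) (.pp [(1, 645160000)]))) (.add (.mul (.g 10) (.pp [(1, 246360000)])) (.mul (.g 11) (.pp [(1, 398900000)]))))) (.mul (.g 9) (.add (.mul (.g 9) (.pp [(1, 10954000000)])) (.add (.mul (.g 10) (.pp [(1, 12018450000)])) (.mul (.g 11) (.pp [(1, 9888800000)])))))) (.add (.mul (.g 11) (.add (.mul (.g 5) (.pp [(1, 945500000)])) (.mul (.g 10) (.pp [(1, 10834800000)])))) (.mul (.g 3) (.mul (.g 3) (.pp [(1, 117900000)]))))))) (.mul (.g 9) (.add (.add (.mul (.pp [(1, 94215)]) (.sq [(1, -26), (3, -23), (7, -26), (11, 100), (13, -11)])) (.add (.mul (.pp [(1, 18210)]) (.sq [(1, -33), (3, 23), (7, -33), (11, 100), (13, -33)])) (.mul (.g 9) (.add (.add (.pp [(1, 1970450000)]) (.add (.mul (.g 1) (.pp [(1, 12811500000)])) (.mul (.g 2) (.pp [(1, 9825350000)])))) (.add (.mul (.g 9) (.pp [(1, 12090600000)])) (.add (.mul (.g 10) (.pp [(1, 14689300000)])) (.mul (.g 11) (.pp [(1, 12559200000)]))))))))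 (.add (.mul (.g 11) (.add (.add (.pp [(1, 291050000)]) (.mul (.g 1) (.pp [(1, 12716950000)]))) (.add (.mul (.g 5) (.pp [(1, 2354050000)])) (.add (.mul (.g 8) (.pp [(1, 58780000)])) (.mul (.g 10) (.pp [(1, 16581150000)])))))) (.add (.mul (.g 2) (.add (.add (.mul (.g 1) (.pp [(1, 19257200000)])) (.mul (.g 4) (.pp [(1, 1752850000)]))) (.add (.mul (.g 8) (.pp [(1, 708160000)])) (.mul (.g 10) (.pp [(1, 10674250000)]))))) (.mul (.g 1) (.mul (.g 7) (.pp [(1, 595800000)])))))))) (.add (.mul (.g 5) (.add (.add (.mul (.pp [(1, 135675)]) (.sq [(1, -100), (3, -72), (5, 2), (7, 82), (11, 66), (13, 29)])) (.add (.mul (.pp [(1, 102300)]) (.sq [(1, -50), (7, 29), (11, 29), (13, 29)])) (.mul (.pp [(1, 137790)]) (.sq [(1, -100), (3, 28), (7, 94), (11, 86), (13, 5)])))) (.add (.mul (.pp [(1, 131920)]) (.sq [(1, -88), (3, 15), (7, 37), (11, 100), (13, 52)])) (.add (.mul (.g 2) (.add (.add (.mul (.g 2) (.pp [(1, 176400000)])) (.mul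 (.g 5) (.pp [(1, 10065700000)]))) (.add (.mul (.g 7) (.pp [(1, 56920000)])) (.add (.mul (.g 10) (.pp [(1, 161800000)])) (.mul (.g 11) (.pp [(1, 10456650000)])))))) (.mul (.g 1) (.add (.mul (.g 4) (.pp [(1, 11045250000)])) (.mul (.g 11) (.pp [(1, 54600000)])))))))) (.add (.mul (.g 4) (.add (.add (.add (.mul (.pp [(1, 676840)]) (.sq [(1, -50), (7, 29), (11, 29), (13, 29)])) (.mul (.pp [(1, 1534460)]) (.sq [(1, -39), (7, 10), (11, 29), (13, 50)]))) (.add (.mul (.pp [(1, 69760)]) (.sq [(1, -97), (5, 1), (7, 100), (11, -3), (13, 73)])) (.mul (.pp [(1, 9185)]) (.sq [(1, -1), (3, -23), (5, 100), (11, 2), (13, 3)])))) (.add (.add (.mul (.pp [(1, 180265)]) (.sq [(1, -100), (3, 26), (5, 31), (7, 65), (11, 32), (13, 57)])) (.mul (.pp [(1, 975)]) (.sq [(1, 29), (3, -8), (5, 77), (7, 24), (11, -66), (13, -100)]))) (.add (.mul (.g 1) (.add (.mul (.g 7) (.pp [(1, 38730000)])) (.mul (.g 10) (.pp [(1, 453400000)])))) (.mul (.g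 2) (.mul (.g 10) (.pp [(1, 150700000)]))))))) (.mul (.g 1) (.add (.mul (.pp [(1, 52420)]) (.sq [(1, 37), (3, 12), (5, 100), (7, -42), (11, -15), (13, -1)])) (.add (.mul (.g 7) (.add (.add (.mul (.g 7) (.pp [(1, 468000)])) (.mul (.g 8) (.pp [(1, 3092000)]))) (.add (.mul (.g 10) (.pp [(1, 46050000)])) (.mul (.g 11) (.pp [(1, 238100000)]))))) (.mul (.g 2) (.mul (.g 10) (.pp [(1, 714850000)]))))))))) (.add (.add (.mul (.g 10) (.add (.add (.mul (.pp [(1, 109915)]) (.sq [(1, -26), (3, -39), (5, 43), (7, -26), (11, 100), (13, 72)])) (.mul (.pp [(1, 79410)]) (.sq [(1, -31), (3, 19), (5, 1), (7, -11), (11, 100), (13, 40)]))) (.add (.mul (.pp [(1, 15645)]) (.sq [(1, -44), (3, 21), (5, 59), (7, -26), (11, 100), (13, 83)])) (.mul (.g 2) (.mul (.g 8) (.pp [(1, 396270000)])))))) (.mul (.g 11) (.add (.mul (.pp [(1, 5235)]) (.sq [(1, 21), (3, 3), (5, 100), (7, 21), (11, -62), (13, -79)])) (.add (.mul (.pp [(1, 19500)]) (.sq [(1,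 -96), (3, 58), (5, -80), (7, 36), (11, 87), (13, 100)])) (.mul (.pp [(1, 33315)]) (.sq [(1, -23), (3, 4), (5, 3), (7, -23), (11, 42), (13, 100)])))))) (.add (.mul (.g 7) (.add (.mul (.pp [(1, 72936)]) (.sq [(1, -50), (7, 29), (11, 29), (13, 29)])) (.mul (.pp [(1, 23378)]) (.sq [(1, -100), (3, -13), (5, -67), (7, 92), (11, 19), (13, 10)])))) (.add (.mul (.g 3) (.mul (.pp [(1, 1624900)]) (.sq [(1, -50), (7, 29), (11, 29), (13, 29)]))) (.mul (.g 8) (.mul (.pp [(1, 10)]) (.sq [(1, -16), (3, -4), (5, 100), (7, 15), (13, 2)]))))))) (.pp [(1, 7062290), (2, 520000), (3, 506420), (4, 500000), (5, 483200), (6, 500000), (7, 514630), (8, 500000), (9, 459089), (10, 500000), (11, 496010), (12, 500000), (13, 506550), (14, 450000), (15, 454972), (18, 500000), (20, 500000), (21, 509158), (22, 510000), (25, 508474), (26, 500000), (27, 505930), (28, 500000), (30, 500000), (33, 519966), (35, 530622), (39, 532840), (42, 500000), (44,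 500000), (45, 515180), (49, 442576), (50, 500000), (52, 500000), (55, 508054), (63, 535980), (65, 483890), (66, 500000), (70, 500000), (75, 479210), (77, 542060), (78, 500000), (91, 520534), (98, 550000), (99, 494305), (105, 540540), (110, 500000), (117, 496275), (121, 487338), (125, 500000), (130, 500000), (143, 431094), (147, 480770), (154, 500000), (165, 504060), (169, 476357), (175, 477675), (182, 500000), (195, 505560), (231, 505180), (242, 500000), (245, 457540), (273, 470740), (275, 487290), (286, 500000), (325, 527135), (338, 500000), (343, 537690), (363, 483130), (385, 557250), (429, 487440), (455, 571520), (507, 505470), (539, 464225), (605, 470700), (637, 496020), (715, 459320), (845, 487900), (847, 519320), (1001, 547190), (1183, 476015), (1331, 493660), (1573, 509120), (1859, 524795), (2197, 528230)])))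
    (by decide +kernel) (yv_nonneg hx hy ht hp hq hr (le_refl 0) (le_refl 0) (le_refl 0))
    (by
      simp only [List.forall_mem_cons, exadd, exmul, exc, exv2, exv3, exv5, exv7, exv11, exv13]
      push_cast
      refine ⟨?_, ?_, ?_, ?_, ?_, ?_, ?_, ?_, ?_, ?_, ?_, ?_, fun _ hh => absurd hh List.not_mem_nil⟩
      · linarith [hx]
      · linarith [hy]
      · linarith [ht]
      · linarith [hp]
      · linarith [hq]
      · linarith [hr]
      · linarith [kx]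
      · linarith [ky]
      · linarith [kt]
      · linarith [kp]
      · linarith [pq]
      · linarith [pr]
    )
  simp only [exadd, exmul, exc, exv2, exv3, exv5, exv7, exv11, exv13] at h
  push_cast at h
  linarith [h]

theorem ol0_bb_comm (w c x y : ℝ) : bb w c x y = bb w c y x := by
  unfold bb
  ring

/-- the cell of the row `x` is the largest one -/
private theorem cyc_max {x y t p q r : ℝ} (x0 : 0 ≤ x) (x1 : x ≤ 3 / 5) (y0 : 0 ≤ y)
    (y1 : y ≤ 3 / 5) (t0 : 0 ≤ t) (t1 : t ≤ 3 / 5) (p1 : p ≤ 1) (q0 : 0 ≤ q) (q1 : q ≤ p)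
    (r0 : 0 ≤ r) (r1 : r ≤ p) :
    bb p r t y + bb r q x y + bb q p x t ≤ gg x y t + 3 / 100 := by
  have := cyc_aux (x := x) (y := y) (t := t) (p := p) (q := q) (r := r) x0 y0 t0
    (q0.trans q1) q0 r0 (by linarith) (by linarith) (by linarith) (by linarith) (by linarith)
    (by linarith)
  unfold bb gg
  linarith

/-- **the sum around the cycle.** The cell `p` of the row `x` supports the cell `r` of the row `t`,
this one supports the cell `q` of the row `y`. -/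
theorem ol0_cyc_num {x y t p q r : ℝ} (x0 : 0 ≤ x) (x1 : x ≤ 3 / 5) (y0 : 0 ≤ y)
    (y1 : y ≤ 3 / 5) (t0 : 0 ≤ t) (t1 : t ≤ 3 / 5) (p0 : 0 ≤ p) (p1 : p ≤ 1) (q0 : 0 ≤ q)
    (q1 : q ≤ 1) (r0 : 0 ≤ r) (r1 : r ≤ 1) :
    bb p r t y + bb r q x y + bb q p x t ≤ gg x y t + 3 / 100 := by
  rcases le_total q p with h1 | h1
  · rcases le_total r p with h2 | h2
    · exact cyc_max x0 x1 y0 y1 t0 t1 p1 q0 h1 r0 h2
    · have := cyc_max t0 t1 x0 x1 y0 y1 r1 p0 h2 q0 (h1.trans h2)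
      rw [ol0_bb_comm p r t y, ol0_bb_comm r q x y, ol0_bb_comm q p x t]
      unfold bb gg at this ⊢
      linarith
  · rcases le_total r q with h2 | h2
    · have := cyc_max y0 y1 t0 t1 x0 x1 q1 r0 h2 p0 h1
      unfold bb gg at this ⊢
      linarith
    · have := cyc_max t0 t1 x0 x1 y0 y1 r1 p0 (h1.trans h2) q0 h2
      unfold bb gg at this ⊢
      linarith

/-- the sum around the cycle: `p`, `q`, `r` are the cells of the rows `X`, `Y`, `Z` -/
theorem ol0_hcyc {X Y Z p q r : ℝ} (X0 : 0 ≤ X) (X1 : X ≤ 3 / 5) (Y0 : 0 ≤ Y) (Y1 : Y ≤ 3 / 5)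
    (Z0 : 0 ≤ Z) (Z1 : Z ≤ 3 / 5) (p0 : 0 ≤ p) (p1 : p ≤ 1) (q0 : 0 ≤ q) (q1 : q ≤ 1)
    (r0 : 0 ≤ r) (r1 : r ≤ 1) :
    bb p q Y Z + bb q r X Z + bb r p X Y ≤ gg X Y Z + 3 / 100 := by
  have := ol0_cyc_num X0 X1 Z0 Z1 Y0 Y1 p0 p1 r0 r1 q0 q1
  unfold bb gg at this ⊢
  linarith

/-- **`OL0'`: the inequality of the cycle.** `d i` is the height of the row `i`. -/
theorem ol0_cyc {d : Fin 4 → ℝ} {a : Fin 4} {B : Fin 4 → Fin 4 → ℝ → ℝ → ℝ} {K : ℝ}
    (d0 : ∀ i, i ≠ a → 0 ≤ d i) (d1 : ∀ i, i ≠ a → d i ≤ 3 / 5)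
    (hB : ∀ z y x, [a, z, y, x].Nodup → ∀ w c, B z y w c = bb w c (d y) (d x))
    (hK : ∀ z y x, [a, z, y, x].Nodup → K = gg (d z) (d y) (d x) + 3 / 100) :
    ∀ z y x, [a, z, y, x].Nodup → ∀ p q r : ℝ, 0 ≤ p → p ≤ 1 → 0 ≤ q → q ≤ 1 → 0 ≤ r → r ≤ 1 →
      B z y p q + B y x q r + B x z r p ≤ K := by
  intro z y x hn p q r p0 p1 q0 q1 r0 r1
  have e : z ≠ a ∧ y ≠ a ∧ x ≠ a ∧ [a, y, x, z].Nodup ∧ [a, x, z, y].Nodup := by
    clear * - hn
    revert hn
    revert a z y x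
    decide
  obtain ⟨hz, hy, hx, n2, n3⟩ := e
  rw [hB z y x hn, hB y x z n2, hB x z y n3, hK z y x hn]
  have := ol0_cyc_num (d0 z hz) (d1 z hz) (d0 x hx) (d1 x hx) (d0 y hy) (d1 y hy) p0 p1 r0 r1 q0 q1
  unfold bb gg at this ⊢
  linarith

/-- a symmetric function of the two rows of a column -/
theorem exists_sym {α : Type*} (f : ℝ → ℝ → α) (hf : ∀ x y, f x y = f y x) (d : Fin 4 → ℝ)
    (a : Fin 4) : ∃ φ : Fin 4 → α, ∀ z y x, [a, z, y, x].Nodup → φ z = f (d y) (d x) := by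
  have h : ∀ z, ∃ v : α, ∀ y x, [a, z, y, x].Nodup → v = f (d y) (d x) := by
    intro z
    by_cases hz : z = a
    · subst hz
      refine ⟨f 0 0, fun y x hn => absurd hn ?_⟩
      simp
    · have e : ∃ y x, [a, z, y, x].Nodup := by
        clear * - hz
        revert hz
        revert a z
        decide
      obtain ⟨y, x, hn⟩ := e
      refine ⟨f (d y) (d x), fun y' x' hn' => ?_⟩
      have un : (y' = y ∧ x' = x) ∨ (y' = x ∧ x' = y) := by
        clear * - hn hn'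
        revert hn hn'
        revert a z x y y' x'
        decide
      rcases un with ⟨rfl, rfl⟩ | ⟨rfl, rfl⟩
      · rfl
      · exact hf _ _
  choose φ hφ using h
  exact ⟨φ, hφ⟩

end Pool.Agent.Helper8.TS
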