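import Pool.Agent.Helper36.TS.Frame
import Pool.Agent.Helper19.TS.OL0D

/-!
# `OL0'`: the total
-/

set_option autoImplicit false

namespace Pool.Agent.Helper8.TS

open Pool.Agent.Helper36.TS Pool.Agent.Helper19.TS.OL0

theorem ol0_W1_le {x y : ℝ} (x0 : 0 ≤ x) (y0 : 0 ≤ y) : W1 x y ≤ W0 x y := by
  unfold W1 W0
  nlinarith [sq_nonneg (x + y - 7 / 12), mul_nonneg x0 y0]

/-- **`OL0'`: the total** -/
theorem ol0_total {x y t : ℝ} (x0 : 0 ≤ x) (x1 : x ≤ 3 / 5) (y0 : 0 ≤ y) (y1 : y ≤ 3 / 5)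
    (t0 : 0 ≤ t) (t1 : t ≤ 3 / 5) :
    rowc (nu x) x + rowc (nu y) y + rowc (nu t) t + kk x y * (x + y) + kk x t * (x + t)
      + kk y t * (y + t) + W3 x y t + W0 y t + W0 x t + W0 x y + gg x y t + 3 / 100
      ≤ 613 / 200 := by
  have a1 : 0 ≤ x * (1 / 10000 - 1 / 30000 * x ^ 2) := mul_nonneg x0 (by nlinarith)
  have a2 : 0 ≤ y * (1 / 10000 - 1 / 30000 * y ^ 2) := mul_nonneg y0 (by nlinarith)
  have a3 : 0 ≤ t * (1 / 10000 - 1 / 30000 * t ^ 2) := mul_nonneg t0 (by nlinarith)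
  have b1 : 0 ≤ x * y * (3614 / 10000 - 3011 / 10000 * (x + y)) :=
    mul_nonneg (mul_nonneg x0 y0) (by linarith)
  have b2 : 0 ≤ x * t * (3614 / 10000 - 3011 / 10000 * (x + t)) :=
    mul_nonneg (mul_nonneg x0 t0) (by linarith)
  have b3 : 0 ≤ y * t * (3614 / 10000 - 3011 / 10000 * (y + t)) :=
    mul_nonneg (mul_nonneg y0 t0) (by linarith)
  have c1 : x * y ≤ 3 / 5 * (3 / 5) := mul_le_mul x1 y1 y0 (by norm_num)
  have c2 : x * t ≤ 3 / 5 * (3 / 5) := mul_le_mul x1 t1 t0 (by norm_num)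
  have c3 : y * t ≤ 3 / 5 * (3 / 5) := mul_le_mul y1 t1 t0 (by norm_num)
  unfold rowc nu kk W3 W0 gg
  linarith

end Pool.Agent.Helper8.TS
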