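import Mathlib

/-!
# The numbers of the piece `OL1Br` (LP: helper11)

`x`, `y`, `z` are the heights of the rows `p`, `r`, `s` (in `[0, 3/5]`, with sum at most `9/10`).
`np`, `nr`, `ns`: multipliers of the rows; `kpr`, `kps`, `krs`: multipliers of the pairs; `mpr`, `mrs`:
the shares of the pairs in the columns with two rows (the share of `p`, `s` is `0`); `Wp`, `Wr`, `Ws`:
the bounds of the columns with two rows (`Wp0`, `Ws0` without the cell of the low class); `Wa`: the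
bound of the column of the low class; `sg`: the multiplier of `1 - d` in the column `r`; `gg`: the
bound of the gains; `fp`, `fr`, `fs`: the bounds of the gain of a cell; `Bzy w c`: the bound of the
gain of the cell of the column `z` that supports `c` in the column `y`.
-/

set_option autoImplicit false

namespace Pool.Agent.Helper8.TS.OL1Br

noncomputable def np (x : ℝ) : ℝ := 1391 / 2500 - 91 / 1000 * x - 207 / 1000 * x ^ 2

noncomputable def nr (y : ℝ) : ℝ := 4379 / 5000 - 1869 / 5000 * y - 853 / 5000 * y ^ 2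

noncomputable def ns (z : ℝ) : ℝ := 869 / 1000 - 843 / 2000 * z - 71 / 500 * z ^ 2

noncomputable def kpr (x y : ℝ) : ℝ :=
  1107 / 2500 - 541 / 1250 * x - 2059 / 5000 * y + 3739 / 10000 * (x * y)

noncomputable def kps (x z : ℝ) : ℝ :=
  109 / 250 - 541 / 1250 * x - 4809 / 10000 * z + 1801 / 5000 * (x * z)

noncomputable def krs (y z : ℝ) : ℝ :=
  4887 / 10000 - 5761 / 10000 * y - 357 / 625 * z + 7887 / 10000 * (y * z)

noncomputable def mpr (x y : ℝ) : ℝ :=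
  1741 / 10000 - 1747 / 10000 * x - 399 / 2500 * y + 131 / 1250 * (x * y)

noncomputable def mrs (y z : ℝ) : ℝ :=
  113 / 625 - 543 / 2500 * y - 43 / 200 * z + 221 / 625 * (y * z)

noncomputable def Wp (y z : ℝ) : ℝ :=
  4687 / 10000 + 2623 / 5000 * y + 2723 / 5000 * z - 1119 / 5000 * y ^ 2 - 533 / 2500 * z ^ 2
    + 679 / 2500 * (y * z)

noncomputable def Wr (x z : ℝ) : ℝ :=
  -(1939 / 10000) + 4161 / 10000 * x + 679 / 2500 * z + 767 / 5000 * x ^ 2 + 157 / 5000 * z ^ 2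
    + 2347 / 10000 * (x * z)

noncomputable def Ws (x y : ℝ) : ℝ :=
  343 / 1250 + 2133 / 5000 * x + 4237 / 10000 * y - 321 / 5000 * x ^ 2 - 789 / 5000 * y ^ 2
    + 2941 / 10000 * (x * y)

noncomputable def Wp0 (y z : ℝ) : ℝ := Wp y z - 31 / 5000

noncomputable def Ws0 (x y : ℝ) : ℝ := Ws x y - 3 / 625

noncomputable def Wa (x y z : ℝ) : ℝ :=
  5079 / 10000 + 303 / 1250 * x + 611 / 5000 * y + 241 / 1250 * z - 433 / 10000 * x ^ 2
    + 807 / 2500 * y ^ 2 + 497 / 2500 * z ^ 2 + 2021 / 10000 * (x * y) + 561 / 2500 * (x * z)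
    + 1403 / 10000 * (y * z)

noncomputable def sg (x : ℝ) : ℝ := 1657 / 5000 - 3139 / 10000 * x

noncomputable def gg (x y z : ℝ) : ℝ := 2011 / 2500 + 9 / 2500 * z

noncomputable def fp (w : ℝ) : ℝ :=
  7 / 1250 + 62 / 625 * w + 789 / 5000 * w ^ 2 + 33 / 2500 * w ^ 3

noncomputable def fr (w : ℝ) : ℝ :=
  1831 / 5000 + 571 / 2500 * w + 583 / 10000 * w ^ 2 + 223 / 2500 * w ^ 3

noncomputable def fs (w : ℝ) : ℝ :=
  127 / 10000 + 2097 / 10000 * w + 621 / 2000 * w ^ 2 - 1119 / 10000 * w ^ 3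

noncomputable def Bpr (w c : ℝ) : ℝ :=
  33 / 5000 + 289 / 1250 * w + 509 / 10000 * w ^ 2 + 41 / 1250 * w ^ 3 + 1607 / 10000 * c
    - 409 / 2500 * c ^ 2 - 96 / 625 * (w * c) - 633 / 5000 * (w ^ 2 * c)
    + 17 / 10000 * (w * c ^ 2)

noncomputable def Bps (w c : ℝ) : ℝ :=
  3 / 5000 + 141 / 1000 * w + 307 / 2500 * w ^ 2 + 799 / 10000 * c - 799 / 10000 * c ^ 2
    + 47 / 10000 * (w * c) - 307 / 2500 * (w ^ 2 * c) - 1447 / 10000 * (w * c ^ 2)

noncomputable def Brp (w c : ℝ) : ℝ :=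
  3689 / 10000 + 1083 / 5000 * w - 537 / 10000 * w ^ 2 + 6 / 25 * w ^ 3 - 61 / 1250 * c
    + 17 / 500 * c ^ 2 + 137 / 400 * (w * c) - 3809 / 10000 * (w ^ 2 * c)
    - 24 / 125 * (w * c ^ 2)

noncomputable def Brs (w c : ℝ) : ℝ :=
  4017 / 10000 + 293 / 1000 * w - 1099 / 10000 * w ^ 2 + 141 / 1000 * w ^ 3 + 11 / 125 * c
    - 2647 / 10000 * c ^ 2 - 2329 / 10000 * (w * c) - 883 / 10000 * (w ^ 2 * c)
    + 413 / 5000 * (w * c ^ 2)

noncomputable def Bsp (w c : ℝ) : ℝ :=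
  209 / 5000 + 1507 / 5000 * w - 281 / 10000 * w ^ 2 + 1579 / 10000 * w ^ 3 - 9 / 500 * c
    + 17 / 10000 * c ^ 2 - 37 / 1250 * (w * c) - 11 / 250 * (w ^ 2 * c)
    - 1797 / 10000 * (w * c ^ 2)

noncomputable def Bsr (w c : ℝ) : ℝ :=
  397 / 2500 + 91 / 10000 * w + 257 / 1000 * w ^ 2 - 2759 / 10000 * c + 1191 / 10000 * c ^ 2
    + 379 / 1000 * (w * c) - 257 / 1000 * (w ^ 2 * c) - 3871 / 10000 * (w * c ^ 2)

end Pool.Agent.Helper8.TS.OL1Br
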