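import Pool.Agent.Helper5.TS.Gain
import Pool.Agent.Helper44.TS.MainBig

/-!
# A high main cell together with the gains of the far cells of its class

The class `a` has a main cell `M` with `d = M a - 1 ≥ δ` (`δ ≥ 1/2`; used with `δ = 3/5`). The gain of
a far cell in the column `z` is `φ z p`, where `p` is at most the support `M z + d` of `M`. The sum of
the supports is `2 d - 1`, so a family of star shaped functions `φ z` is replaced by one value
`φ z P`.
-/

set_option autoImplicit false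

namespace Pool.Agent.Helper8.TS

open Pool.Agent.Helper84.TS Pool.Agent.Helper36.TS Pool.Agent.Helper44.TS Pool.Agent.Helper5.TS

/-- the part of the volume that depends on `d` only -/
noncomputable def cd (d : ℝ) : ℝ := 7 / 6 - 3 / 2 * d + d ^ 2 / 2 - d ^ 3 / 6

/-- the volume of a main cell with the support `t` in one column -/
noncomputable def F1 (d t : ℝ) : ℝ := cd d - (1 - d) * ((d - t) ^ 2 + (1 + t) ^ 2 / 2) / 2

/-- the volume of a main cell with supports of sum `t` in two columns -/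
noncomputable def F2 (d t : ℝ) : ℝ := cd d - (1 - d) * ((1 - d + t) ^ 2 + (2 * d - t) ^ 2 / 2) / 2

/-- the volume of a main cell with the support `t ≥ d` -/
noncomputable def FP (d t : ℝ) : ℝ := HH t - d * ((1 - t) * (5 - t)) / 4

/-- a monotone and star shaped function on `[0, 1]` -/
structure Star (φ : ℝ → ℝ) : Prop where
  zero : φ 0 = 0
  mono : ∀ s t : ℝ, 0 ≤ s → s ≤ t → t ≤ 1 → φ s ≤ φ t
  star : ∀ l t : ℝ, 0 ≤ l → l ≤ 1 → 0 ≤ t → t ≤ 1 → φ (l * t) ≤ l * φ t

theorem Star.nn {φ : ℝ → ℝ} (h : Star φ) {t : ℝ} (h0 : 0 ≤ t) (h1 : t ≤ 1) : 0 ≤ φ t := by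
  have := h.mono 0 t le_rfl h0 h1
  rwa [h.zero] at this

/-- `s / t` instead of `l` -/
theorem Star.div {φ : ℝ → ℝ} (h : Star φ) {s t : ℝ} (h0 : 0 ≤ s) (h1 : s ≤ t) (ht : 0 < t)
    (ht1 : t ≤ 1) : φ s ≤ s / t * φ t := by
  have := h.star (s / t) t (div_nonneg h0 ht.le) ((div_le_one ht).2 h1) ht.le ht1
  rwa [div_mul_cancel₀ s ht.ne'] at this

/-- a convex function on `[0, 1]` with `φ 0 = 0` -/
theorem star_of_convex {φ : ℝ → ℝ} (h : ConvexOn ℝ (Set.Icc 0 1) φ) (h0 : φ 0 = 0)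
    (hm : ∀ s t : ℝ, 0 ≤ s → s ≤ t → t ≤ 1 → φ s ≤ φ t) : Star φ where
  zero := h0
  mono := hm
  star := by
    intro l t l0 l1 t0 t1
    have := h.2 (x := 0) (y := t) ⟨le_rfl, zero_le_one⟩ ⟨t0, t1⟩ (sub_nonneg.2 l1) l0 (by ring)
    simp only [smul_eq_mul, mul_zero, zero_add, h0] at this
    linarith

/-- two summands -/
theorem two_sum {φ ψ : ℝ → ℝ} (h : Star φ) (h' : Star ψ) {s t P F K : ℝ} (hs : 0 ≤ s) (ht : 0 ≤ t)
    (hst : s + t = P) (hP : 0 < P) (hP1 : P ≤ 1) (e1 : F + φ P ≤ K) (e2 : F + ψ P ≤ K) :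
    F + φ s + ψ t ≤ K := by
  have a1 := h.div hs (by linarith) hP hP1
  have a2 := h'.div ht (by linarith) hP hP1
  have b1 := mul_le_mul_of_nonneg_left e1 (div_nonneg hs hP.le)
  have b2 := mul_le_mul_of_nonneg_left e2 (div_nonneg ht hP.le)
  have c : s / P + t / P = 1 := by
    rw [← add_div, hst, div_self hP.ne']
  have e : F = s / P * F + t / P * F := by rw [← add_mul, c, one_mul]
  have e' : K = s / P * K + t / P * K := by rw [← add_mul, c, one_mul]
  calc F + φ s + ψ t ≤ F + s / P * φ P + t / P * ψ P := by linarith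
    _ = s / P * (F + φ P) + t / P * (F + ψ P) := by
      conv_lhs => rw [e]
      ring
    _ ≤ s / P * K + t / P * K := by linarith
    _ = K := e'.symm

/-- three summands -/
theorem three_sum {φ ψ χ : ℝ → ℝ} (h : Star φ) (h' : Star ψ) (h'' : Star χ) {s t u P F K : ℝ}
    (hs : 0 ≤ s) (ht : 0 ≤ t) (hu : 0 ≤ u) (hst : s + t + u = P) (hP : 0 < P) (hP1 : P ≤ 1)
    (e1 : F + φ P ≤ K) (e2 : F + ψ P ≤ K) (e3 : F + χ P ≤ K) :
    F + φ s + ψ t + χ u ≤ K := by
  have a1 := h.div hs (by linarith) hP hP1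
  have a2 := h'.div ht (by linarith) hP hP1
  have a3 := h''.div hu (by linarith) hP hP1
  have b1 := mul_le_mul_of_nonneg_left e1 (div_nonneg hs hP.le)
  have b2 := mul_le_mul_of_nonneg_left e2 (div_nonneg ht hP.le)
  have b3 := mul_le_mul_of_nonneg_left e3 (div_nonneg hu hP.le)
  have c : s / P + t / P + u / P = 1 := by
    rw [← add_div, ← add_div, hst, div_self hP.ne']
  have e : F = s / P * F + t / P * F + u / P * F := by rw [← add_mul, ← add_mul, c, one_mul]
  have e' : K = s / P * K + t / P * K + u / P * K := by rw [← add_mul, ← add_mul, c, one_mul]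
  calc F + φ s + ψ t + χ u ≤ F + s / P * φ P + t / P * ψ P + u / P * χ P := by linarith
    _ = s / P * (F + φ P) + t / P * (F + ψ P) + u / P * (F + χ P) := by
      conv_lhs => rw [e]
      ring
    _ ≤ s / P * K + t / P * K + u / P * K := by linarith
    _ = K := e'.symm

/-- the inequalities for the high main cell: each of them has one function value only -/
structure Hi (φ : Fin 4 → ℝ → ℝ) (a : Fin 4) (δ K : ℝ) : Prop where
  half : 1 / 2 ≤ δ
  star : ∀ m, m ≠ a → Star (φ m)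
  /-- one far cell, support at most `d` -/
  one : ∀ m, m ≠ a → ∀ d t : ℝ, δ ≤ d → d ≤ 1 → 0 ≤ t → t ≤ d → F1 d t + φ m t ≤ K
  /-- one far cell, support at least `d` -/
  pos : ∀ m, m ≠ a → ∀ d t : ℝ, δ ≤ d → d ≤ t → t ≤ 1 → FP d t + φ m t ≤ K
  /-- two far cells -/
  two : ∀ m, m ≠ a → ∀ d t : ℝ, δ ≤ d → d ≤ 1 → 0 ≤ t → t ≤ d → F2 d t + φ m t ≤ K
  /-- three far cells (with `t = 2 d - 1`) or none -/
  three : ∀ m, m ≠ a → ∀ d : ℝ, δ ≤ d → d ≤ 1 →
    (1 - d) * (1 - 2 / 3 * d) + φ m (2 * d - 1) ≤ K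

section

variable {φ : Fin 4 → ℝ → ℝ} {a : Fin 4} {δ K : ℝ}

/-- the volume of a main cell with entries at most `0` -/
theorem main_np {i j k l : Fin 4} {v : Fin 4 → ℝ} (h : [i, j, k, l].Nodup)
    (hm : ∀ m, m ≠ i → -v m ≤ 1) (hj : v j ≤ 0) (hk : v k ≤ 0) (hl : v l ≤ 0) :
    fcl i v = cd (v i - 1) - (1 - (v i - 1)) * ((v j) ^ 2 + (v k) ^ 2 + (v l) ^ 2) / 2 := by
  rw [main_f h hm, max_eq_right hj, max_eq_right hk, max_eq_right hl, cd]
  ring

/-- one far cell -/
theorem hi_one (H : Hi φ a δ K) {z y x : Fin 4} {M : Fin 4 → ℝ} (hM : IsCell a M)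
    (hn : [a, z, y, x].Nodup) (hm : ∀ m, m ≠ a → -M m ≤ 1) (hd : δ ≤ M a - 1) {p : ℝ}
    (hp : 0 ≤ p) (hps : p ≤ M z + (M a - 1)) : fcl a M + φ z p ≤ K := by
  obtain ⟨a1, a2, a3, a4, a5, a6, a7, a8, a9⟩ := cell_lin hM hn
  obtain ⟨b1, b2, b3⟩ := main_ent hn hm
  have ne := nodup_ne hn
  have st := H.star z ne.1
  have hh := H.half
  obtain ⟨d, hdd⟩ : ∃ d, d = M a - 1 := ⟨_, rfl⟩
  obtain ⟨t, ht⟩ : ∃ t, t = M z + (M a - 1) := ⟨_, rfl⟩
  have ht1 : t ≤ 1 := by linarith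
  have hpt : p ≤ t := by linarith
  have e1 := st.mono p t hp hpt ht1
  rcases le_total 0 (M z) with h0 | h0
  · have e2 := main_sup_d hM hn hm h0
    have e3 := H.pos z ne.1 d t (by linarith) (by linarith) ht1
    rw [FP] at e3
    rw [← ht, ← hdd] at e2
    linarith
  · have e3 := H.one z ne.1 d t (by linarith) (by linarith) (by linarith) (by linarith)
    have e2 : fcl a M ≤ F1 d t := by
      rw [main_np hn hm h0 (by linarith) (by linarith), ← hdd, F1]
      have ez : M z = t - d := by linarith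
      have ex : M x = -(1 + t) - M y := by linarith
      have d1 : 0 ≤ 1 - d := by linarith
      have := mul_nonneg d1 (sq_nonneg (M y + (1 + t) / 2))
      rw [ez, ex]
      nlinarith
    linarith

/-- two far cells -/
theorem hi_two (H : Hi φ a δ K) {z y x : Fin 4} {M : Fin 4 → ℝ} (hM : IsCell a M)
    (hn : [a, z, y, x].Nodup) (hm : ∀ m, m ≠ a → -M m ≤ 1) (hd : δ ≤ M a - 1) {p q : ℝ}
    (hp : 0 < p) (hq : 0 < q) (hps : p ≤ M z + (M a - 1)) (hqs : q ≤ M y + (M a - 1)) :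
    fcl a M + φ z p + φ y q ≤ K := by
  obtain ⟨a1, a2, a3, a4, a5, a6, a7, a8, a9⟩ := cell_lin hM hn
  obtain ⟨b1, b2, b3⟩ := main_ent hn hm
  have ne := nodup_ne hn
  have hh := H.half
  obtain ⟨d, hdd⟩ : ∃ d, d = M a - 1 := ⟨_, rfl⟩
  obtain ⟨s, hs⟩ : ∃ s, s = M z + (M a - 1) := ⟨_, rfl⟩
  obtain ⟨t, ht⟩ : ∃ t, t = M y + (M a - 1) := ⟨_, rfl⟩
  have hP : s + t ≤ d := by linarith
  have e1 := (H.star z ne.1).mono p s hp.le (by linarith) (by linarith)
  have e2 := (H.star y ne.2.1).mono q t hq.le (by linarith) (by linarith)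
  have f1 := H.two z ne.1 d (s + t) (by linarith) (by linarith) (by linarith) hP
  have f2 := H.two y ne.2.1 d (s + t) (by linarith) (by linarith) (by linarith) hP
  have f3 := two_sum (H.star z ne.1) (H.star y ne.2.1) (s := s) (t := t) (by linarith)
    (by linarith) rfl (by linarith) (by linarith) f1 f2
  have e3 : fcl a M ≤ F2 d (s + t) := by
    rw [main_np hn hm (by linarith) (by linarith) (by linarith), ← hdd, F2]
    have ez : M z = s - d := by linarith
    have ey : M y = t - d := by linarith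
    have ex : M x = -(1 - d + (s + t)) := by linarith
    have d1 : 0 ≤ 1 - d := by linarith
    have := mul_nonneg d1 (sq_nonneg (s - t))
    rw [ez, ex, ey]
    nlinarith
  linarith

/-- three far cells -/
theorem hi_three (H : Hi φ a δ K) {z y x : Fin 4} {M : Fin 4 → ℝ} (hM : IsCell a M)
    (hn : [a, z, y, x].Nodup) (hm : ∀ m, m ≠ a → -M m ≤ 1) (hd : δ ≤ M a - 1) {p q r : ℝ}
    (hp : 0 < p) (hq : 0 < q) (hr : 0 < r) (hps : p ≤ M z + (M a - 1))
    (hqs : q ≤ M y + (M a - 1)) (hrs : r ≤ M x + (M a - 1)) :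
    fcl a M + φ z p + φ y q + φ x r ≤ K := by
  obtain ⟨a1, a2, a3, a4, a5, a6, a7, a8, a9⟩ := cell_lin hM hn
  have ne := nodup_ne hn
  have e0 := main_d hM hm
  obtain ⟨d, hdd⟩ : ∃ d, d = M a - 1 := ⟨_, rfl⟩
  obtain ⟨s, hs⟩ : ∃ s, s = M z + (M a - 1) := ⟨_, rfl⟩
  obtain ⟨t, ht⟩ : ∃ t, t = M y + (M a - 1) := ⟨_, rfl⟩
  obtain ⟨u, hu⟩ : ∃ u, u = M x + (M a - 1) := ⟨_, rfl⟩
  have hP : s + t + u = 2 * d - 1 := by linarith
  rw [← hdd] at e0
  have e1 := (H.star z ne.1).mono p s hp.le (by linarith) (by linarith)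
  have e2 := (H.star y ne.2.1).mono q t hq.le (by linarith) (by linarith)
  have e3 := (H.star x ne.2.2).mono r u hr.le (by linarith) (by linarith)
  have f3 := three_sum (H.star z ne.1) (H.star y ne.2.1) (H.star x ne.2.2) (s := s) (t := t)
    (u := u) (by linarith) (by linarith) (by linarith) hP (by linarith) (by linarith)
    (H.three z ne.1 d (by linarith) (by linarith)) (H.three y ne.2.1 d (by linarith) (by linarith))
    (H.three x ne.2.2 d (by linarith) (by linarith))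
  linarith

/-- **A high main cell and the gains of the far cells of its class.** -/
theorem gains_high (H : Hi φ a δ K) {z y x : Fin 4} {M : Fin 4 → ℝ} (hM : IsCell a M)
    (hn : [a, z, y, x].Nodup) (hm : ∀ m, m ≠ a → -M m ≤ 1) (hd : δ ≤ M a - 1) {p q r : ℝ}
    (hp : p = 0 ∨ 0 < p ∧ p ≤ 1 ∧ p ≤ M z + (M a - 1))
    (hq : q = 0 ∨ 0 < q ∧ q ≤ 1 ∧ q ≤ M y + (M a - 1))
    (hr : r = 0 ∨ 0 < r ∧ r ≤ 1 ∧ r ≤ M x + (M a - 1)) :
    fcl a M + φ z p + φ y q + φ x r ≤ K := by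
  have ne := nodup_ne hn
  have n1 : [a, z, x, y].Nodup := perm_kl hn
  have n2 : [a, y, z, x].Nodup := perm_jk hn
  have n3 : [a, x, z, y].Nodup := perm_jl hn
  have n4 : [a, y, x, z].Nodup := perm_kl n2
  rcases hp with rfl | ⟨p0, p1, p2⟩ <;> rcases hq with rfl | ⟨q0, q1, q2⟩ <;>
    rcases hr with rfl | ⟨r0, r1, r2⟩ <;> (try rw [(H.star z ne.1).zero]) <;>
    (try rw [(H.star y ne.2.1).zero]) <;> (try rw [(H.star x ne.2.2).zero])
  · have e0 := main_d hM hm
    have c := cell_lin hM hn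
    have hh := H.half
    have e1 := H.three z ne.1 (M a - 1) hd (by linarith)
    have e2 := (H.star z ne.1).nn (t := 2 * (M a - 1) - 1) (by linarith) (by linarith)
    linarith
  · have := hi_one H hM n3 hm hd r0.le r2
    linarith
  · have := hi_one H hM n2 hm hd q0.le q2
    linarith
  · have := hi_two H hM n4 hm hd q0 r0 q2 r2
    linarith
  · have := hi_one H hM hn hm hd p0.le p2
    linarith
  · have := hi_two H hM n1 hm hd p0 r0 p2 r2
    linarith
  · have := hi_two H hM hn hm hd p0 q0 p2 q2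
    linarith
  · exact hi_three H hM hn hm hd p0 q0 r0 p2 q2 r2

end

end Pool.Agent.Helper8.TS
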