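import Pool.Agent.Helper8.TS.HighNum

/-!
# The high main cell: one-variable inequalities

The inequalities of `Hi` for `δ = 3/5` follow from five inequalities in one variable.
-/

set_option autoImplicit false

namespace Pool.Agent.Helper8.TS

open Pool.Agent.Helper84.TS Pool.Agent.Helper36.TS Pool.Agent.Helper44.TS Pool.Agent.Helper5.TS

/-- `φ t + E t ≤ K`, `E t` the largest volume of a high main cell with the support `t` -/
structure Env (φ : ℝ → ℝ) (K : ℝ) : Prop where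
  /-- one cell, `t ≤ 3/5` -/
  a : ∀ t : ℝ, 0 ≤ t → t ≤ 3 / 5 → 179 / 750 + t / 25 - 3 / 10 * t ^ 2 + φ t ≤ K
  /-- two cells, `t ≤ 3/5` -/
  b : ∀ t : ℝ, 0 ≤ t → t ≤ 3 / 5 → 88 / 375 + 2 / 25 * t - 3 / 10 * t ^ 2 + φ t ≤ K
  /-- two cells, `3/5 ≤ t` -/
  c : ∀ t : ℝ, 3 / 5 ≤ t → t ≤ 1 → 2 / 3 - t + t ^ 2 / 4 + t ^ 3 / 12 + φ t ≤ K
  /-- one cell, `3/5 ≤ t` -/
  d : ∀ t : ℝ, 3 / 5 ≤ t → t ≤ 1 →
    11 / 12 - t / 2 - 3 / 4 * t ^ 2 + t ^ 3 / 3 - 3 / 20 * ((1 - t) * (5 - t)) + φ t ≤ K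
  /-- three cells -/
  e : ∀ t : ℝ, 1 / 5 ≤ t → t ≤ 1 → (1 - t) * (2 - t) / 6 + φ t ≤ K

theorem hi_env {φ : Fin 4 → ℝ → ℝ} {a : Fin 4} {K : ℝ} (hs : ∀ m, m ≠ a → Star (φ m))
    (h : ∀ m, m ≠ a → Env (φ m) K) : Hi φ a (3 / 5) K where
  half := by norm_num
  star := hs
  one m hm d t hd hd1 t0 ht := by
    rcases le_total t (3 / 5) with h' | h'
    · have e1 := F1_anti (d := 3 / 5) (e := d) (t := t) le_rfl hd hd1 t0 h'
      have e2 := (h m hm).a t t0 h'
      have e3 : F1 (3 / 5) t = 179 / 750 + t / 25 - 3 / 10 * t ^ 2 := by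
        unfold F1 cd
        ring
      linarith
    · have e1 := F1_anti (d := t) (e := d) (t := t) h' ht hd1 t0 le_rfl
      have e2 := (h m hm).d t h' (by linarith)
      have e3 : F1 t t ≤ 11 / 12 - t / 2 - 3 / 4 * t ^ 2 + t ^ 3 / 3
          - 3 / 20 * ((1 - t) * (5 - t)) := by
        have t1 : t ≤ 1 := by linarith
        have e4 : 11 / 12 - t / 2 - 3 / 4 * t ^ 2 + t ^ 3 / 3 - 3 / 20 * ((1 - t) * (5 - t))
            - F1 t t = (1 - t) * (t - 3 / 5) * (5 - t) / 4 := by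
          unfold F1 cd
          ring
        have : 0 ≤ (1 - t) * (t - 3 / 5) * (5 - t) / 4 := by
          have := mul_nonneg (mul_nonneg (sub_nonneg.2 t1) (sub_nonneg.2 h'))
            (by linarith : 0 ≤ 5 - t)
          linarith
        linarith
      linarith
  pos m hm d t hd ht t1 := by
    have e2 := (h m hm).d t (by linarith) t1
    have h0 : 3 / 5 * ((1 - t) * (5 - t)) ≤ d * ((1 - t) * (5 - t)) :=
      mul_le_mul_of_nonneg_right hd (mul_nonneg (by linarith) (by linarith))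
    unfold FP HH
    linarith
  two m hm d t hd hd1 t0 ht := by
    rcases le_total t (3 / 5) with h' | h'
    · have e1 := F2_anti (d := 3 / 5) (e := d) (t := t) le_rfl hd hd1 t0 h'
      have e2 := (h m hm).b t t0 h'
      have e3 : F2 (3 / 5) t = 88 / 375 + 2 / 25 * t - 3 / 10 * t ^ 2 := by
        unfold F2 cd
        ring
      linarith
    · have e1 := F2_anti (d := t) (e := d) (t := t) h' ht hd1 t0 le_rfl
      have e2 := (h m hm).c t h' (by linarith)
      have e3 : F2 t t = 2 / 3 - t + t ^ 2 / 4 + t ^ 3 / 12 := by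
        unfold F2 cd
        ring
      linarith
  three m hm d hd hd1 := by
    have := (h m hm).e (2 * d - 1) (by linarith) (by linarith)
    linarith

end Pool.Agent.Helper8.TS
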