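import Pool.Agent.Helper8.TS.High

/-!
# The numbers for the high main cell
-/

set_option autoImplicit false

namespace Pool.Agent.Helper8.TS

open Pool.Agent.Helper84.TS Pool.Agent.Helper36.TS Pool.Agent.Helper44.TS Pool.Agent.Helper5.TS

/-- an upper bound for the gain at heights `0` -/
noncomputable def ps (t : ℝ) : ℝ := 27 / 200 * t + 7 / 100 * t ^ 2 + 19 / 200 * t ^ 3

theorem F1_anti {d e t : ℝ} (hd : 3 / 5 ≤ d) (hde : d ≤ e) (he : e ≤ 1) (t0 : 0 ≤ t) (ht : t ≤ d) :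
    F1 e t ≤ F1 d t := by
  have key : 0 ≤ 5 / 4 - 3 * t / 2 - 3 * t ^ 2 / 4 + t * (d + e) - (d ^ 2 + d * e + e ^ 2) / 3 := by
    nlinarith [mul_nonneg t0 (sub_nonneg.2 ht), mul_nonneg (sub_nonneg.2 hde) (sub_nonneg.2 he),
      mul_nonneg t0 (sub_nonneg.2 he), mul_nonneg (sub_nonneg.2 ht) (sub_nonneg.2 he)]
  have := mul_nonneg (sub_nonneg.2 hde) key
  unfold F1 cd
  nlinarith

theorem F2_anti {d e t : ℝ} (hd : 3 / 5 ≤ d) (hde : d ≤ e) (he : e ≤ 1) (t0 : 0 ≤ t) (ht : t ≤ d) :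
    F2 e t ≤ F2 d t := by
  have key : 0 ≤ -3 * t - 3 * t ^ 2 / 4 + 2 * (1 + t) * (d + e)
      - 4 / 3 * (d ^ 2 + d * e + e ^ 2) := by
    nlinarith [mul_nonneg t0 (sub_nonneg.2 ht), mul_nonneg (sub_nonneg.2 hde) (sub_nonneg.2 he),
      mul_nonneg t0 (sub_nonneg.2 he), mul_nonneg (sub_nonneg.2 ht) (sub_nonneg.2 he)]
  have := mul_nonneg (sub_nonneg.2 hde) key
  unfold F2 cd
  nlinarith

theorem F1_ps {d t : ℝ} (hd : 3 / 5 ≤ d) (hd1 : d ≤ 1) (t0 : 0 ≤ t) (ht : t ≤ d) :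
    F1 d t + ps t ≤ 61 / 200 := by
  rcases le_total t (3 / 5) with h | h
  · have := F1_anti (d := 3 / 5) (e := d) (t := t) le_rfl hd hd1 t0 h
    refine le_trans (add_le_add_left this _) ?_
    unfold F1 cd ps
    nlinarith [mul_nonneg t0 (sub_nonneg.2 h), mul_nonneg t0 t0, mul_nonneg t0 (mul_nonneg t0 (sub_nonneg.2 h))]
  · have := F1_anti (d := t) (e := d) (t := t) h ht hd1 t0 le_rfl
    refine le_trans (add_le_add_left this _) ?_
    have h1 : t ≤ 1 := by linarith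
    unfold F1 cd ps
    nlinarith [mul_nonneg (sub_nonneg.2 h) (sub_nonneg.2 h1), mul_nonneg (mul_nonneg (sub_nonneg.2 h) (sub_nonneg.2 h1)) t0]

theorem F2_ps {d t : ℝ} (hd : 3 / 5 ≤ d) (hd1 : d ≤ 1) (t0 : 0 ≤ t) (ht : t ≤ d) :
    F2 d t + ps t ≤ 61 / 200 := by
  rcases le_total t (3 / 5) with h | h
  · have := F2_anti (d := 3 / 5) (e := d) (t := t) le_rfl hd hd1 t0 h
    refine le_trans (add_le_add_left this _) ?_
    unfold F2 cd ps
    nlinarith [mul_nonneg t0 (sub_nonneg.2 h), mul_nonneg t0 t0, mul_nonneg t0 (mul_nonneg t0 (sub_nonneg.2 h))]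
  · have := F2_anti (d := t) (e := d) (t := t) h ht hd1 t0 le_rfl
    refine le_trans (add_le_add_left this _) ?_
    have h1 : t ≤ 1 := by linarith
    unfold F2 cd ps
    nlinarith [mul_nonneg (sub_nonneg.2 h) (sub_nonneg.2 h1), mul_nonneg (mul_nonneg (sub_nonneg.2 h) (sub_nonneg.2 h1)) t0]

theorem FP_ps {d t : ℝ} (hd : 3 / 5 ≤ d) (ht : d ≤ t) (t1 : t ≤ 1) :
    FP d t + ps t ≤ 61 / 200 := by
  have h0 : 3 / 5 * ((1 - t) * (5 - t)) ≤ d * ((1 - t) * (5 - t)) :=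
    mul_le_mul_of_nonneg_right hd (mul_nonneg (by linarith) (by linarith))
  have h : 3 / 5 ≤ t := by linarith
  unfold FP HH ps
  nlinarith [mul_nonneg (sub_nonneg.2 h) (sub_nonneg.2 t1), mul_nonneg (mul_nonneg (sub_nonneg.2 h) (sub_nonneg.2 t1)) (by linarith : 0 ≤ t)]

theorem F3_ps {d : ℝ} (hd : 3 / 5 ≤ d) (hd1 : d ≤ 1) :
    (1 - d) * (1 - 2 / 3 * d) + ps (2 * d - 1) ≤ 61 / 200 := by
  unfold ps
  nlinarith [mul_nonneg (sub_nonneg.2 hd) (sub_nonneg.2 hd1), mul_nonneg (mul_nonneg (sub_nonneg.2 hd) (sub_nonneg.2 hd1)) (by linarith : 0 ≤ d)]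

/-- **The inequalities of the high main cell from a comparison with `ps`.** -/
theorem hi_gen {φ : Fin 4 → ℝ → ℝ} {a : Fin 4} {K : ℝ} (hs : ∀ m, m ≠ a → Star (φ m))
    (h : ∀ m, m ≠ a → ∀ w : ℝ, 0 ≤ w → w ≤ 1 → φ m w ≤ ps w + (K - 61 / 200)) :
    Hi φ a (3 / 5) K where
  half := by norm_num
  star := hs
  one m hm d t hd hd1 t0 ht := by
    have := h m hm t t0 (by linarith)
    have := F1_ps hd hd1 t0 ht
    linarith
  pos m hm d t hd ht t1 := by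
    have := h m hm t (by linarith) t1
    have := FP_ps hd ht t1
    linarith
  two m hm d t hd hd1 t0 ht := by
    have := h m hm t t0 (by linarith)
    have := F2_ps hd hd1 t0 ht
    linarith
  three m hm d hd hd1 := by
    have := h m hm (2 * d - 1) (by linarith) (by linarith)
    have := F3_ps hd hd1
    linarith

/-- the gain of a far cell in a column; `x`, `y` are the heights of the two other rows -/
noncomputable def ph (x y w : ℝ) : ℝ :=
  w * (253 / 2000 + 348 / 1000 * (x + y) - 374 / 1000 * (x ^ 2 + y ^ 2) - 202 / 1000 * (x * y))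
    + w ^ 2 * (638 / 10000 + 118 / 1000 * (x + y)) + 85 / 1000 * w ^ 3

/-- the bound of the gains -/
noncomputable def gg (x y t : ℝ) : ℝ :=
  2755 / 10000 + 4665 / 10000 * (x + y + t) - 202 / 1000 * (x * y + y * t + x * t)
    - 374 / 1000 * (x ^ 2 + y ^ 2 + t ^ 2)

theorem cub_star {A B C : ℝ} (hA : 0 ≤ A) (hB : 0 ≤ B) (hC : 0 ≤ C) :
    Star (fun w => w * A + w ^ 2 * B + C * w ^ 3) where
  zero := by ring
  mono s t h0 h1 _ := by
    have e1 : s ^ 2 ≤ t ^ 2 := pow_le_pow_left₀ h0 h1 2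
    have e2 : s ^ 3 ≤ t ^ 3 := pow_le_pow_left₀ h0 h1 3
    have := mul_le_mul_of_nonneg_right h1 hA
    have := mul_le_mul_of_nonneg_right e1 hB
    have := mul_le_mul_of_nonneg_left e2 hC
    linarith
  star l t l0 l1 t0 _ := by
    have e1 : l ^ 2 ≤ l := by nlinarith
    have e2 : l ^ 3 ≤ l := by nlinarith [mul_nonneg l0 l0]
    have := mul_le_mul_of_nonneg_right e1 (mul_nonneg (pow_nonneg t0 2) hB)
    have := mul_le_mul_of_nonneg_right e2 (mul_nonneg (pow_nonneg t0 3) hC)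
    nlinarith

theorem ph_star {x y : ℝ} (x0 : 0 ≤ x) (x1 : x ≤ 3 / 5) (y0 : 0 ≤ y) (y1 : y ≤ 3 / 5) :
    Star (ph x y) :=
  cub_star (by nlinarith [mul_nonneg x0 y0]) (by linarith) (by norm_num)

theorem ph_le {x y t w : ℝ} (x0 : 0 ≤ x) (x1 : x ≤ 3 / 5) (y0 : 0 ≤ y) (y1 : y ≤ 3 / 5)
    (t0 : 0 ≤ t) (t1 : t ≤ 3 / 5) (w0 : 0 ≤ w) (w1 : w ≤ 1) :
    ph y t w ≤ ps w + (gg x y t + 3 / 100 - 61 / 200) := by
  have h1 : 0 ≤ x * (4668 / 10000 - 374 / 1000 * x - 202 / 1000 * (y + t)) :=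
    mul_nonneg x0 (by linarith)
  have h2 : 0 ≤ (1 - w) * (y * (4665 / 10000 - 374 / 1000 * y - 101 / 1000 * t)
      + t * (4665 / 10000 - 374 / 1000 * t - 101 / 1000 * y)) :=
    mul_nonneg (by linarith) (add_nonneg (mul_nonneg y0 (by linarith))
      (mul_nonneg t0 (by linarith)))
  have h3 : 0 ≤ (y + t) * (w * (1 - w)) :=
    mul_nonneg (by linarith) (mul_nonneg w0 (by linarith))
  have h4 : 0 ≤ (y + t) * w := mul_nonneg (by linarith) w0
  unfold ph ps gg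
  nlinarith [mul_nonneg w0 w0, pow_nonneg w0 3]

end Pool.Agent.Helper8.TS
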