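import Pool.Agent.Helper74.TS.Far
import Pool.Agent.Helper8.TS.OL0Cyc

/-!
# `OL0'`: the four regions of the volume, symmetries, the third height
-/

set_option autoImplicit false

namespace Pool.Agent.Helper8.TS

open Pool.Agent.Helper74.TS Pool.Agent.Helper19.TS.OL0

section

variable {w A B : ℝ}

theorem vl_1 (hA : w ≤ A) (hB : w ≤ B) : vl w A B = w * A * B - w ^ 3 / 3 := by
  rw [vl, max_eq_right (by linarith : w - A ≤ 0), max_eq_right (by linarith : w - B ≤ 0)]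
  ring

theorem vl_2 (hA : A ≤ w) (hB : w ≤ B) :
    vl w A B = w * A * B - w * w * A + w * A * A - A ^ 3 / 3 := by
  rw [vl, max_eq_left (by linarith : 0 ≤ w - A), max_eq_right (by linarith : w - B ≤ 0)]
  ring

theorem vl_3 (hA : w ≤ A) (hB : B ≤ w) :
    vl w A B = w * A * B - w * w * B + w * B * B - B ^ 3 / 3 := by
  rw [vl, max_eq_right (by linarith : w - A ≤ 0), max_eq_left (by linarith : 0 ≤ w - B)]
  ring

theorem vl_4 (hA : A ≤ w) (hB : B ≤ w) :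
    vl w A B = w * A * B - w ^ 3 / 3 + ((w - A) ^ 3 + (w - B) ^ 3) / 3 := by
  rw [vl, max_eq_left (by linarith : 0 ≤ w - A), max_eq_left (by linarith : 0 ≤ w - B)]

private theorem aux2 (w0 : 0 ≤ w) (A0 : 0 ≤ A) (hA : A ≤ w) (hB : w ≤ B) :
    4 * (w * A * B - w * w * A + w * A * A - A ^ 3 / 3) ≤ w * (A + B) ^ 2 - w ^ 3 := by
  have h1 : (w - A) ^ 2 ≤ (B - A) ^ 2 := pow_le_pow_left₀ (by linarith) (by linarith) 2
  have h2 := mul_le_mul_of_nonneg_left h1 w0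
  have h3 : 0 ≤ A * (w ^ 2 / 2 - 3 / 4 * w * A + A ^ 2 / 3) :=
    mul_nonneg A0 (by nlinarith [sq_nonneg (w - 3 / 4 * A), sq_nonneg A])
  nlinarith

/-- the volume of a cell with given `A + B` -/
theorem vl_sum (w0 : 0 ≤ w) (A0 : 0 ≤ A) (B0 : 0 ≤ B) (hs : w ≤ A + B) :
    4 * vl w A B ≤ w * (A + B) ^ 2 - w ^ 3 := by
  rcases le_total w A with hA | hA <;> rcases le_total w B with hB | hB
  · rw [vl_1 hA hB]
    nlinarith [mul_nonneg w0 (sq_nonneg (A - B)), pow_nonneg w0 3]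
  · rw [vl_3 hA hB]
    have := aux2 w0 B0 hB hA
    nlinarith
  · rw [vl_2 hA hB]
    exact aux2 w0 A0 hA hB
  · rw [vl_4 hA hB]
    -- `p = w - A`, `q = w - B`, `p + q ≤ w`
    obtain ⟨p, hp⟩ : ∃ p, p = w - A := ⟨_, rfl⟩
    obtain ⟨q, hq⟩ : ∃ q, q = w - B := ⟨_, rfl⟩
    have eA : A = w - p := by linarith
    have eB : B = w - q := by linarith
    subst eA eB
    have p0 : 0 ≤ p := by linarith
    have q0 : 0 ≤ q := by linarith
    have pq : 0 ≤ w - (p + q) := by linarith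
    have h1 : 0 ≤ w * (p - q) ^ 2 := mul_nonneg w0 (sq_nonneg _)
    have h2 : 0 ≤ (w - (p + q)) * (w - (p + q)) * (w + 2 * (p + q)) :=
      mul_nonneg (mul_nonneg pq pq) (by linarith)
    have h3 : 0 ≤ (w - (p + q)) * (p - q) ^ 2 := mul_nonneg pq (sq_nonneg _)
    have h4 : 0 ≤ (p + q) * (p * q) := mul_nonneg (by linarith) (mul_nonneg p0 q0)
    have h5 : 0 ≤ (w - (p + q)) * (p * q) := mul_nonneg pq (mul_nonneg p0 q0)
    nlinarith

theorem vl_s1 (w0 : 0 ≤ w) (w1 : w ≤ 1) (A0 : 0 ≤ A) (B0 : 0 ≤ B) (hs : w ≤ A + B)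
    (ft : 3 / 100 < vl w A B) : 677 / 1000 ≤ A + B := by
  have h := vl_sum w0 A0 B0 hs
  by_contra hc
  have hc := not_le.1 hc
  have h1 : (A + B) ^ 2 ≤ (677 / 1000) ^ 2 := pow_le_pow_left₀ (by linarith) hc.le 2
  have h2 := mul_le_mul_of_nonneg_left h1 w0
  nlinarith [mul_nonneg (sq_nonneg (w - 391 / 1000)) (by linarith : 0 ≤ w + 782 / 1000)]

theorem vl_s2 (w0 : 0 ≤ w) (w1 : w ≤ 1) (A0 : 0 ≤ A) (B0 : 0 ≤ B) (hs : w ≤ A + B)
    (ft : 3 / 100 < vl w A B) : w + 1 / 20 ≤ A + B := by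
  have h := vl_sum w0 A0 B0 hs
  by_contra hc
  have hc := not_le.1 hc
  have h1 : (A + B) ^ 2 ≤ (w + 1 / 20) ^ 2 := pow_le_pow_left₀ (by linarith) hc.le 2
  have h2 := mul_le_mul_of_nonneg_left h1 w0
  nlinarith

theorem vl_s3 (w0 : 0 ≤ w) (w1 : w ≤ 1) (A0 : 0 ≤ A) (B0 : 0 ≤ B) (hs : w ≤ A + B)
    (ft : 3 / 100 < vl w A B) : 8 / 25 + 7 / 10 * w ≤ A + B := by
  have h := vl_sum w0 A0 B0 hs
  by_contra hc
  have hc := not_le.1 hc
  have h1 : (A + B) ^ 2 ≤ (8 / 25 + 7 / 10 * w) ^ 2 := pow_le_pow_left₀ (by linarith) hc.le 2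
  have h2 := mul_le_mul_of_nonneg_left h1 w0
  nlinarith [mul_nonneg (sq_nonneg (w - 683 / 1000)) (by linarith : 0 ≤ w + 488 / 1000)]

theorem vl_w0 (w0 : 0 ≤ w) (w1 : w ≤ 1) (A0 : 0 ≤ A) (B0 : 0 ≤ B) (hs : w ≤ A + B)
    (hb : A + B ≤ w + 9 / 20) (ft : 3 / 100 < vl w A B) : 13 / 50 ≤ w := by
  have h := vl_sum w0 A0 B0 hs
  have h1 : (A + B) ^ 2 ≤ (w + 9 / 20) ^ 2 := pow_le_pow_left₀ (by linarith) hb 2
  have h2 := mul_le_mul_of_nonneg_left h1 w0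
  by_contra hc
  have hc := not_le.1 hc
  nlinarith

end

theorem ol0_ph_comm (w x y : ℝ) : ph w x y = ph w y x := by
  unfold ph
  ring

theorem ol0_gg_comm (x y z : ℝ) : gg x y z = gg y x z := by
  unfold gg
  ring

theorem ol0_kk_comm (x y : ℝ) : kk x y = kk y x := by
  unfold kk
  ring

theorem ol0_W0_comm (x y : ℝ) : W0 x y = W0 y x := by
  unfold W0
  ring

theorem ol0_W1_comm (x y : ℝ) : W1 x y = W1 y x := by
  unfold W1
  ring

/-- the third height -/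
theorem ol0_top_T {X Y T : ℝ} (X0 : 0 ≤ X) (Y0 : 0 ≤ Y) (T0 : 0 ≤ T) (T1 : T ≤ 3 / 5) :
    gg X Y 0 ≤ gg X Y T := by
  have h : 0 ≤ T * (2578 / 10000 + 3631 / 10000 * (X + Y) - 645 / 10000 * T) :=
    mul_nonneg T0 (by linarith)
  unfold gg
  linarith

/-- the third height -/
theorem ol0_two_T {X Y T α : ℝ} (X0 : 0 ≤ X) (Y0 : 0 ≤ Y) (T0 : 0 ≤ T) (T1 : T ≤ 3 / 5)
    (a0 : 0 ≤ α) (a1 : α ≤ 1) : gg X Y 0 - ph α X 0 ≤ gg X Y T - ph α X T := by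
  have h1 : 0 ≤ (1 - α) * X := mul_nonneg (by linarith) X0
  have h2 : 0 ≤ (1 - α) * (2542 / 10000 + 1262 / 10000 * α - 351 / 10000) :=
    mul_nonneg (by linarith) (by linarith)
  have h3 : 0 ≤ (3 / 5 - T) * (645 / 10000 - 585 / 10000 * α) :=
    mul_nonneg (by linarith) (by linarith)
  have h : 0 ≤ T * (2578 / 10000 + 3631 / 10000 * (X + Y) - 645 / 10000 * T
      - α * (1280 / 10000 - 585 / 10000 * T + 3631 / 10000 * X) - α ^ 2 * (1262 / 10000)) :=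
    mul_nonneg T0 (by nlinarith)
  unfold gg ph
  linarith

end Pool.Agent.Helper8.TS
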