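import Pool.Agent.Helper8.TS.OL0CertF
import Pool.Agent.Helper8.TS.OL0Vl

/-!
# `OL0'`: the cell of height at least `11/20`, all the modes
-/

set_option autoImplicit false

namespace Pool.Agent.Helper8.TS

open Pool.Agent.Helper74.TS
open Pool.Agent.Helper19.TS.OL0 Pool.Agent.Helper8.TS.OL0C

private theorem g_one {X Y w A B : ℝ} (X0 : 0 ≤ X) (X1 : X ≤ 3 / 5) (Y0 : 0 ≤ Y)
    (Y1 : Y ≤ 3 / 5) (w0 : 0 ≤ w) (w1 : w ≤ 1) (A0 : 0 ≤ A) (B0 : 0 ≤ B) (lo : w ≤ A + B)
    (hi : A + B ≤ w + 9 / 20) (hAB : A ≤ w ∨ w ≤ B) :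
    vl w A B ≤ ph w X Y + (W0 X Y - W1 X Y) := by
  rcases le_total w A with hA | hA <;> rcases le_total w B with hB | hB
  · have :=
      fr_one_1 (x := X) (y := Y) (w := w) (A := A) (B := B) X0 Y0 w0 A0 B0 (by linarith)
        (by linarith) (by linarith) (by linarith) (by linarith) (by linarith) (by linarith)
    rw [vl_1 hA hB]
    unfold W0 W1 ph
    linarith
  · rcases hAB with h | h
    · have hA' : A = w := le_antisymm h hA
      rw [vl_4 h hB]
      have :=
        fr_one_4 (x := X) (y := Y) (w := w) (A := A) (B := B) X0 Y0 w0 A0 B0 (by linarith)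
          (by linarith) (by linarith) (by linarith) (by linarith) (by linarith) (by linarith)
      unfold W0 W1 ph
      linarith
    · rw [vl_1 hA h]
      have :=
        fr_one_1 (x := X) (y := Y) (w := w) (A := A) (B := B) X0 Y0 w0 A0 B0 (by linarith)
          (by linarith) (by linarith) (by linarith) (by linarith) (by linarith) (by linarith)
      unfold W0 W1 ph
      linarith
  · have :=
      fr_one_2 (x := X) (y := Y) (w := w) (A := A) (B := B) X0 Y0 w0 A0 B0 (by linarith)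
        (by linarith) (by linarith) (by linarith) (by linarith) (by linarith) (by linarith)
    rw [vl_2 hA hB]
    unfold W0 W1 ph
    linarith
  · have :=
      fr_one_4 (x := X) (y := Y) (w := w) (A := A) (B := B) X0 Y0 w0 A0 B0 (by linarith)
        (by linarith) (by linarith) (by linarith) (by linarith) (by linarith) (by linarith)
    rw [vl_4 hA hB]
    unfold W0 W1 ph
    linarith

private theorem g_top {X Y w A B : ℝ} (X0 : 0 ≤ X) (X1 : X ≤ 3 / 5) (Y0 : 0 ≤ Y)
    (Y1 : Y ≤ 3 / 5) (w0 : 0 ≤ w) (w1 : w ≤ 1) (A0 : 0 ≤ A) (B0 : 0 ≤ B) (lo : w ≤ A + B)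
    (hi : A + B ≤ w + 9 / 20) (hAB : A ≤ w ∨ w ≤ B) :
    vl w A B ≤ gg X Y 0 + (W0 X Y - W1 X Y) := by
  rcases le_total w A with hA | hA <;> rcases le_total w B with hB | hB
  · have :=
      fr_top_1 (x := X) (y := Y) (w := w) (A := A) (B := B) X0 Y0 w0 A0 B0 (by linarith)
        (by linarith) (by linarith) (by linarith) (by linarith) (by linarith) (by linarith)
    rw [vl_1 hA hB]
    unfold W0 W1 gg
    linarith
  · rcases hAB with h | h
    · have hA' : A = w := le_antisymm h hA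
      rw [vl_4 h hB]
      have :=
        fr_top_4 (x := X) (y := Y) (w := w) (A := A) (B := B) X0 Y0 w0 A0 B0 (by linarith)
          (by linarith) (by linarith) (by linarith) (by linarith) (by linarith) (by linarith)
      unfold W0 W1 gg
      linarith
    · rw [vl_1 hA h]
      have :=
        fr_top_1 (x := X) (y := Y) (w := w) (A := A) (B := B) X0 Y0 w0 A0 B0 (by linarith)
          (by linarith) (by linarith) (by linarith) (by linarith) (by linarith) (by linarith)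
      unfold W0 W1 gg
      linarith
  · have :=
      fr_top_2 (x := X) (y := Y) (w := w) (A := A) (B := B) X0 Y0 w0 A0 B0 (by linarith)
        (by linarith) (by linarith) (by linarith) (by linarith) (by linarith) (by linarith)
    rw [vl_2 hA hB]
    unfold W0 W1 gg
    linarith
  · have :=
      fr_top_4 (x := X) (y := Y) (w := w) (A := A) (B := B) X0 Y0 w0 A0 B0 (by linarith)
        (by linarith) (by linarith) (by linarith) (by linarith) (by linarith) (by linarith)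
    rw [vl_4 hA hB]
    unfold W0 W1 gg
    linarith

private theorem g_twoy {X Y w A B : ℝ} (X0 : 0 ≤ X) (X1 : X ≤ 3 / 5) (Y0 : 0 ≤ Y)
    (Y1 : Y ≤ 3 / 5) (w0 : 0 ≤ w) (w1 : w ≤ 1) (A0 : 0 ≤ A) (B0 : 0 ≤ B) (lo : w ≤ A + B)
    (hi : A + B ≤ w + 9 / 20) (A1 : A ≤ 1) :
    vl w A B ≤ (gg X Y 0 - ph (1 - A) X 0) + (W0 X Y - W1 X Y) := by
  rcases le_total w A with hA | hA <;> rcases le_total w B with hB | hB
  · have :=
      fr_twoy_1 (x := X) (y := Y) (w := w) (A := A) (B := B) X0 Y0 w0 A0 B0 (by linarith)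
        (by linarith) (by linarith) (by linarith) (by linarith) (by linarith) (by linarith)
        (by linarith)
    rw [vl_1 hA hB]
    unfold W0 W1 gg ph
    linarith
  · have :=
      fr_twoy_3 (x := X) (y := Y) (w := w) (A := A) (B := B) X0 Y0 w0 A0 B0 (by linarith)
        (by linarith) (by linarith) (by linarith) (by linarith) (by linarith) (by linarith)
        (by linarith)
    rw [vl_3 hA hB]
    unfold W0 W1 gg ph
    linarith
  · have :=
      fr_twoy_2 (x := X) (y := Y) (w := w) (A := A) (B := B) X0 Y0 w0 A0 B0 (by linarith)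
        (by linarith) (by linarith) (by linarith) (by linarith) (by linarith) (by linarith)
        (by linarith)
    rw [vl_2 hA hB]
    unfold W0 W1 gg ph
    linarith
  · have :=
      fr_twoy_4 (x := X) (y := Y) (w := w) (A := A) (B := B) X0 Y0 w0 A0 B0 (by linarith)
        (by linarith) (by linarith) (by linarith) (by linarith) (by linarith) (by linarith)
        (by linarith)
    rw [vl_4 hA hB]
    unfold W0 W1 gg ph
    linarith

private theorem g_capy {X Y w A B : ℝ} (X0 : 0 ≤ X) (X1 : X ≤ 3 / 5) (Y0 : 0 ≤ Y)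
    (Y1 : Y ≤ 3 / 5) (w0 : 0 ≤ w) (w1 : w ≤ 1) (A0 : 0 ≤ A) (B0 : 0 ≤ B) (lo : w ≤ A + B)
    (hi : A + B ≤ w + 9 / 20) (A1 : A ≤ 1) :
    vl w A B ≤ bb w (1 - A) X Y + (W0 X Y - W1 X Y) := by
  rcases le_total w A with hA | hA <;> rcases le_total w B with hB | hB
  · have :=
      fr_capy_1 (x := X) (y := Y) (w := w) (A := A) (B := B) X0 Y0 w0 A0 B0 (by linarith)
        (by linarith) (by linarith) (by linarith) (by linarith) (by linarith) (by linarith)
        (by linarith)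
    rw [vl_1 hA hB]
    unfold W0 W1 bb
    linarith
  · have :=
      fr_capy_3 (x := X) (y := Y) (w := w) (A := A) (B := B) X0 Y0 w0 A0 B0 (by linarith)
        (by linarith) (by linarith) (by linarith) (by linarith) (by linarith) (by linarith)
        (by linarith)
    rw [vl_3 hA hB]
    unfold W0 W1 bb
    linarith
  · have :=
      fr_capy_2 (x := X) (y := Y) (w := w) (A := A) (B := B) X0 Y0 w0 A0 B0 (by linarith)
        (by linarith) (by linarith) (by linarith) (by linarith) (by linarith) (by linarith)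
        (by linarith)
    rw [vl_2 hA hB]
    unfold W0 W1 bb
    linarith
  · have :=
      fr_capy_4 (x := X) (y := Y) (w := w) (A := A) (B := B) X0 Y0 w0 A0 B0 (by linarith)
        (by linarith) (by linarith) (by linarith) (by linarith) (by linarith) (by linarith)
        (by linarith)
    rw [vl_4 hA hB]
    unfold W0 W1 bb
    linarith

private theorem g_three {X Y T w A B : ℝ} (X0 : 0 ≤ X) (X1 : X ≤ 3 / 5) (Y0 : 0 ≤ Y)
    (Y1 : Y ≤ 3 / 5) (T0 : 0 ≤ T) (T1 : T ≤ 3 / 5) (w0 : 0 ≤ w) (w1 : w ≤ 1) (A0 : 0 ≤ A)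
    (B0 : 0 ≤ B) (lo : w ≤ A + B) (hi : A + B ≤ w + 9 / 20) (A1 : A ≤ 1) (B1 : B ≤ 1)
    (ft : 3 / 100 < vl w A B) (hAB : A ≤ w ∨ w ≤ B) :
    vl w A B ≤ (gg X Y T + 3 / 100 - ph (1 - A) X T - ph (1 - B) Y T)
      + (W0 X Y - W1 X Y) := by
  have s1 := vl_s1 w0 w1 A0 B0 lo ft
  have s2 := vl_s2 w0 w1 A0 B0 lo ft
  have s3 := vl_s3 w0 w1 A0 B0 lo ft
  have s4 := vl_w0 w0 w1 A0 B0 lo hi ft
  rcases le_total w A with hA | hA <;> rcases le_total w B with hB | hB
  · rw [vl_1 hA hB] at ft ⊢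
    have :=
      fr_three_1 (x := X) (y := Y) (t := T) (w := w) (A := A) (B := B) X0 Y0 T0 w0 A0 B0
        (by linarith) (by linarith) (by linarith) (by linarith) (by linarith) (by linarith)
        (by linarith) (by linarith) (by linarith) (by linarith) (by linarith) (by linarith)
        (by linarith) (by linarith) (by linarith)
    unfold W0 W1 gg ph
    linarith
  · rcases hAB with h | h
    · rw [vl_4 h hB] at ft ⊢
      have :=
        fr_three_4 (x := X) (y := Y) (t := T) (w := w) (A := A) (B := B) X0 Y0 T0 w0 A0 B0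
          (by linarith) (by linarith) (by linarith) (by linarith) (by linarith) (by linarith)
          (by linarith) (by linarith) (by linarith) (by linarith) (by linarith) (by linarith)
          (by linarith) (by linarith) (by linarith)
      unfold W0 W1 gg ph
      linarith
    · rw [vl_1 hA h] at ft ⊢
      have :=
        fr_three_1 (x := X) (y := Y) (t := T) (w := w) (A := A) (B := B) X0 Y0 T0 w0 A0 B0
          (by linarith) (by linarith) (by linarith) (by linarith) (by linarith) (by linarith)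
          (by linarith) (by linarith) (by linarith) (by linarith) (by linarith) (by linarith)
          (by linarith) (by linarith) (by linarith)
      unfold W0 W1 gg ph
      linarith
  · rw [vl_2 hA hB] at ft ⊢
    have :=
      fr_three_2 (x := X) (y := Y) (t := T) (w := w) (A := A) (B := B) X0 Y0 T0 w0 A0 B0
        (by linarith) (by linarith) (by linarith) (by linarith) (by linarith) (by linarith)
        (by linarith) (by linarith) (by linarith) (by linarith) (by linarith) (by linarith)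
        (by linarith) (by linarith) (by linarith)
    unfold W0 W1 gg ph
    linarith
  · rw [vl_4 hA hB] at ft ⊢
    have :=
      fr_three_4 (x := X) (y := Y) (t := T) (w := w) (A := A) (B := B) X0 Y0 T0 w0 A0 B0
        (by linarith) (by linarith) (by linarith) (by linarith) (by linarith) (by linarith)
        (by linarith) (by linarith) (by linarith) (by linarith) (by linarith) (by linarith)
        (by linarith) (by linarith) (by linarith)
    unfold W0 W1 gg ph
    linarith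

/-- `OL0'`, height at least `11/20`: the gain of one cell -/
theorem fr_one {X Y T w A B : ℝ} (X0 : 0 ≤ X) (X1 : X ≤ 3 / 5) (Y0 : 0 ≤ Y) (Y1 : Y ≤ 3 / 5)
    (T0 : 0 ≤ T) (T1 : T ≤ 3 / 5) (w0 : 0 ≤ w) (w1 : w ≤ 1) (A0 : 0 ≤ A) (B0 : 0 ≤ B)
    (lo : w ≤ A + B) (hi : A + B ≤ w + 9 / 20) :
    vl w A B ≤ ph w X Y + (W0 X Y - W1 X Y) := by
  rcases le_total A w with hA | hA
  · exact g_one X0 X1 Y0 Y1 w0 w1 A0 B0 lo hi (Or.inl hA)
  · have := g_one Y0 Y1 X0 X1 w0 w1 B0 A0 (by linarith) (by linarith) (Or.inr hA)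
    rwa [vl_comm w B A, ol0_ph_comm w Y X, ol0_W0_comm Y X, ol0_W1_comm Y X] at this

/-- `OL0'`, height at least `11/20`: the largest gain -/
theorem fr_top {X Y T w A B : ℝ} (X0 : 0 ≤ X) (X1 : X ≤ 3 / 5) (Y0 : 0 ≤ Y) (Y1 : Y ≤ 3 / 5)
    (T0 : 0 ≤ T) (T1 : T ≤ 3 / 5) (w0 : 0 ≤ w) (w1 : w ≤ 1) (A0 : 0 ≤ A) (B0 : 0 ≤ B)
    (lo : w ≤ A + B) (hi : A + B ≤ w + 9 / 20) :
    vl w A B ≤ gg X Y T + (W0 X Y - W1 X Y) := by
  have e := ol0_top_T (X := X) (Y := Y) X0 Y0 T0 T1
  rcases le_total A w with hA | hA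
  · have := g_top X0 X1 Y0 Y1 w0 w1 A0 B0 lo hi (Or.inl hA)
    linarith
  · have := g_top Y0 Y1 X0 X1 w0 w1 B0 A0 (by linarith) (by linarith) (Or.inr hA)
    rw [vl_comm w B A, ol0_gg_comm Y X 0, ol0_W0_comm Y X, ol0_W1_comm Y X] at this
    linarith

/-- `OL0'`, height at least `11/20`: a cell that supports the column `y` -/
theorem fr_twoy {X Y T w A B : ℝ} (X0 : 0 ≤ X) (X1 : X ≤ 3 / 5) (Y0 : 0 ≤ Y) (Y1 : Y ≤ 3 / 5)
    (T0 : 0 ≤ T) (T1 : T ≤ 3 / 5) (w0 : 0 ≤ w) (w1 : w ≤ 1) (A0 : 0 ≤ A) (B0 : 0 ≤ B)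
    (lo : w ≤ A + B) (hi : A + B ≤ w + 9 / 20) (A1 : A ≤ 1) :
    vl w A B ≤ gg X Y T - ph (1 - A) X T + (W0 X Y - W1 X Y) := by
  have e := ol0_two_T (X := X) (Y := Y) X0 Y0 T0 T1 (show 0 ≤ 1 - A by linarith) (by linarith)
  have := g_twoy X0 X1 Y0 Y1 w0 w1 A0 B0 lo hi A1
  linarith

/-- `OL0'`, height at least `11/20`: a cell that supports the column `x` -/
theorem fr_twox {X Y T w A B : ℝ} (X0 : 0 ≤ X) (X1 : X ≤ 3 / 5) (Y0 : 0 ≤ Y) (Y1 : Y ≤ 3 / 5)
    (T0 : 0 ≤ T) (T1 : T ≤ 3 / 5) (w0 : 0 ≤ w) (w1 : w ≤ 1) (A0 : 0 ≤ A) (B0 : 0 ≤ B)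
    (lo : w ≤ A + B) (hi : A + B ≤ w + 9 / 20) (B1 : B ≤ 1) :
    vl w A B ≤ gg X Y T - ph (1 - B) Y T + (W0 X Y - W1 X Y) := by
  have e := ol0_two_T (X := Y) (Y := X) Y0 X0 T0 T1 (show 0 ≤ 1 - B by linarith) (by linarith)
  have := g_twoy Y0 Y1 X0 X1 w0 w1 B0 A0 (by linarith) (by linarith) B1
  rw [vl_comm w B A, ol0_W0_comm Y X, ol0_W1_comm Y X] at this
  rw [ol0_gg_comm X Y T]
  linarith

/-- `OL0'`, height at least `11/20`: a cell that supports both columns -/
theorem fr_three {X Y T w A B : ℝ} (X0 : 0 ≤ X) (X1 : X ≤ 3 / 5) (Y0 : 0 ≤ Y) (Y1 : Y ≤ 3 / 5)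
    (T0 : 0 ≤ T) (T1 : T ≤ 3 / 5) (w0 : 0 ≤ w) (w1 : w ≤ 1) (A0 : 0 ≤ A) (B0 : 0 ≤ B)
    (lo : w ≤ A + B) (hi : A + B ≤ w + 9 / 20) (A1 : A ≤ 1) (B1 : B ≤ 1)
    (ft : 3 / 100 < vl w A B) :
    vl w A B ≤ gg X Y T + 3 / 100 - ph (1 - A) X T - ph (1 - B) Y T + (W0 X Y - W1 X Y) := by
  rcases le_total A w with hA | hA
  · exact g_three X0 X1 Y0 Y1 T0 T1 w0 w1 A0 B0 lo hi A1 B1 ft (Or.inl hA)
  · have := g_three Y0 Y1 X0 X1 T0 T1 w0 w1 B0 A0 (by linarith) (by linarith) B1 A1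
      (by rwa [vl_comm w B A]) (Or.inr hA)
    rw [vl_comm w B A, ol0_gg_comm Y X T, ol0_W0_comm Y X, ol0_W1_comm Y X] at this
    linarith

/-- `OL0'`, height at least `11/20`: a cell that supports a given height in the column `y` -/
theorem fr_capy {X Y T w A B : ℝ} (X0 : 0 ≤ X) (X1 : X ≤ 3 / 5) (Y0 : 0 ≤ Y) (Y1 : Y ≤ 3 / 5)
    (T0 : 0 ≤ T) (T1 : T ≤ 3 / 5) (w0 : 0 ≤ w) (w1 : w ≤ 1) (A0 : 0 ≤ A) (B0 : 0 ≤ B)
    (lo : w ≤ A + B) (hi : A + B ≤ w + 9 / 20) (A1 : A ≤ 1) :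
    vl w A B ≤ bb w (1 - A) X Y + (W0 X Y - W1 X Y) := by
  exact g_capy X0 X1 Y0 Y1 w0 w1 A0 B0 lo hi A1

/-- `OL0'`, height at least `11/20`: a cell that supports a given height in the column `x` -/
theorem fr_capx {X Y T w A B : ℝ} (X0 : 0 ≤ X) (X1 : X ≤ 3 / 5) (Y0 : 0 ≤ Y) (Y1 : Y ≤ 3 / 5)
    (T0 : 0 ≤ T) (T1 : T ≤ 3 / 5) (w0 : 0 ≤ w) (w1 : w ≤ 1) (A0 : 0 ≤ A) (B0 : 0 ≤ B)
    (lo : w ≤ A + B) (hi : A + B ≤ w + 9 / 20) (B1 : B ≤ 1) :
    vl w A B ≤ bb w (1 - B) X Y + (W0 X Y - W1 X Y) := by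
  have := g_capy Y0 Y1 X0 X1 w0 w1 B0 A0 (by linarith) (by linarith) B1
  rwa [vl_comm w B A, ol0_bb_comm w (1 - B) Y X, ol0_W0_comm Y X, ol0_W1_comm Y X] at this

end Pool.Agent.Helper8.TS
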