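import Pool.Agent.Helper8.TS.OL0CertA
import Pool.Agent.Helper8.TS.OL0CertB
import Pool.Agent.Helper8.TS.OL0Vl
import Pool.Agent.Helper70.OL.Lst

/-!
# `OL0'`: the states without own far cells, all the modes
-/

set_option autoImplicit false

namespace Pool.Agent.Helper8.TS

open Pool.Agent.Helper83.TS Pool.Agent.Helper74.TS Pool.Agent.Helper70.OL
open Pool.Agent.Helper19.TS.OL0 Pool.Agent.Helper8.TS.OL0C

private theorem f1_one {X Y w A B u v : ℝ} (X0 : 0 ≤ X) (X1 : X ≤ 3 / 5) (Y0 : 0 ≤ Y)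
    (Y1 : Y ≤ 3 / 5) (w0 : 0 ≤ w) (w1 : w ≤ 1) (A0 : 0 ≤ A) (B0 : 0 ≤ B) (hi : A + B ≤ 1 + w)
    (lo : w + 9 / 20 < A + B) (v0 : 0 ≤ v) (vu : v ≤ u) (u1 : u ≤ 1)
    (hu : u ≤ 1 - A + X) (hv : v ≤ 1 - B + Y) :
    st (nu X) X u + st (nu Y - kk X Y) Y v + vl w A B ≤ W0 X Y + ph w X Y := by
  have u0 : 0 ≤ u := v0.trans vu
  rcases le_total w A with hA | hA <;> rcases le_total w B with hB | hB
  · have :=
      c1_one_1 (x := X) (y := Y) (w := w) (A := A) (B := B) (u := u) (v := v) X0 Y0 w0 A0 B0 u0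
        v0 (by linarith) (by linarith) (by linarith) (by linarith) (by linarith) (by linarith)
        (by linarith) (by linarith) (by linarith) (by linarith) (by linarith)
    rw [vl_1 hA hB]
    unfold st nu kk W0 ph
    linarith
  · have :=
      c1_one_3 (x := X) (y := Y) (w := w) (A := A) (B := B) (u := u) (v := v) X0 Y0 w0 A0 B0 u0
        v0 (by linarith) (by linarith) (by linarith) (by linarith) (by linarith) (by linarith)
        (by linarith) (by linarith) (by linarith) (by linarith) (by linarith)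
    rw [vl_3 hA hB]
    unfold st nu kk W0 ph
    linarith
  · have :=
      c1_one_2 (x := X) (y := Y) (w := w) (A := A) (B := B) (u := u) (v := v) X0 Y0 w0 A0 B0 u0
        v0 (by linarith) (by linarith) (by linarith) (by linarith) (by linarith) (by linarith)
        (by linarith) (by linarith) (by linarith) (by linarith) (by linarith)
    rw [vl_2 hA hB]
    unfold st nu kk W0 ph
    linarith
  · have :=
      c1_one_4 (x := X) (y := Y) (w := w) (A := A) (B := B) (u := u) (v := v) X0 Y0 w0 A0 B0 u0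
        v0 (by linarith) (by linarith) (by linarith) (by linarith) (by linarith) (by linarith)
        (by linarith) (by linarith) (by linarith) (by linarith) (by linarith)
    rw [vl_4 hA hB]
    unfold st nu kk W0 ph
    linarith

private theorem f1_top {X Y w A B u v : ℝ} (X0 : 0 ≤ X) (X1 : X ≤ 3 / 5) (Y0 : 0 ≤ Y)
    (Y1 : Y ≤ 3 / 5) (w0 : 0 ≤ w) (w1 : w ≤ 1) (A0 : 0 ≤ A) (B0 : 0 ≤ B) (hi : A + B ≤ 1 + w)
    (lo : w + 9 / 20 < A + B) (v0 : 0 ≤ v) (vu : v ≤ u) (u1 : u ≤ 1)
    (hu : u ≤ 1 - A + X) (hv : v ≤ 1 - B + Y) :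
    st (nu X) X u + st (nu Y - kk X Y) Y v + vl w A B ≤ W0 X Y + gg X Y 0 := by
  have u0 : 0 ≤ u := v0.trans vu
  rcases le_total w A with hA | hA <;> rcases le_total w B with hB | hB
  · have :=
      c1_top_1 (x := X) (y := Y) (w := w) (A := A) (B := B) (u := u) (v := v) X0 Y0 w0 A0 B0 u0
        v0 (by linarith) (by linarith) (by linarith) (by linarith) (by linarith) (by linarith)
        (by linarith) (by linarith) (by linarith) (by linarith) (by linarith)
    rw [vl_1 hA hB]
    unfold st nu kk W0 gg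
    linarith
  · have :=
      c1_top_3 (x := X) (y := Y) (w := w) (A := A) (B := B) (u := u) (v := v) X0 Y0 w0 A0 B0 u0
        v0 (by linarith) (by linarith) (by linarith) (by linarith) (by linarith) (by linarith)
        (by linarith) (by linarith) (by linarith) (by linarith) (by linarith)
    rw [vl_3 hA hB]
    unfold st nu kk W0 gg
    linarith
  · have :=
      c1_top_2 (x := X) (y := Y) (w := w) (A := A) (B := B) (u := u) (v := v) X0 Y0 w0 A0 B0 u0
        v0 (by linarith) (by linarith) (by linarith) (by linarith) (by linarith) (by linarith)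
        (by linarith) (by linarith) (by linarith) (by linarith) (by linarith)
    rw [vl_2 hA hB]
    unfold st nu kk W0 gg
    linarith
  · have :=
      c1_top_4 (x := X) (y := Y) (w := w) (A := A) (B := B) (u := u) (v := v) X0 Y0 w0 A0 B0 u0
        v0 (by linarith) (by linarith) (by linarith) (by linarith) (by linarith) (by linarith)
        (by linarith) (by linarith) (by linarith) (by linarith) (by linarith)
    rw [vl_4 hA hB]
    unfold st nu kk W0 gg
    linarith

private theorem f1_twoy {X Y w A B u v : ℝ} (X0 : 0 ≤ X) (X1 : X ≤ 3 / 5) (Y0 : 0 ≤ Y)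
    (Y1 : Y ≤ 3 / 5) (w0 : 0 ≤ w) (w1 : w ≤ 1) (A0 : 0 ≤ A) (B0 : 0 ≤ B) (hi : A + B ≤ 1 + w)
    (lo : w + 9 / 20 < A + B) (A1 : A ≤ 1) (v0 : 0 ≤ v) (vu : v ≤ u) (u1 : u ≤ 1)
    (hu : u ≤ 1 - A + X) (hv : v ≤ 1 - B + Y) :
    st (nu X) X u + st (nu Y - kk X Y) Y v + vl w A B ≤ W0 X Y + (gg X Y 0 - ph (1 - A) X 0) := by
  have u0 : 0 ≤ u := v0.trans vu
  rcases le_total w A with hA | hA <;> rcases le_total w B with hB | hB
  · have :=
      c1_twoy_1 (x := X) (y := Y) (w := w) (A := A) (B := B) (u := u) (v := v) X0 Y0 w0 A0 B0 u0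
        v0 (by linarith) (by linarith) (by linarith) (by linarith) (by linarith) (by linarith)
        (by linarith) (by linarith) (by linarith) (by linarith) (by linarith) (by linarith)
    rw [vl_1 hA hB]
    unfold st nu kk W0 gg ph
    linarith
  · have :=
      c1_twoy_3 (x := X) (y := Y) (w := w) (A := A) (B := B) (u := u) (v := v) X0 Y0 w0 A0 B0 u0
        v0 (by linarith) (by linarith) (by linarith) (by linarith) (by linarith) (by linarith)
        (by linarith) (by linarith) (by linarith) (by linarith) (by linarith) (by linarith)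
    rw [vl_3 hA hB]
    unfold st nu kk W0 gg ph
    linarith
  · have :=
      c1_twoy_2 (x := X) (y := Y) (w := w) (A := A) (B := B) (u := u) (v := v) X0 Y0 w0 A0 B0 u0
        v0 (by linarith) (by linarith) (by linarith) (by linarith) (by linarith) (by linarith)
        (by linarith) (by linarith) (by linarith) (by linarith) (by linarith) (by linarith)
    rw [vl_2 hA hB]
    unfold st nu kk W0 gg ph
    linarith
  · have :=
      c1_twoy_4 (x := X) (y := Y) (w := w) (A := A) (B := B) (u := u) (v := v) X0 Y0 w0 A0 B0 u0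
        v0 (by linarith) (by linarith) (by linarith) (by linarith) (by linarith) (by linarith)
        (by linarith) (by linarith) (by linarith) (by linarith) (by linarith) (by linarith)
    rw [vl_4 hA hB]
    unfold st nu kk W0 gg ph
    linarith

private theorem f1_twox {X Y w A B u v : ℝ} (X0 : 0 ≤ X) (X1 : X ≤ 3 / 5) (Y0 : 0 ≤ Y)
    (Y1 : Y ≤ 3 / 5) (w0 : 0 ≤ w) (w1 : w ≤ 1) (A0 : 0 ≤ A) (B0 : 0 ≤ B) (hi : A + B ≤ 1 + w)
    (lo : w + 9 / 20 < A + B) (B1 : B ≤ 1) (v0 : 0 ≤ v) (vu : v ≤ u) (u1 : u ≤ 1)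
    (hu : u ≤ 1 - A + X) (hv : v ≤ 1 - B + Y) :
    st (nu X) X u + st (nu Y - kk X Y) Y v + vl w A B ≤ W0 X Y + (gg X Y 0 - ph (1 - B) Y 0) := by
  have u0 : 0 ≤ u := v0.trans vu
  rcases le_total w A with hA | hA <;> rcases le_total w B with hB | hB
  · have :=
      c1_twox_1 (x := X) (y := Y) (w := w) (A := A) (B := B) (u := u) (v := v) X0 Y0 w0 A0 B0 u0
        v0 (by linarith) (by linarith) (by linarith) (by linarith) (by linarith) (by linarith)
        (by linarith) (by linarith) (by linarith) (by linarith) (by linarith) (by linarith)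
    rw [vl_1 hA hB]
    unfold st nu kk W0 gg ph
    linarith
  · have :=
      c1_twox_3 (x := X) (y := Y) (w := w) (A := A) (B := B) (u := u) (v := v) X0 Y0 w0 A0 B0 u0
        v0 (by linarith) (by linarith) (by linarith) (by linarith) (by linarith) (by linarith)
        (by linarith) (by linarith) (by linarith) (by linarith) (by linarith) (by linarith)
    rw [vl_3 hA hB]
    unfold st nu kk W0 gg ph
    linarith
  · have :=
      c1_twox_2 (x := X) (y := Y) (w := w) (A := A) (B := B) (u := u) (v := v) X0 Y0 w0 A0 B0 u0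
        v0 (by linarith) (by linarith) (by linarith) (by linarith) (by linarith) (by linarith)
        (by linarith) (by linarith) (by linarith) (by linarith) (by linarith) (by linarith)
    rw [vl_2 hA hB]
    unfold st nu kk W0 gg ph
    linarith
  · have :=
      c1_twox_4 (x := X) (y := Y) (w := w) (A := A) (B := B) (u := u) (v := v) X0 Y0 w0 A0 B0 u0
        v0 (by linarith) (by linarith) (by linarith) (by linarith) (by linarith) (by linarith)
        (by linarith) (by linarith) (by linarith) (by linarith) (by linarith) (by linarith)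
    rw [vl_4 hA hB]
    unfold st nu kk W0 gg ph
    linarith

private theorem f1_capy {X Y w A B u v : ℝ} (X0 : 0 ≤ X) (X1 : X ≤ 3 / 5) (Y0 : 0 ≤ Y)
    (Y1 : Y ≤ 3 / 5) (w0 : 0 ≤ w) (w1 : w ≤ 1) (A0 : 0 ≤ A) (B0 : 0 ≤ B) (hi : A + B ≤ 1 + w)
    (lo : w + 9 / 20 < A + B) (A1 : A ≤ 1) (v0 : 0 ≤ v) (vu : v ≤ u) (u1 : u ≤ 1)
    (hu : u ≤ 1 - A + X) (hv : v ≤ 1 - B + Y) :
    st (nu X) X u + st (nu Y - kk X Y) Y v + vl w A B ≤ W0 X Y + bb w (1 - A) X Y := by
  have u0 : 0 ≤ u := v0.trans vu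
  rcases le_total w A with hA | hA <;> rcases le_total w B with hB | hB
  · have :=
      c1_capy_1 (x := X) (y := Y) (w := w) (A := A) (B := B) (u := u) (v := v) X0 Y0 w0 A0 B0 u0
        v0 (by linarith) (by linarith) (by linarith) (by linarith) (by linarith) (by linarith)
        (by linarith) (by linarith) (by linarith) (by linarith) (by linarith) (by linarith)
    rw [vl_1 hA hB]
    unfold st nu kk W0 bb
    linarith
  · have :=
      c1_capy_3 (x := X) (y := Y) (w := w) (A := A) (B := B) (u := u) (v := v) X0 Y0 w0 A0 B0 u0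
        v0 (by linarith) (by linarith) (by linarith) (by linarith) (by linarith) (by linarith)
        (by linarith) (by linarith) (by linarith) (by linarith) (by linarith) (by linarith)
    rw [vl_3 hA hB]
    unfold st nu kk W0 bb
    linarith
  · have :=
      c1_capy_2 (x := X) (y := Y) (w := w) (A := A) (B := B) (u := u) (v := v) X0 Y0 w0 A0 B0 u0
        v0 (by linarith) (by linarith) (by linarith) (by linarith) (by linarith) (by linarith)
        (by linarith) (by linarith) (by linarith) (by linarith) (by linarith) (by linarith)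
    rw [vl_2 hA hB]
    unfold st nu kk W0 bb
    linarith
  · have :=
      c1_capy_4 (x := X) (y := Y) (w := w) (A := A) (B := B) (u := u) (v := v) X0 Y0 w0 A0 B0 u0
        v0 (by linarith) (by linarith) (by linarith) (by linarith) (by linarith) (by linarith)
        (by linarith) (by linarith) (by linarith) (by linarith) (by linarith) (by linarith)
    rw [vl_4 hA hB]
    unfold st nu kk W0 bb
    linarith

private theorem f1_capx {X Y w A B u v : ℝ} (X0 : 0 ≤ X) (X1 : X ≤ 3 / 5) (Y0 : 0 ≤ Y)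
    (Y1 : Y ≤ 3 / 5) (w0 : 0 ≤ w) (w1 : w ≤ 1) (A0 : 0 ≤ A) (B0 : 0 ≤ B) (hi : A + B ≤ 1 + w)
    (lo : w + 9 / 20 < A + B) (B1 : B ≤ 1) (v0 : 0 ≤ v) (vu : v ≤ u) (u1 : u ≤ 1)
    (hu : u ≤ 1 - A + X) (hv : v ≤ 1 - B + Y) :
    st (nu X) X u + st (nu Y - kk X Y) Y v + vl w A B ≤ W0 X Y + bb w (1 - B) X Y := by
  have u0 : 0 ≤ u := v0.trans vu
  rcases le_total w A with hA | hA <;> rcases le_total w B with hB | hB
  · have :=
      c1_capx_1 (x := X) (y := Y) (w := w) (A := A) (B := B) (u := u) (v := v) X0 Y0 w0 A0 B0 u0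
        v0 (by linarith) (by linarith) (by linarith) (by linarith) (by linarith) (by linarith)
        (by linarith) (by linarith) (by linarith) (by linarith) (by linarith) (by linarith)
    rw [vl_1 hA hB]
    unfold st nu kk W0 bb
    linarith
  · have :=
      c1_capx_3 (x := X) (y := Y) (w := w) (A := A) (B := B) (u := u) (v := v) X0 Y0 w0 A0 B0 u0
        v0 (by linarith) (by linarith) (by linarith) (by linarith) (by linarith) (by linarith)
        (by linarith) (by linarith) (by linarith) (by linarith) (by linarith) (by linarith)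
    rw [vl_3 hA hB]
    unfold st nu kk W0 bb
    linarith
  · have :=
      c1_capx_2 (x := X) (y := Y) (w := w) (A := A) (B := B) (u := u) (v := v) X0 Y0 w0 A0 B0 u0
        v0 (by linarith) (by linarith) (by linarith) (by linarith) (by linarith) (by linarith)
        (by linarith) (by linarith) (by linarith) (by linarith) (by linarith) (by linarith)
    rw [vl_2 hA hB]
    unfold st nu kk W0 bb
    linarith
  · have :=
      c1_capx_4 (x := X) (y := Y) (w := w) (A := A) (B := B) (u := u) (v := v) X0 Y0 w0 A0 B0 u0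
        v0 (by linarith) (by linarith) (by linarith) (by linarith) (by linarith) (by linarith)
        (by linarith) (by linarith) (by linarith) (by linarith) (by linarith) (by linarith)
    rw [vl_4 hA hB]
    unfold st nu kk W0 bb
    linarith

private theorem f3_one {X Y w A B u : ℝ} (X0 : 0 ≤ X) (X1 : X ≤ 3 / 5) (Y0 : 0 ≤ Y)
    (Y1 : Y ≤ 3 / 5) (w0 : 0 ≤ w) (w1 : w ≤ 1) (A0 : 0 ≤ A) (B0 : 0 ≤ B) (hi : A + B ≤ 1 + w)
    (lo : w + 9 / 20 < A + B) (hb : 1 + Y < B) (u0 : 0 ≤ u) (u1 : u ≤ 1)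
    (hu : u ≤ 1 - A + X) :
    st (nu X) X u + ng (nu Y - kk X Y) Y (B - 1 - Y) + vl w A B ≤ W0 X Y + ph w X Y := by
  have hB : w ≤ B := by linarith
  rcases le_total w A with hA | hA
  · have :=
      c3_one_1 (x := X) (y := Y) (w := w) (A := A) (B := B) (u := u) X0 Y0 w0 A0 B0 u0
        (by linarith) (by linarith) (by linarith) (by linarith) (by linarith) (by linarith)
        (by linarith) (by linarith) (by linarith) (by linarith)
    rw [vl_1 hA hB]
    unfold st ng nu kk W0 ph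
    linarith
  · have :=
      c3_one_2 (x := X) (y := Y) (w := w) (A := A) (B := B) (u := u) X0 Y0 w0 A0 B0 u0
        (by linarith) (by linarith) (by linarith) (by linarith) (by linarith) (by linarith)
        (by linarith) (by linarith) (by linarith) (by linarith)
    rw [vl_2 hA hB]
    unfold st ng nu kk W0 ph
    linarith

private theorem f3_top {X Y w A B u : ℝ} (X0 : 0 ≤ X) (X1 : X ≤ 3 / 5) (Y0 : 0 ≤ Y)
    (Y1 : Y ≤ 3 / 5) (w0 : 0 ≤ w) (w1 : w ≤ 1) (A0 : 0 ≤ A) (B0 : 0 ≤ B) (hi : A + B ≤ 1 + w)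
    (lo : w + 9 / 20 < A + B) (hb : 1 + Y < B) (u0 : 0 ≤ u) (u1 : u ≤ 1)
    (hu : u ≤ 1 - A + X) :
    st (nu X) X u + ng (nu Y - kk X Y) Y (B - 1 - Y) + vl w A B ≤ W0 X Y + gg X Y 0 := by
  have hB : w ≤ B := by linarith
  rcases le_total w A with hA | hA
  · have :=
      c3_top_1 (x := X) (y := Y) (w := w) (A := A) (B := B) (u := u) X0 Y0 w0 A0 B0 u0
        (by linarith) (by linarith) (by linarith) (by linarith) (by linarith) (by linarith)
        (by linarith) (by linarith) (by linarith) (by linarith)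
    rw [vl_1 hA hB]
    unfold st ng nu kk W0 gg
    linarith
  · have :=
      c3_top_2 (x := X) (y := Y) (w := w) (A := A) (B := B) (u := u) X0 Y0 w0 A0 B0 u0
        (by linarith) (by linarith) (by linarith) (by linarith) (by linarith) (by linarith)
        (by linarith) (by linarith) (by linarith) (by linarith)
    rw [vl_2 hA hB]
    unfold st ng nu kk W0 gg
    linarith

private theorem f3_twoy {X Y w A B u : ℝ} (X0 : 0 ≤ X) (X1 : X ≤ 3 / 5) (Y0 : 0 ≤ Y)
    (Y1 : Y ≤ 3 / 5) (w0 : 0 ≤ w) (w1 : w ≤ 1) (A0 : 0 ≤ A) (B0 : 0 ≤ B) (hi : A + B ≤ 1 + w)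
    (lo : w + 9 / 20 < A + B) (A1 : A ≤ 1) (hb : 1 + Y < B) (u0 : 0 ≤ u) (u1 : u ≤ 1)
    (hu : u ≤ 1 - A + X) :
    st (nu X) X u + ng (nu Y - kk X Y) Y (B - 1 - Y) + vl w A B ≤ W0 X Y + (gg X Y 0 - ph (1 - A) X 0) := by
  have hB : w ≤ B := by linarith
  rcases le_total w A with hA | hA
  · have :=
      c3_twoy_1 (x := X) (y := Y) (w := w) (A := A) (B := B) (u := u) X0 Y0 w0 A0 B0 u0
        (by linarith) (by linarith) (by linarith) (by linarith) (by linarith) (by linarith)
        (by linarith) (by linarith) (by linarith) (by linarith) (by linarith)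
    rw [vl_1 hA hB]
    unfold st ng nu kk W0 gg ph
    linarith
  · have :=
      c3_twoy_2 (x := X) (y := Y) (w := w) (A := A) (B := B) (u := u) X0 Y0 w0 A0 B0 u0
        (by linarith) (by linarith) (by linarith) (by linarith) (by linarith) (by linarith)
        (by linarith) (by linarith) (by linarith) (by linarith) (by linarith)
    rw [vl_2 hA hB]
    unfold st ng nu kk W0 gg ph
    linarith

private theorem f3_capy {X Y w A B u : ℝ} (X0 : 0 ≤ X) (X1 : X ≤ 3 / 5) (Y0 : 0 ≤ Y)
    (Y1 : Y ≤ 3 / 5) (w0 : 0 ≤ w) (w1 : w ≤ 1) (A0 : 0 ≤ A) (B0 : 0 ≤ B) (hi : A + B ≤ 1 + w)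
    (lo : w + 9 / 20 < A + B) (A1 : A ≤ 1) (hb : 1 + Y < B) (u0 : 0 ≤ u) (u1 : u ≤ 1)
    (hu : u ≤ 1 - A + X) :
    st (nu X) X u + ng (nu Y - kk X Y) Y (B - 1 - Y) + vl w A B ≤ W0 X Y + bb w (1 - A) X Y := by
  have hB : w ≤ B := by linarith
  rcases le_total w A with hA | hA
  · have :=
      c3_capy_1 (x := X) (y := Y) (w := w) (A := A) (B := B) (u := u) X0 Y0 w0 A0 B0 u0
        (by linarith) (by linarith) (by linarith) (by linarith) (by linarith) (by linarith)
        (by linarith) (by linarith) (by linarith) (by linarith) (by linarith)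
    rw [vl_1 hA hB]
    unfold st ng nu kk W0 bb
    linarith
  · have :=
      c3_capy_2 (x := X) (y := Y) (w := w) (A := A) (B := B) (u := u) X0 Y0 w0 A0 B0 u0
        (by linarith) (by linarith) (by linarith) (by linarith) (by linarith) (by linarith)
        (by linarith) (by linarith) (by linarith) (by linarith) (by linarith)
    rw [vl_2 hA hB]
    unfold st ng nu kk W0 bb
    linarith

private theorem f1_three {X Y T w A B u v : ℝ} (X0 : 0 ≤ X) (X1 : X ≤ 3 / 5) (Y0 : 0 ≤ Y)
    (Y1 : Y ≤ 3 / 5) (T0 : 0 ≤ T) (T1 : T ≤ 3 / 5) (w0 : 0 ≤ w) (w1 : w ≤ 1) (A0 : 0 ≤ A)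
    (B0 : 0 ≤ B) (hi : A + B ≤ 1 + w) (lo : w + 9 / 20 < A + B) (A1 : A ≤ 1) (B1 : B ≤ 1)
    (ft : 3 / 100 < vl w A B) (v0 : 0 ≤ v) (vu : v ≤ u) (u1 : u ≤ 1)
    (hu : u ≤ 1 - A + X) (hv : v ≤ 1 - B + Y) :
    st (nu X) X u + st (nu Y - kk X Y) Y v + vl w A B ≤
      W0 X Y + (gg X Y T + 3 / 100 - ph (1 - A) X T - ph (1 - B) Y T) := by
  have u0 : 0 ≤ u := v0.trans vu
  have s1 := vl_s1 w0 w1 A0 B0 (by linarith) ft
  have s3 := vl_s3 w0 w1 A0 B0 (by linarith) ft
  rcases le_total w A with hA | hA <;> rcases le_total w B with hB | hB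
  · rw [vl_1 hA hB] at ft ⊢
    rcases le_total w (3 / 10) with h1 | h1
    · have :=
          c1_three_1a (x := X) (y := Y) (t := T) (w := w) (A := A) (B := B) (u := u) (v := v) X0
            Y0 T0 w0 A0 B0 u0 v0 (by linarith) (by linarith) (by linarith) (by linarith)
            (by linarith) (by linarith) (by linarith) (by linarith) (by linarith) (by linarith)
            (by linarith) (by linarith) (by linarith) (by linarith) (by linarith) (by linarith)
            (by linarith) (by linarith) (by linarith)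
      unfold st nu kk W0 gg ph
      linarith
    rcases le_total w (1 / 2) with h2 | h2
    · have :=
          c1_three_1b (x := X) (y := Y) (t := T) (w := w) (A := A) (B := B) (u := u) (v := v) X0
            Y0 T0 w0 A0 B0 u0 v0 (by linarith) (by linarith) (by linarith) (by linarith)
            (by linarith) (by linarith) (by linarith) (by linarith) (by linarith) (by linarith)
            (by linarith) (by linarith) (by linarith) (by linarith) (by linarith) (by linarith)
            (by linarith)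
      unfold st nu kk W0 gg ph
      linarith
    · have :=
          c1_three_1c (x := X) (y := Y) (t := T) (w := w) (A := A) (B := B) (u := u) (v := v) X0
            Y0 T0 w0 A0 B0 u0 v0 (by linarith) (by linarith) (by linarith) (by linarith)
            (by linarith) (by linarith) (by linarith) (by linarith) (by linarith) (by linarith)
            (by linarith) (by linarith) (by linarith) (by linarith) (by linarith) (by linarith)
      unfold st nu kk W0 gg ph
      linarith
  · rw [vl_3 hA hB] at ft ⊢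
    have :=
      c1_three_3 (x := X) (y := Y) (t := T) (w := w) (A := A) (B := B) (u := u) (v := v) X0 Y0 T0
        w0 A0 B0 u0 v0 (by linarith) (by linarith) (by linarith) (by linarith) (by linarith)
        (by linarith) (by linarith) (by linarith) (by linarith) (by linarith) (by linarith)
        (by linarith) (by linarith) (by linarith) (by linarith) (by linarith) (by linarith)
        (by linarith)
    unfold st nu kk W0 gg ph
    linarith
  · rw [vl_2 hA hB] at ft ⊢
    rcases le_total w (3 / 10) with h1 | h1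
    · have :=
          c1_three_2a (x := X) (y := Y) (t := T) (w := w) (A := A) (B := B) (u := u) (v := v) X0
            Y0 T0 w0 A0 B0 u0 v0 (by linarith) (by linarith) (by linarith) (by linarith)
            (by linarith) (by linarith) (by linarith) (by linarith) (by linarith) (by linarith)
            (by linarith) (by linarith) (by linarith) (by linarith) (by linarith) (by linarith)
            (by linarith) (by linarith) (by linarith)
      unfold st nu kk W0 gg ph
      linarith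
    rcases le_total w (1 / 2) with h2 | h2
    · have :=
          c1_three_2b (x := X) (y := Y) (t := T) (w := w) (A := A) (B := B) (u := u) (v := v) X0
            Y0 T0 w0 A0 B0 u0 v0 (by linarith) (by linarith) (by linarith) (by linarith)
            (by linarith) (by linarith) (by linarith) (by linarith) (by linarith) (by linarith)
            (by linarith) (by linarith) (by linarith) (by linarith) (by linarith) (by linarith)
            (by linarith)
      unfold st nu kk W0 gg ph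
      linarith
    · have :=
          c1_three_2c (x := X) (y := Y) (t := T) (w := w) (A := A) (B := B) (u := u) (v := v) X0
            Y0 T0 w0 A0 B0 u0 v0 (by linarith) (by linarith) (by linarith) (by linarith)
            (by linarith) (by linarith) (by linarith) (by linarith) (by linarith) (by linarith)
            (by linarith) (by linarith) (by linarith) (by linarith) (by linarith) (by linarith)
      unfold st nu kk W0 gg ph
      linarith
  · rw [vl_4 hA hB] at ft ⊢
    have :=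
      c1_three_4 (x := X) (y := Y) (t := T) (w := w) (A := A) (B := B) (u := u) (v := v) X0 Y0 T0
        w0 A0 B0 u0 v0 (by linarith) (by linarith) (by linarith) (by linarith) (by linarith)
        (by linarith) (by linarith) (by linarith) (by linarith) (by linarith) (by linarith)
        (by linarith) (by linarith) (by linarith) (by linarith)
    unfold st nu kk W0 gg ph
    linarith

/-- `OL0'`, no own far cell: the gain of one cell -/
theorem lc_one {X Y T w A B : ℝ} (X0 : 0 ≤ X) (X1 : X ≤ 3 / 5) (Y0 : 0 ≤ Y) (Y1 : Y ≤ 3 / 5)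
    (T0 : 0 ≤ T) (T1 : T ≤ 3 / 5) (w0 : 0 ≤ w) (w1 : w ≤ 1) (A0 : 0 ≤ A) (B0 : 0 ≤ B)
    (hi : A + B ≤ 1 + w) (lo : w + 9 / 20 < A + B) :
    LC (nu X) (nu Y) (kk X Y) X Y (W0 X Y) w A B
      (ph w X Y) := by
  refine ⟨fun u v v0 vu u1 hu hv => ?_, fun u v u0 uv v1 hu hv => ?_, fun hb u u0 u1 hu => ?_,
    fun ha v v0 v1 hv => ?_⟩
  · have := f1_one X0 X1 Y0 Y1 w0 w1 A0 B0 hi lo v0 vu u1 hu hv
    linarith
  · have := f1_one Y0 Y1 X0 X1 w0 w1 B0 A0 (by linarith) (by linarith) u0 uv v1 hv hu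
    rw [vl_comm w B A, ol0_kk_comm Y X, ol0_W0_comm Y X, ol0_ph_comm w Y X] at this
    linarith
  · have := f3_one X0 X1 Y0 Y1 w0 w1 A0 B0 hi lo hb u0 u1 hu
    linarith
  · have := f3_one Y0 Y1 X0 X1 w0 w1 B0 A0 (by linarith) (by linarith) ha v0 v1 hv
    rw [vl_comm w B A, ol0_kk_comm Y X, ol0_W0_comm Y X, ol0_ph_comm w Y X] at this
    linarith

/-- `OL0'`, no own far cell: the largest gain -/
theorem lc_top {X Y T w A B : ℝ} (X0 : 0 ≤ X) (X1 : X ≤ 3 / 5) (Y0 : 0 ≤ Y) (Y1 : Y ≤ 3 / 5)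
    (T0 : 0 ≤ T) (T1 : T ≤ 3 / 5) (w0 : 0 ≤ w) (w1 : w ≤ 1) (A0 : 0 ≤ A) (B0 : 0 ≤ B)
    (hi : A + B ≤ 1 + w) (lo : w + 9 / 20 < A + B) :
    LC (nu X) (nu Y) (kk X Y) X Y (W0 X Y) w A B
      (gg X Y T) := by
  have e1 := ol0_top_T (X := X) (Y := Y) X0 Y0 T0 T1
  refine ⟨fun u v v0 vu u1 hu hv => ?_, fun u v u0 uv v1 hu hv => ?_, fun hb u u0 u1 hu => ?_,
    fun ha v v0 v1 hv => ?_⟩
  · have := f1_top X0 X1 Y0 Y1 w0 w1 A0 B0 hi lo v0 vu u1 hu hv
    linarith
  · have := f1_top Y0 Y1 X0 X1 w0 w1 B0 A0 (by linarith) (by linarith) u0 uv v1 hv hu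
    rw [vl_comm w B A, ol0_kk_comm Y X, ol0_W0_comm Y X, ol0_gg_comm Y X 0] at this
    linarith
  · have := f3_top X0 X1 Y0 Y1 w0 w1 A0 B0 hi lo hb u0 u1 hu
    linarith
  · have := f3_top Y0 Y1 X0 X1 w0 w1 B0 A0 (by linarith) (by linarith) ha v0 v1 hv
    rw [vl_comm w B A, ol0_kk_comm Y X, ol0_W0_comm Y X, ol0_gg_comm Y X 0] at this
    linarith

/-- `OL0'`, no own far cell: a cell that supports the column `y` -/
theorem lc_twoy {X Y T w A B : ℝ} (X0 : 0 ≤ X) (X1 : X ≤ 3 / 5) (Y0 : 0 ≤ Y) (Y1 : Y ≤ 3 / 5)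
    (T0 : 0 ≤ T) (T1 : T ≤ 3 / 5) (w0 : 0 ≤ w) (w1 : w ≤ 1) (A0 : 0 ≤ A) (B0 : 0 ≤ B)
    (hi : A + B ≤ 1 + w) (lo : w + 9 / 20 < A + B) (A1 : A ≤ 1) :
    LC (nu X) (nu Y) (kk X Y) X Y (W0 X Y) w A B
      (gg X Y T - ph (1 - A) X T) := by
  have e1 := ol0_two_T (X := X) (Y := Y) X0 Y0 T0 T1 (show 0 ≤ 1 - A by linarith) (by linarith)
  refine ⟨fun u v v0 vu u1 hu hv => ?_, fun u v u0 uv v1 hu hv => ?_, fun hb u u0 u1 hu => ?_,
    fun ha v v0 v1 hv => ?_⟩
  · have := f1_twoy X0 X1 Y0 Y1 w0 w1 A0 B0 hi lo A1 v0 vu u1 hu hv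
    linarith
  · have := f1_twox Y0 Y1 X0 X1 w0 w1 B0 A0 (by linarith) (by linarith) A1 u0 uv v1 hv hu
    rw [vl_comm w B A, ol0_kk_comm Y X, ol0_W0_comm Y X, ol0_gg_comm Y X 0] at this
    linarith
  · have := f3_twoy X0 X1 Y0 Y1 w0 w1 A0 B0 hi lo A1 hb u0 u1 hu
    linarith
  · linarith

/-- `OL0'`, no own far cell: a cell that supports the column `x` -/
theorem lc_twox {X Y T w A B : ℝ} (X0 : 0 ≤ X) (X1 : X ≤ 3 / 5) (Y0 : 0 ≤ Y) (Y1 : Y ≤ 3 / 5)
    (T0 : 0 ≤ T) (T1 : T ≤ 3 / 5) (w0 : 0 ≤ w) (w1 : w ≤ 1) (A0 : 0 ≤ A) (B0 : 0 ≤ B)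
    (hi : A + B ≤ 1 + w) (lo : w + 9 / 20 < A + B) (B1 : B ≤ 1) :
    LC (nu X) (nu Y) (kk X Y) X Y (W0 X Y) w A B
      (gg X Y T - ph (1 - B) Y T) := by
  have e1 := ol0_two_T (X := Y) (Y := X) Y0 X0 T0 T1 (show 0 ≤ 1 - B by linarith) (by linarith)
  rw [ol0_gg_comm Y X T, ol0_gg_comm Y X 0] at e1
  refine ⟨fun u v v0 vu u1 hu hv => ?_, fun u v u0 uv v1 hu hv => ?_, fun hb u u0 u1 hu => ?_,
    fun ha v v0 v1 hv => ?_⟩
  · have := f1_twox X0 X1 Y0 Y1 w0 w1 A0 B0 hi lo B1 v0 vu u1 hu hv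
    linarith
  · have := f1_twoy Y0 Y1 X0 X1 w0 w1 B0 A0 (by linarith) (by linarith) B1 u0 uv v1 hv hu
    rw [vl_comm w B A, ol0_kk_comm Y X, ol0_W0_comm Y X, ol0_gg_comm Y X 0] at this
    linarith
  · linarith
  · have := f3_twoy Y0 Y1 X0 X1 w0 w1 B0 A0 (by linarith) (by linarith) B1 ha v0 v1 hv
    rw [vl_comm w B A, ol0_kk_comm Y X, ol0_W0_comm Y X, ol0_gg_comm Y X 0] at this
    linarith

/-- `OL0'`, no own far cell: a cell that supports both columns -/
theorem lc_three {X Y T w A B : ℝ} (X0 : 0 ≤ X) (X1 : X ≤ 3 / 5) (Y0 : 0 ≤ Y) (Y1 : Y ≤ 3 / 5)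
    (T0 : 0 ≤ T) (T1 : T ≤ 3 / 5) (w0 : 0 ≤ w) (w1 : w ≤ 1) (A0 : 0 ≤ A) (B0 : 0 ≤ B)
    (hi : A + B ≤ 1 + w) (lo : w + 9 / 20 < A + B) (A1 : A ≤ 1) (B1 : B ≤ 1)
    (ft : 3 / 100 < vl w A B) :
    LC (nu X) (nu Y) (kk X Y) X Y (W0 X Y) w A B
      (gg X Y T + 3 / 100 - ph (1 - A) X T - ph (1 - B) Y T) := by
  have ft' : 3 / 100 < vl w B A := by rwa [vl_comm w B A]
  refine ⟨fun u v v0 vu u1 hu hv => ?_, fun u v u0 uv v1 hu hv => ?_, fun hb u u0 u1 hu => ?_,
    fun ha v v0 v1 hv => ?_⟩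
  · have := f1_three X0 X1 Y0 Y1 T0 T1 w0 w1 A0 B0 hi lo A1 B1 ft v0 vu u1 hu hv
    linarith
  · have := f1_three Y0 Y1 X0 X1 T0 T1 w0 w1 B0 A0 (by linarith) (by linarith) B1 A1 ft' u0 uv v1 hv hu
    rw [vl_comm w B A, ol0_kk_comm Y X, ol0_W0_comm Y X, ol0_gg_comm Y X T] at this
    linarith
  · linarith
  · linarith

/-- `OL0'`, no own far cell: a cell that supports a given height in the column `y` -/
theorem lc_capy {X Y T w A B : ℝ} (X0 : 0 ≤ X) (X1 : X ≤ 3 / 5) (Y0 : 0 ≤ Y) (Y1 : Y ≤ 3 / 5)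
    (T0 : 0 ≤ T) (T1 : T ≤ 3 / 5) (w0 : 0 ≤ w) (w1 : w ≤ 1) (A0 : 0 ≤ A) (B0 : 0 ≤ B)
    (hi : A + B ≤ 1 + w) (lo : w + 9 / 20 < A + B) (A1 : A ≤ 1) :
    LC (nu X) (nu Y) (kk X Y) X Y (W0 X Y) w A B
      (bb w (1 - A) X Y) := by
  refine ⟨fun u v v0 vu u1 hu hv => ?_, fun u v u0 uv v1 hu hv => ?_, fun hb u u0 u1 hu => ?_,
    fun ha v v0 v1 hv => ?_⟩
  · have := f1_capy X0 X1 Y0 Y1 w0 w1 A0 B0 hi lo A1 v0 vu u1 hu hv
    linarith
  · have := f1_capx Y0 Y1 X0 X1 w0 w1 B0 A0 (by linarith) (by linarith) A1 u0 uv v1 hv hu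
    rw [vl_comm w B A, ol0_kk_comm Y X, ol0_W0_comm Y X, ol0_bb_comm w (1 - A) Y X] at this
    linarith
  · have := f3_capy X0 X1 Y0 Y1 w0 w1 A0 B0 hi lo A1 hb u0 u1 hu
    linarith
  · linarith

/-- `OL0'`, no own far cell: a cell that supports a given height in the column `x` -/
theorem lc_capx {X Y T w A B : ℝ} (X0 : 0 ≤ X) (X1 : X ≤ 3 / 5) (Y0 : 0 ≤ Y) (Y1 : Y ≤ 3 / 5)
    (T0 : 0 ≤ T) (T1 : T ≤ 3 / 5) (w0 : 0 ≤ w) (w1 : w ≤ 1) (A0 : 0 ≤ A) (B0 : 0 ≤ B)
    (hi : A + B ≤ 1 + w) (lo : w + 9 / 20 < A + B) (B1 : B ≤ 1) :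
    LC (nu X) (nu Y) (kk X Y) X Y (W0 X Y) w A B
      (bb w (1 - B) X Y) := by
  refine ⟨fun u v v0 vu u1 hu hv => ?_, fun u v u0 uv v1 hu hv => ?_, fun hb u u0 u1 hu => ?_,
    fun ha v v0 v1 hv => ?_⟩
  · have := f1_capx X0 X1 Y0 Y1 w0 w1 A0 B0 hi lo B1 v0 vu u1 hu hv
    linarith
  · have := f1_capy Y0 Y1 X0 X1 w0 w1 B0 A0 (by linarith) (by linarith) B1 u0 uv v1 hv hu
    rw [vl_comm w B A, ol0_kk_comm Y X, ol0_W0_comm Y X, ol0_bb_comm w (1 - B) Y X] at this
    linarith
  · linarith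
  · have := f3_capy Y0 Y1 X0 X1 w0 w1 B0 A0 (by linarith) (by linarith) B1 ha v0 v1 hv
    rw [vl_comm w B A, ol0_kk_comm Y X, ol0_W0_comm Y X, ol0_bb_comm w (1 - B) Y X] at this
    linarith

end Pool.Agent.Helper8.TS
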