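import Pool.Agent.Helper83.Cert.RE
import Pool.Agent.Helper83.Cert.Check

/-!
# Certificates of the piece `OL1Ar`: the high main cell, the cycle, the total
-/

set_option linter.unusedVariables false
set_option autoImplicit false
set_option maxRecDepth 100000

namespace Pool.Agent.Helper8.TS.OL1ArC

open Pool.Agent.Helper83.Cert

theorem cyc1 {p q r : ℝ} (hp : 0 ≤ p) (hq : 0 ≤ q) (hr : 0 ≤ r) (kp : 0 ≤ 1 - p) (kq : 0 ≤ 1 - q) (kr : 0 ≤ 1 - r) :
    0 ≤ 3381 / 10000 - 1317 / 5000 * p - 663 / 2500 * q - 5173 / 10000 * r - 141 / 5000 * p ^ 2 + 47 / 400 * p * q + 209 / 10000 * p * r + 23 / 1000 * q ^ 2 + 1511 / 5000 * q * r + 4899 / 10000 * r ^ 2 + 23 / 10000 * p ^ 3 + 11 / 250 * p ^ 2 * q + 499 / 2000 * p ^ 2 * r + 73 / 625 * p * q ^ 2 - 273 / 5000 * p * r ^ 2 - 769 / 10000 * q ^ 3 + 717 / 5000 * q ^ 2 * r - 1057 / 5000 * q * r ^ 2 - 973 / 5000 * r ^ 3 := by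
  exact finE (yv_nonneg hp hq hr (le_refl 0) (le_refl 0) (le_refl 0) (le_refl 0) (le_refl 0) (le_refl 0)) .z (.S (.S (.A (.S (.S (.A (.A (.A (.A (.A (.A (.A (.A (.A (.S (.S (.S (.S (.D (.n 3379) 9998) (.M (.D (.n 1315) 4998) .v0)) (.M (.D (.n 661) 2498) .v1)) (.M (.D (.n 5171) 9998) .v2)) (.M (.D (.n 139) 4998) (.P .v0))) (.M (.M (.D (.n 45) 398) .v0) .v1)) (.M (.M (.D (.n 207) 9998) .v0) .v2)) (.M (.D (.n 21) 998) (.P .v1))) (.M (.M (.D (.n 1509) 4998) .v1) .v2)) (.M (.D (.n 4897) 9998) (.P .v2))) (.M (.D (.n 21) 9998) (.Q .v0))) (.M (.M (.D (.n 9) 248) (.P .v0)) .v1)) (.M (.M (.D (.n 497) 1998) (.P .v0)) .v2)) (.M (.M (.D (.n 71) 623) .v0) (.P .v1))) (.M (.M (.D (.n 271) 4998) .v0) (.P .v2))) (.M (.D (.n 767) 9998) (.Q .v1))) (.M (.M (.D (.n 715) 4998) (.P .v1)) .v2)) (.M (.M (.D (.n 1055) 4998) .v1) (.P .v2))) (.M (.D (.n 971) 4998) (.Q .v2)))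
    [.v0, .v1, .v2, (.S .o .v0), (.S .o .v1), (.S .o .v2)]
    ⟨hp, hq, hr, kp, kq, kr, trivial⟩
    999999 3 0x6083000000000000000006d56b90185100000000000000001b38d7700214400000000000000001d53ef40 16 0x808080808080bbb5c21c0400000000000000000005fb3e020202020202ca7e595c600000000000000000001eec4808080808080e1abbb1c1800000000000000000000909602020202020392a65d0460000000000000000000273118080808080801fde36e41400000000000000000002174e0202020202021b925598500000000000000000000556780808080808065e462911400000000000000000001832202020202020206b2c950300000000000000000005d0988080808080808ba3b2550c0000000000000000000ebc42020202020200df90cf4430000000000000000000018698080808080807fe4b14f0c00000000000000000000164e0202020202012607920440000000000000000000037ce8080808080803431e4a51000000000000000000000a1ea0202020202028b3f8c7040000000000000000000029548080808080803f94e46810000000000000000000005416020202020202c6cb20700000000000000000000002881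 (by decide +kernel)

theorem cyc2 {p q r : ℝ} (hp : 0 ≤ p) (hq : 0 ≤ q) (hr : 0 ≤ r) (kp : 0 ≤ 1 - p) (kq : 0 ≤ 1 - q) (kr : 0 ≤ 1 - r) :
    0 ≤ 347 / 1000 - 99 / 5000 * p - 193 / 1000 * q - 1559 / 5000 * r - 2181 / 10000 * p ^ 2 - 213 / 1000 * p * q - 609 / 2000 * p * r - 1181 / 10000 * q ^ 2 + 2053 / 10000 * q * r + 691 / 2500 * r ^ 2 + 73 / 10000 * p ^ 3 + 2123 / 10000 * p ^ 2 * q + 2013 / 10000 * p ^ 2 * r + 213 / 1000 * p * q ^ 2 + 3279 / 10000 * p * r ^ 2 - 119 / 10000 * q ^ 3 + 559 / 5000 * q ^ 2 * r - 3041 / 10000 * r ^ 3 := by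
  have h := cert (y := yv p q r 0 0 0 0 0 0)
    (gs := [(.v 2),
      (.v 3),
      (.v 5),
      (.add (.c (1)) (.mul (.c (-1)) (.v 2))),
      (.add (.c (1)) (.mul (.c (-1)) (.v 3))),
      (.add (.c (1)) (.mul (.c (-1)) (.v 5)))])
    (p := .mul (.c 1000000) (.add (.add (.add (.add (.c (3470)) (.mul (.c (-198)) (.v 2))) (.add (.mul (.c (-1930)) (.v 3)) (.mul (.c (-2181)) (.mul (.v 2) (.v 2))))) (.add (.add (.mul (.c (-3118)) (.v 5)) (.mul (.c (-2130)) (.mul (.v 2) (.v 3)))) (.add (.mul (.c (73)) (.mul (.mul (.v 2) (.v 2)) (.v 2))) (.add (.mul (.c (-1181)) (.mul (.v 3) (.v 3))) (.mul (.c (-3045)) (.mul (.v 2) (.v 5))))))) (.add (.add (.add (.mul (.c (2123)) (.mul (.mul (.v 2) (.v 2)) (.v 3))) (.mul (.c (2053)) (.mul (.v 3) (.v 5)))) (.add (.mul (.c (2130)) (.mul (.mul (.v 2) (.v 3)) (.v 3))) (.mul (.c (2013)) (.mul (.mul (.v 2) (.v 2)) (.v 5))))) (.add (.add (.mul (.c (2764)) (.mul (.v 5) (.v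 5))) (.mul (.c (-119)) (.mul (.mul (.v 3) (.v 3)) (.v 3)))) (.add (.mul (.c (1118)) (.mul (.mul (.v 3) (.v 3)) (.v 5))) (.add (.mul (.c (3279)) (.mul (.mul (.v 2) (.v 5)) (.v 5))) (.mul (.c (-3041)) (.mul (.mul (.v 5) (.v 5)) (.v 5)))))))))
    (e := (.add (.add (.add (.mul (.g 5) (.add (.add (.add (.mul (.pp [(1, 111088)]) (.sq [(1, -51), (2, -12), (3, 55), (5, 100)])) (.mul (.pp [(1, 116486)]) (.sq [(1, -57), (2, 23), (3, 24), (5, 100)]))) (.add (.mul (.g 4) (.add (.mul (.pp [(1, 10360)]) (.sq [(1, 2), (2, 2), (3, -47), (5, 100)])) (.add (.mul (.pp [(1, 15701)]) (.sq [(1, -41), (2, -41), (3, 100), (5, 100)])) (.mul (.g 3) (.add (.add (.pp [(1, 2543630000)]) (.mul (.g 0) (.pp [(1, 1896970000)]))) (.add (.mul (.g 1) (.pp [(1, 1785490000)])) (.mul (.g 2) (.pp [(1, 2833160000)])))))))) (.mul (.g 0) (.add (.mul (.pp [(1, 55563)]) (.sq [(1, -26), (2, -15), (3, 26), (5, 100)])) (.mul (.pp [(1, 18893)])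 (.sq [(1, -54), (2, 22), (3, 23), (5, 100)])))))) (.add (.add (.mul (.g 1) (.add (.mul (.pp [(1, 39802)]) (.sq [(1, -32), (2, -16), (3, 35), (5, 100)])) (.mul (.pp [(1, 71240)]) (.sq [(1, -63), (2, -6), (3, 62), (5, 100)])))) (.mul (.g 2) (.mul (.pp [(1, 45344)]) (.sq [(1, -14), (2, -9), (3, 19), (5, 50)])))) (.add (.mul (.g 3) (.mul (.pp [(1, 723664)]) (.sq [(2, -7), (5, 25)]))) (.mul (.g 5) (.mul (.pp [(1, 11326)]) (.sq [(1, -52), (2, 19), (3, 22), (5, 100)]))))))) (.mul (.g 0) (.add (.add (.mul (.pp [(1, 9693)]) (.sq [(1, -100), (2, 32), (3, 69), (5, 66)])) (.add (.mul (.pp [(1, 5053)]) (.sq [(1, -100), (2, 43), (3, 60), (5, 64)])) (.mul (.g 1) (.add (.mul (.pp [(1, 6911)]) (.sq [(1, -100), (2, 33), (3, 62), (5, 88)])) (.add (.mul (.pp [(1, 14700)]) (.sq [(1, -100), (2, 55), (3, 41), (5, 67)])) (.mul (.pp [(1, 349908)]) (.sq [(1, -50), (2, 25), (3, 22), (5, 43)]))))))) (.add (.mul (.g 2) (.add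 (.mul (.pp [(1, 17226)]) (.sq [(1, -100), (2, 32), (3, 81), (5, 64)])) (.mul (.pp [(1, 126500)]) (.sq [(1, -50), (2, 16), (3, 36), (5, 33)])))) (.add (.mul (.g 3) (.mul (.pp [(1, 14128)]) (.sq [(1, -100), (2, 57), (3, 64), (5, 51)]))) (.mul (.g 4) (.mul (.pp [(1, 596720)]) (.sq [(1, -25), (2, 7), (3, 22), (5, 16)])))))))) (.add (.mul (.g 1) (.add (.mul (.g 2) (.add (.mul (.pp [(1, 26409)]) (.sq [(1, -100), (2, 75), (3, 32), (5, 62)])) (.add (.mul (.pp [(1, 203505)]) (.sq [(1, -100), (2, 61), (3, 41), (5, 56)])) (.mul (.pp [(1, 63805)]) (.sq [(1, -100), (2, 65), (3, 36), (5, 64)]))))) (.add (.mul (.g 3) (.mul (.pp [(1, 19879)]) (.sq [(1, -100), (2, 94), (3, 35), (5, 56)]))) (.mul (.g 4) (.mul (.pp [(1, 40)]) (.sq [(1, -47), (2, 21), (3, 50), (5, 23)])))))) (.add (.mul (.g 3) (.add (.mul (.g 3) (.add (.mul (.pp [(1, 4481)]) (.sq [(1, -51), (2, 100), (3, 7), (5, 20)])) (.mul (.pp [(1, 99)]) (.sq [(1,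 -16), (2, 100), (3, -11), (5, 14)])))) (.mul (.g 4) (.mul (.pp [(1, 37008)]) (.sq [(1, -2), (2, -29), (3, 50), (5, -2)]))))) (.mul (.g 4) (.add (.mul (.pp [(1, 19392)]) (.sq [(1, -97), (2, 27), (3, 100), (5, 67)])) (.mul (.g 2) (.mul (.pp [(1, 30913)]) (.sq [(1, -99), (2, 27), (3, 100), (5, 61)])))))))) (.pp [(1, 7618988), (2, 96788), (3, 85143), (4, 108026), (5, 72338), (6, 82890), (8, 91396), (9, 114732), (10, 104992), (12, 103547), (15, 125816), (16, 101872), (18, 120510), (20, 99130), (24, 102605), (25, 137210), (27, 91455), (30, 129780), (36, 95548), (40, 101919), (45, 89520), (50, 89838), (54, 96199), (60, 90417), (75, 83082), (81, 100000), (90, 80101), (100, 100206), (125, 81527), (135, 104769), (150, 91666), (225, 101848), (250, 105404), (375, 103317), (625, 100000)])))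
    (by decide +kernel) (yv_nonneg hp hq hr (le_refl 0) (le_refl 0) (le_refl 0) (le_refl 0) (le_refl 0) (le_refl 0))
    (by
      simp only [List.forall_mem_cons, exadd, exsub, exmul, exc, exv2, exv3, exv5]
      push_cast
      refine ⟨?_, ?_, ?_, ?_, ?_, ?_, fun _ hh => absurd hh List.not_mem_nil⟩
      · linarith [hp]
      · linarith [hq]
      · linarith [hr]
      · linarith [kp]
      · linarith [kq]
      · linarith [kr]
    )
  simp only [exadd, exsub, exmul, exc, exv2, exv3, exv5] at h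
  push_cast at h
  linarith [h]

theorem total {x y z : ℝ} (hx : 0 ≤ x) (hy : 0 ≤ y) (hz : 0 ≤ z) (kx : 0 ≤ 3 / 5 - x) (ky : 0 ≤ 3 / 5 - y) (kz : 0 ≤ 3 / 5 - z) (sm : 0 ≤ 9 / 10 - x - y - z) :
    0 ≤ 3 / 2500 - 3 / 1250 * x - 11 / 10000 * y - 3 / 5000 * z + 1269 / 5000 * x ^ 2 + 1603 / 2500 * x * y + 5201 / 10000 * x * z + 1251 / 10000 * y ^ 2 + 1261 / 1000 * y * z + 483 / 10000 * z ^ 2 - 12277 / 30000 * x ^ 3 - 7099 / 10000 * x ^ 2 * y - 5819 / 10000 * x ^ 2 * z - 7099 / 10000 * x * y ^ 2 - 5819 / 10000 * x * z ^ 2 - 6157 / 30000 * y ^ 3 - 2827 / 2000 * y ^ 2 * z - 2827 / 2000 * y * z ^ 2 - 2359 / 30000 * z ^ 3 := by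
  exact finE (yv_nonneg hx hy hz (le_refl 0) (le_refl 0) (le_refl 0) (le_refl 0) (le_refl 0) (le_refl 0)) .z (.S (.S (.S (.S (.S (.S (.S (.S (.S (.A (.A (.A (.A (.A (.A (.S (.S (.S (.D (.n 1) 2498) (.M (.D (.n 1) 1248) .v0)) (.M (.D (.n 9) 9998) .v1)) (.M (.D (.n 1) 4998) .v2)) (.M (.D (.n 1267) 4998) (.P .v0))) (.M (.M (.D (.n 1601) 2498) .v0) .v1)) (.M (.M (.D (.n 5199) 9998) .v0) .v2)) (.M (.D (.n 1249) 9998) (.P .v1))) (.M (.M (.D (.n 1259) 998) .v1) .v2)) (.M (.D (.n 481) 9998) (.P .v2))) (.M (.D (.n 12275) 29998) (.Q .v0))) (.M (.M (.D (.n 7097) 9998) (.P .v0)) .v1)) (.M (.M (.D (.n 5817) 9998) (.P .v0)) .v2)) (.M (.M (.D (.n 7097) 9998) .v0) (.P .v1))) (.M (.M (.D (.n 5817) 9998) .v0) (.P .v2))) (.M (.D (.n 6155) 29998) (.Q .v1))) (.M (.M (.D (.n 2825) 1998) (.P .v1)) .v2)) (.M (.M (.D (.n 2825) 1998) .v1) (.P .v2))) (.M (.D (.n 2357) 29998) (.Q .v2)))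
    [.v0, .v1, .v2, (.S (.D (.n 1) 3) .v0), (.S (.D (.n 1) 3) .v1), (.S (.D (.n 1) 3) .v2), (.S (.S (.S (.D (.n 7) 8) .v0) .v1) .v2)]
    ⟨hx, hy, hz, kx, ky, kz, sm, trivial⟩
    4999999 17 0x30c60000000000000000331898d01831400000000000000000f012fc0608500000000000000000649f470082140000000000000004941519c071c70000000000000000000200b21041c00000000000000000007404030c700000000000000000015f9000c21c00000000000000140bdc1a8020870000000000000000041d15d81c3040000000000000007ce23700060c10000000000000000249ae1501c104000000000000000048d8606040410000000000000002b571aae01c204000000000000000931585c20508100000000000000004fd3f190102040000000000000000cd1d27c03081000000000000005ccb2c0150 2 0x808080808080947d807f18000000000000000000e0c0ba020202020201bf9201d0500000000000000000001a4b1 (by decide +kernel)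

theorem bm_pr {s t c : ℝ} (hs : 0 ≤ s) (ht : 0 ≤ t) (hc : 0 ≤ c) (kt : 0 ≤ 1 - t) (kc : 0 ≤ 1 - c) (st : 0 ≤ -s + t) :
    0 ≤ 2517 / 10000 + 479 / 10000 * s + 479 / 10000 * t - 47 / 400 * c - 23 / 10000 * s ^ 2 - 23 / 10000 * s * t - 11 / 250 * s * c - 23 / 10000 * t ^ 2 - 11 / 250 * t * c - 73 / 625 * c ^ 2 := by
  exact finE (yv_nonneg hs ht hc (le_refl 0) (le_refl 0) (le_refl 0) (le_refl 0) (le_refl 0) (le_refl 0)) .z (.S (.S (.S (.S (.S (.S (.S (.A (.A (.D (.n 2515) 9998) (.M (.D (.n 477) 9998) .v0)) (.M (.D (.n 477) 9998) .v1)) (.M (.D (.n 45) 398) .v2)) (.M (.D (.n 21) 9998) (.P .v0))) (.M (.M (.D (.n 21) 9998) .v0) .v1)) (.M (.M (.D (.n 9) 248) .v0) .v2)) (.M (.D (.n 21) 9998) (.P .v1))) (.M (.M (.D (.n 9) 248) .v1) .v2)) (.M (.D (.n 71) 623) (.P .v2)))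
    [.v0, .v1, .v2, (.S .o .v1), (.S .o .v2), (.A (.N .v0) .v1)]
    ⟨hs, ht, hc, kt, kc, st, trivial⟩
    9 9 0x105000000000000000000005b880031400000000000000000000b684018200000000000000000000009d0050800000000000000000001b2e401020000000000000000000001840060400000000000000000000039c0141000000000000000000001131004040000000000000000000004c40001000000000000000000000053 0 0x0 (by decide +kernel)

theorem bm_ps {s t c : ℝ} (hs : 0 ≤ s) (ht : 0 ≤ t) (hc : 0 ≤ c) (kt : 0 ≤ 1 - t) (kc : 0 ≤ 1 - c) (st : 0 ≤ -s + t) :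
    0 ≤ 539 / 10000 + 123 / 625 * s + 123 / 625 * t + 213 / 1000 * c - 73 / 10000 * s ^ 2 - 73 / 10000 * s * t - 2123 / 10000 * s * c - 73 / 10000 * t ^ 2 - 2123 / 10000 * t * c - 213 / 1000 * c ^ 2 := by
  exact finE (yv_nonneg hs ht hc (le_refl 0) (le_refl 0) (le_refl 0) (le_refl 0) (le_refl 0) (le_refl 0)) .z (.S (.S (.S (.S (.S (.S (.A (.A (.A (.D (.n 537) 9998) (.M (.D (.n 121) 623) .v0)) (.M (.D (.n 121) 623) .v1)) (.M (.D (.n 211) 998) .v2)) (.M (.D (.n 71) 9998) (.P .v0))) (.M (.M (.D (.n 71) 9998) .v0) .v1)) (.M (.M (.D (.n 2121) 9998) .v0) .v2)) (.M (.D (.n 71) 9998) (.P .v1))) (.M (.M (.D (.n 2121) 9998) .v1) .v2)) (.M (.D (.n 211) 998) (.P .v2)))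
    [.v0, .v1, .v2, (.S .o .v1), (.S .o .v2), (.A (.N .v0) .v1)]
    ⟨hs, ht, hc, kt, kc, st, trivial⟩
    9 9 0x84000000000000000000000891000100000000000000000000052c400c6000000000000000000000610002180000000000000000000016d800460000000000000000000002db0041400000000000000000000000800c5000000000000000000005335002140000000000000000000164040045000000000000000000004cdf 0 0x0 (by decide +kernel)

theorem bm_rp {s t c : ℝ} (hs : 0 ≤ s) (ht : 0 ≤ t) (hc : 0 ≤ c) (kt : 0 ≤ 1 - t) (kc : 0 ≤ 1 - c) (st : 0 ≤ -s + t) :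
    0 ≤ 11 / 40 - 1043 / 5000 * s - 1043 / 5000 * t + 609 / 2000 * c + 3041 / 10000 * s ^ 2 + 3041 / 10000 * s * t - 3279 / 10000 * s * c + 3041 / 10000 * t ^ 2 - 3279 / 10000 * t * c - 2013 / 10000 * c ^ 2 := by
  exact finE (yv_nonneg hs ht hc (le_refl 0) (le_refl 0) (le_refl 0) (le_refl 0) (le_refl 0) (le_refl 0)) .z (.S (.S (.A (.S (.A (.A (.A (.S (.S (.D (.n 9) 38) (.M (.D (.n 1041) 4998) .v0)) (.M (.D (.n 1041) 4998) .v1)) (.M (.D (.n 607) 1998) .v2)) (.M (.D (.n 3039) 9998) (.P .v0))) (.M (.M (.D (.n 3039) 9998) .v0) .v1)) (.M (.M (.D (.n 3277) 9998) .v0) .v2)) (.M (.D (.n 3039) 9998) (.P .v1))) (.M (.M (.D (.n 3277) 9998) .v1) .v2)) (.M (.D (.n 2011) 9998) (.P .v2)))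
    [.v0, .v1, .v2, (.S .o .v1), (.S .o .v2), (.A (.N .v0) .v1)]
    ⟨hs, ht, hc, kt, kc, st, trivial⟩
    39999 7 0x186000000000000000001faf6d000610000000000000000002af4e000104000000000000000000abd3800061400000000000000000058b8800105000000000000000003aa84f00031400000000000000001f0e2bc000850000000000000000037e2720 1 0x2020202020201c65251e00000000000000000000035f65 (by decide +kernel)

theorem bm_rs {s t c : ℝ} (hs : 0 ≤ s) (ht : 0 ≤ t) (hc : 0 ≤ c) (kt : 0 ≤ 1 - t) (kc : 0 ≤ 1 - c) (st : 0 ≤ -s + t) :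
    0 ≤ 1271 / 5000 - 29 / 2500 * s - 29 / 2500 * t - 1511 / 5000 * c + 769 / 10000 * s ^ 2 + 769 / 10000 * s * t - 717 / 5000 * s * c + 769 / 10000 * t ^ 2 - 717 / 5000 * t * c + 1057 / 5000 * c ^ 2 := by
  exact finE (yv_nonneg hs ht hc (le_refl 0) (le_refl 0) (le_refl 0) (le_refl 0) (le_refl 0) (le_refl 0)) .z (.A (.S (.A (.S (.A (.A (.S (.S (.S (.D (.n 1269) 4998) (.M (.D (.n 27) 2498) .v0)) (.M (.D (.n 27) 2498) .v1)) (.M (.D (.n 1509) 4998) .v2)) (.M (.D (.n 767) 9998) (.P .v0))) (.M (.M (.D (.n 767) 9998) .v0) .v1)) (.M (.M (.D (.n 715) 4998) .v0) .v2)) (.M (.D (.n 767) 9998) (.P .v1))) (.M (.M (.D (.n 715) 4998) .v1) .v2)) (.M (.D (.n 1055) 4998) (.P .v2)))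
    [.v0, .v1, .v2, (.S .o .v1), (.S .o .v2), (.A (.N .v0) .v1)]
    ⟨hs, ht, hc, kt, kc, st, trivial⟩
    49999 7 0x18600000000000000000075a14800208000000000000000000e8355000410000000000000000003a0d5400514000000000000000017d0487000c50000000000000000020a740c002140000000000000000016f571000450000000000000000005bd5c4 1 0x20202020202013aa6a5dc0000000000000000000003e95 (by decide +kernel)

theorem bm_sp {s t c : ℝ} (hs : 0 ≤ s) (ht : 0 ≤ t) (hc : 0 ≤ c) (kt : 0 ≤ 1 - t) (kc : 0 ≤ 1 - c) (st : 0 ≤ -s + t) :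
    0 ≤ 677 / 2000 - 627 / 5000 * s - 627 / 5000 * t - 209 / 10000 * c + 973 / 5000 * s ^ 2 + 973 / 5000 * s * t + 273 / 5000 * s * c + 973 / 5000 * t ^ 2 + 273 / 5000 * t * c - 499 / 2000 * c ^ 2 := by
  exact finE (yv_nonneg hs ht hc (le_refl 0) (le_refl 0) (le_refl 0) (le_refl 0) (le_refl 0) (le_refl 0)) .z (.S (.A (.A (.A (.A (.A (.S (.S (.S (.D (.n 675) 1998) (.M (.D (.n 625) 4998) .v0)) (.M (.D (.n 625) 4998) .v1)) (.M (.D (.n 207) 9998) .v2)) (.M (.D (.n 971) 4998) (.P .v0))) (.M (.M (.D (.n 971) 4998) .v0) .v1)) (.M (.M (.D (.n 271) 4998) .v0) .v2)) (.M (.D (.n 971) 4998) (.P .v1))) (.M (.M (.D (.n 271) 4998) .v1) .v2)) (.M (.D (.n 497) 1998) (.P .v2)))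
    [.v0, .v1, .v2, (.S .o .v1), (.S .o .v2), (.A (.N .v0) .v1)]
    ⟨hs, ht, hc, kt, kc, st, trivial⟩
    999999 7 0x8200000000000000005a3edff00020400000000000000010206b000004100000000000000005a3edff0006140000000000000001e213414001050000000000000000ae29b950003140000000000000002642f5c400045000000000000000042dfe750 1 0x20202020202015f93915c000000000000000000000a8af (by decide +kernel)

theorem bm_sr {s t c : ℝ} (hs : 0 ≤ s) (ht : 0 ≤ t) (hc : 0 ≤ c) (kt : 0 ≤ 1 - t) (kc : 0 ≤ 1 - c) (st : 0 ≤ -s + t) :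
    0 ≤ 413 / 2000 + 219 / 2000 * s + 219 / 2000 * t - 2053 / 10000 * c + 119 / 10000 * s ^ 2 + 119 / 10000 * s * t - 559 / 5000 * s * c + 119 / 10000 * t ^ 2 - 559 / 5000 * t * c := by
  exact finE (yv_nonneg hs ht hc (le_refl 0) (le_refl 0) (le_refl 0) (le_refl 0) (le_refl 0) (le_refl 0)) .z (.S (.A (.S (.A (.A (.S (.A (.A (.D (.n 411) 1998) (.M (.D (.n 217) 1998) .v0)) (.M (.D (.n 217) 1998) .v1)) (.M (.D (.n 2051) 9998) .v2)) (.M (.D (.n 117) 9998) (.P .v0))) (.M (.M (.D (.n 117) 9998) .v0) .v1)) (.M (.M (.D (.n 557) 4998) .v0) .v2)) (.M (.D (.n 117) 9998) (.P .v1))) (.M (.M (.D (.n 557) 4998) .v1) .v2))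
    [.v0, .v1, .v2, (.S .o .v1), (.S .o .v2), (.A (.N .v0) .v1)]
    ⟨hs, ht, hc, kt, kc, st, trivial⟩
    199999 7 0x820000000000000000013fabf00020400000000000000000452144000410000000000000000013fabf0004140000000000000000623e834000c5000000000000000000079180002140000000000000000970197c0004500000000000000000d30c520 1 0x20202020202015f93915c000000000000000000000011b (by decide +kernel)

theorem one_p_a {t : ℝ} (ht : 0 ≤ t) (kt : 0 ≤ 3 / 5 - t) :
    0 ≤ 16123 / 30000 - 137 / 1000 * t + 467 / 2500 * t ^ 2 - 101 / 2500 * t ^ 3 := by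
  exact finE (yv_nonneg ht (le_refl 0) (le_refl 0) (le_refl 0) (le_refl 0) (le_refl 0) (le_refl 0) (le_refl 0) (le_refl 0)) .z (.S (.A (.S (.D (.n 16121) 29998) (.M (.D (.n 135) 998) .v0)) (.M (.D (.n 465) 2498) (.P .v0))) (.M (.D (.n 99) 2498) (.Q .v0)))
    [.v0, (.S (.D (.n 1) 3) .v0)]
    ⟨ht, kt, trivial⟩
    12499 3 0x1041000000000000000000e671a7082080000000000000000000ec6040082000000000000000000098328 0 0x0 (by decide +kernel)

theorem one_r_a {t : ℝ} (ht : 0 ≤ t) (kt : 0 ≤ 3 / 5 - t) :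
    0 ≤ 4621 / 30000 - 3257 / 10000 * t + 31 / 125 * t ^ 2 - 16 / 625 * t ^ 3 := by
  exact finE (yv_nonneg ht (le_refl 0) (le_refl 0) (le_refl 0) (le_refl 0) (le_refl 0) (le_refl 0) (le_refl 0) (le_refl 0)) .z (.S (.A (.S (.D (.n 4619) 29998) (.M (.D (.n 3255) 9998) .v0)) (.M (.D (.n 29) 123) (.P .v0))) (.M (.D (.n 14) 623) (.Q .v0)))
    [.v0, (.S (.D (.n 1) 3) .v0)]
    ⟨ht, kt, trivial⟩
    2499 3 0x2082000000000000000000003c060020800000000000000000024f7b000020000000000000000000cc46b 0 0x0 (by decide +kernel)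

theorem one_s_a {t : ℝ} (ht : 0 ≤ t) (kt : 0 ≤ 3 / 5 - t) :
    0 ≤ 3979 / 7500 - 2149 / 10000 * t - 179 / 10000 * t ^ 2 + 1193 / 10000 * t ^ 3 := by
  exact finE (yv_nonneg ht (le_refl 0) (le_refl 0) (le_refl 0) (le_refl 0) (le_refl 0) (le_refl 0) (le_refl 0) (le_refl 0)) .z (.A (.S (.S (.D (.n 3977) 7498) (.M (.D (.n 2147) 9998) .v0)) (.M (.D (.n 177) 9998) (.P .v0))) (.M (.D (.n 1191) 9998) (.Q .v0)))
    [.v0, (.S (.D (.n 1) 3) .v0)]
    ⟨ht, kt, trivial⟩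
    2499 3 0x10820000000000000000000575ee0020800000000000000000016ee880002000000000000000000189edf 0 0x0 (by decide +kernel)

theorem one_p_d {t : ℝ} (ht : 0 ≤ t) (lt : 0 ≤ -3 / 5 + t) (kt : 0 ≤ 1 - t) :
    0 ≤ 18283 / 30000 - 497 / 1000 * t + 1967 / 2500 * t ^ 2 - 2803 / 7500 * t ^ 3 := by
  exact finE (yv_nonneg ht (le_refl 0) (le_refl 0) (le_refl 0) (le_refl 0) (le_refl 0) (le_refl 0) (le_refl 0) (le_refl 0)) .z (.S (.A (.S (.D (.n 18281) 29998) (.M (.D (.n 495) 998) .v0)) (.M (.D (.n 1965) 2498) (.P .v0))) (.M (.D (.n 2801) 7498) (.Q .v0)))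
    [.v0, (.A (.D (.N (.n 1)) 3) .v0), (.S .o .v0)]
    ⟨ht, lt, kt, trivial⟩
    2499 3 0x3042000000000000000000297af20c20800000000000000000023400c0082000000000000000000035ae7 0 0x0 (by decide +kernel)

theorem one_r_d {t : ℝ} (ht : 0 ≤ t) (lt : 0 ≤ -3 / 5 + t) (kt : 0 ≤ 1 - t) :
    0 ≤ 6781 / 30000 - 6857 / 10000 * t + 106 / 125 * t ^ 2 - 673 / 1875 * t ^ 3 := by
  exact finE (yv_nonneg ht (le_refl 0) (le_refl 0) (le_refl 0) (le_refl 0) (le_refl 0) (le_refl 0) (le_refl 0) (le_refl 0)) .z (.S (.A (.S (.D (.n 6779) 29998) (.M (.D (.n 6855) 9998) .v0)) (.M (.D (.n 104) 123) (.P .v0))) (.M (.D (.n 671) 1873) (.Q .v0)))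
    [.v0, (.A (.D (.N (.n 1)) 3) .v0), (.S .o .v0)]
    ⟨ht, lt, kt, trivial⟩
    499 3 0x30c30000000000000000002cbe420810c0000000000000000001dee0c00030000000000000000000044f7 0 0x0 (by decide +kernel)

theorem one_s_d {t : ℝ} (ht : 0 ≤ t) (lt : 0 ≤ -3 / 5 + t) (kt : 0 ≤ 1 - t) :
    0 ≤ 4519 / 7500 - 5749 / 10000 * t + 5821 / 10000 * t ^ 2 - 6421 / 30000 * t ^ 3 := by
  exact finE (yv_nonneg ht (le_refl 0) (le_refl 0) (le_refl 0) (le_refl 0) (le_refl 0) (le_refl 0) (le_refl 0) (le_refl 0)) .z (.S (.A (.S (.D (.n 4517) 7498) (.M (.D (.n 5747) 9998) .v0)) (.M (.D (.n 5819) 9998) (.P .v0))) (.M (.D (.n 6419) 29998) (.Q .v0)))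
    [.v0, (.A (.D (.N (.n 1)) 3) .v0), (.S .o .v0)]
    ⟨ht, lt, kt, trivial⟩
    249 3 0x30c30000000000000000001396650810c00000000000000000003ed240003000000000000000000041613 0 0x0 (by decide +kernel)

theorem zy_b {v x : ℝ} (hv : 0 ≤ v) (hx : 0 ≤ x) (kt : 0 ≤ 3 / 5 - v - x) :
    0 ≤ 4453 / 30000 - 71 / 200 * v - 1429 / 10000 * x + 2543 / 5000 * v ^ 2 + 591 / 2000 * v * x + 331 / 2000 * x ^ 2 - 3041 / 10000 * v ^ 3 + 3279 / 10000 * v ^ 2 * x + 2013 / 10000 * v * x ^ 2 - 101 / 2500 * x ^ 3 := by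
  exact finE (yv_nonneg hv hx (le_refl 0) (le_refl 0) (le_refl 0) (le_refl 0) (le_refl 0) (le_refl 0) (le_refl 0)) .z (.S (.A (.A (.S (.A (.A (.A (.S (.S (.D (.n 4451) 29998) (.M (.D (.n 69) 198) .v0)) (.M (.D (.n 1427) 9998) .v1)) (.M (.D (.n 2541) 4998) (.P .v0))) (.M (.M (.D (.n 589) 1998) .v0) .v1)) (.M (.D (.n 329) 1998) (.P .v1))) (.M (.D (.n 3039) 9998) (.Q .v0))) (.M (.M (.D (.n 3277) 9998) (.P .v0)) .v1)) (.M (.M (.D (.n 2011) 9998) .v0) (.P .v1))) (.M (.D (.n 99) 2498) (.Q .v1)))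
    [.v0, .v1, (.S (.S (.D (.n 1) 3) .v0) .v1)]
    ⟨hv, hx, kt, trivial⟩
    12499 9 0x1043000000000000000000e8822b0c30c000000000000000000127b9c00c30000000000000000002eeb6d0c3080000000000000000016c99441042000000000000000009bcc4ed0c20800000000000000000609e790108200000000000000000103746900208000000000000000004d56d400002000000000000000001894c92 0 0x0 (by decide +kernel)

theorem zy_c {v x : ℝ} (hv : 0 ≤ v) (hx : 0 ≤ x) (lt : 0 ≤ -3 / 5 + v + x) (kt : 0 ≤ 1 - v - x) :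
    0 ≤ -8507 / 30000 + 29 / 40 * v + 9371 / 10000 * x - 207 / 5000 * v ^ 2 - 1609 / 2000 * v * x - 769 / 2000 * x ^ 2 - 11623 / 30000 * v ^ 3 + 779 / 10000 * v ^ 2 * x - 487 / 10000 * v * x ^ 2 - 232 / 1875 * x ^ 3 := by
  exact finE (yv_nonneg hv hx (le_refl 0) (le_refl 0) (le_refl 0) (le_refl 0) (le_refl 0) (le_refl 0) (le_refl 0)) .z (.S (.S (.A (.S (.S (.S (.S (.A (.A (.D (.N (.n 8505)) 29998) (.M (.D (.n 27) 38) .v0)) (.M (.D (.n 9369) 9998) .v1)) (.M (.D (.n 205) 4998) (.P .v0))) (.M (.M (.D (.n 1607) 1998) .v0) .v1)) (.M (.D (.n 767) 1998) (.P .v1))) (.M (.D (.n 11621) 29998) (.Q .v0))) (.M (.M (.D (.n 777) 9998) (.P .v0)) .v1)) (.M (.M (.D (.n 485) 9998) .v0) (.P .v1))) (.M (.D (.n 230) 1873) (.Q .v1)))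
    [.v0, .v1, (.A (.A (.D (.N (.n 1)) 3) .v0) .v1), (.S (.S .o .v0) .v1)]
    ⟨hv, hx, lt, kt, trivial⟩
    499 9 0x20820000000000000000001e5f6408210000000000000000001cbaefc40c40000000000000000000b3ec2003100000000000000000002d64a431010000000000000000001cfb1b0040400000000000000000099964830810000000000000000000ffff904204000000000000000000ebd70000810000000000000000004c44ab 0 0x0 (by decide +kernel)

theorem yz_b {v x : ℝ} (hv : 0 ≤ v) (hx : 0 ≤ x) (kt : 0 ≤ 3 / 5 - v - x) :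
    0 ≤ 4537 / 30000 - 3317 / 10000 * v - 3767 / 10000 * x + 2521 / 10000 * v ^ 2 + 287 / 400 * v * x + 1297 / 5000 * x ^ 2 + 23 / 10000 * v ^ 3 + 11 / 250 * v ^ 2 * x + 73 / 625 * v * x ^ 2 - 16 / 625 * x ^ 3 := by
  exact finE (yv_nonneg hv hx (le_refl 0) (le_refl 0) (le_refl 0) (le_refl 0) (le_refl 0) (le_refl 0) (le_refl 0)) .z (.S (.A (.A (.A (.A (.A (.A (.S (.S (.D (.n 4535) 29998) (.M (.D (.n 3315) 9998) .v0)) (.M (.D (.n 3765) 9998) .v1)) (.M (.D (.n 2519) 9998) (.P .v0))) (.M (.M (.D (.n 285) 398) .v0) .v1)) (.M (.D (.n 1295) 4998) (.P .v1))) (.M (.D (.n 21) 9998) (.Q .v0))) (.M (.M (.D (.n 9) 248) (.P .v0)) .v1)) (.M (.M (.D (.n 71) 623) .v0) (.P .v1))) (.M (.D (.n 14) 623) (.Q .v1)))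
    [.v0, .v1, (.S (.S (.D (.n 1) 3) .v0) .v1)]
    ⟨hv, hx, kt, trivial⟩
    249 9 0x20810000000000000000000b863200204000000000000000000702984000100000000000000000005cc4c0820c00000000000000000005f3e80043000000000000000000004b300830c00000000000000000000b8bc10c30000000000000000000002af0030c00000000000000000004e6b4000300000000000000000001985d 0 0x0 (by decide +kernel)

theorem yz_c {v x : ℝ} (hv : 0 ≤ v) (hx : 0 ≤ x) (lt : 0 ≤ -3 / 5 + v + x) (kt : 0 ≤ 1 - v - x) :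
    0 ≤ -8423 / 30000 + 7483 / 10000 * v + 7033 / 10000 * x - 2979 / 10000 * v ^ 2 - 153 / 400 * v * x - 1453 / 5000 * x ^ 2 - 2431 / 30000 * v ^ 3 - 103 / 500 * v ^ 2 * x - 333 / 2500 * v * x ^ 2 - 817 / 7500 * x ^ 3 := by
  exact finE (yv_nonneg hv hx (le_refl 0) (le_refl 0) (le_refl 0) (le_refl 0) (le_refl 0) (le_refl 0) (le_refl 0)) .z (.S (.S (.S (.S (.S (.S (.S (.A (.A (.D (.N (.n 8421)) 29998) (.M (.D (.n 7481) 9998) .v0)) (.M (.D (.n 7031) 9998) .v1)) (.M (.D (.n 2977) 9998) (.P .v0))) (.M (.M (.D (.n 151) 398) .v0) .v1)) (.M (.D (.n 1451) 4998) (.P .v1))) (.M (.D (.n 2429) 29998) (.Q .v0))) (.M (.M (.D (.n 101) 498) (.P .v0)) .v1)) (.M (.M (.D (.n 331) 2498) .v0) (.P .v1))) (.M (.D (.n 815) 7498) (.Q .v1)))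
    [.v0, .v1, (.A (.A (.D (.N (.n 1)) 3) .v0) .v1), (.S (.S .o .v0) .v1)]
    ⟨hv, hx, lt, kt, trivial⟩
    2499 9 0x310300000000000000000004fcad0040c000000000000000001e57d8c000300000000000000000005ac3f1040400000000000000000010b55810410000000000000000001bc07e08204000000000000000003659d18108100000000000000000081e9d000204000000000000000003af09f800010000000000000000002f5242 0 0x0 (by decide +kernel)

theorem zo_b {t : ℝ} (ht : 0 ≤ t) (kt : 0 ≤ 3 / 5 - t) :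
    0 ≤ 4501 / 30000 - 3657 / 10000 * t + 31 / 125 * t ^ 2 - 16 / 625 * t ^ 3 := by
  exact finE (yv_nonneg ht (le_refl 0) (le_refl 0) (le_refl 0) (le_refl 0) (le_refl 0) (le_refl 0) (le_refl 0) (le_refl 0)) .z (.S (.A (.S (.D (.n 4499) 29998) (.M (.D (.n 3655) 9998) .v0)) (.M (.D (.n 29) 123) (.P .v0))) (.M (.D (.n 14) 623) (.Q .v0)))
    [.v0, (.S (.D (.n 1) 3) .v0)]
    ⟨ht, kt, trivial⟩
    2499 3 0x2082000000000000000000003c060020800000000000000000024f7b0000200000000000000000015ec2b 0 0x0 (by decide +kernel)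

theorem zo_c {t : ℝ} (ht : 0 ≤ t) (lt : 0 ≤ -3 / 5 + t) (kt : 0 ≤ 1 - t) :
    0 ≤ -8459 / 30000 + 7143 / 10000 * t - 151 / 500 * t ^ 2 - 817 / 7500 * t ^ 3 := by
  exact finE (yv_nonneg ht (le_refl 0) (le_refl 0) (le_refl 0) (le_refl 0) (le_refl 0) (le_refl 0) (le_refl 0) (le_refl 0)) .z (.S (.S (.A (.D (.N (.n 8457)) 29998) (.M (.D (.n 7141) 9998) .v0)) (.M (.D (.n 149) 498) (.P .v0))) (.M (.D (.n 815) 7498) (.Q .v0)))
    [.v0, (.A (.D (.N (.n 1)) 3) .v0), (.S .o .v0)]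
    ⟨ht, lt, kt, trivial⟩
    499 3 0x10c200000000000000000004fcad00308000000000000000000573774000200000000000000000000cd9b 0 0x0 (by decide +kernel)

theorem oz_b {t : ℝ} (ht : 0 ≤ t) (kt : 0 ≤ 3 / 5 - t) :
    0 ≤ 4501 / 30000 - 2549 / 10000 * t - 179 / 10000 * t ^ 2 + 1193 / 10000 * t ^ 3 := by
  exact finE (yv_nonneg ht (le_refl 0) (le_refl 0) (le_refl 0) (le_refl 0) (le_refl 0) (le_refl 0) (le_refl 0) (le_refl 0)) .z (.A (.S (.S (.D (.n 4499) 29998) (.M (.D (.n 2547) 9998) .v0)) (.M (.D (.n 177) 9998) (.P .v0))) (.M (.D (.n 1191) 9998) (.Q .v0)))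
    [.v0, (.S (.D (.n 1) 3) .v0)]
    ⟨ht, kt, trivial⟩
    2499 3 0x10820000000000000000000575ee0020800000000000000000016ee88000200000000000000000021c69f 0 0x0 (by decide +kernel)

theorem oz_c {t : ℝ} (ht : 0 ≤ t) (lt : 0 ≤ -3 / 5 + t) (kt : 0 ≤ 1 - t) :
    0 ≤ -8459 / 30000 + 8251 / 10000 * t - 5679 / 10000 * t ^ 2 + 1079 / 30000 * t ^ 3 := by
  exact finE (yv_nonneg ht (le_refl 0) (le_refl 0) (le_refl 0) (le_refl 0) (le_refl 0) (le_refl 0) (le_refl 0) (le_refl 0)) .z (.A (.S (.A (.D (.N (.n 8457)) 29998) (.M (.D (.n 8249) 9998) .v0)) (.M (.D (.n 5677) 9998) (.P .v0))) (.M (.D (.n 1077) 29998) (.Q .v0)))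
    [.v0, (.A (.D (.N (.n 1)) 3) .v0), (.S .o .v0)]
    ⟨ht, lt, kt, trivial⟩
    499 3 0x10430000000000000000000852b40c20c0000000000000000000d3e000083000000000000000000130dd3 0 0x0 (by decide +kernel)

theorem yo_b {t : ℝ} (ht : 0 ≤ t) (kt : 0 ≤ 3 / 5 - t) :
    0 ≤ 16003 / 30000 - 177 / 1000 * t + 467 / 2500 * t ^ 2 - 101 / 2500 * t ^ 3 := by
  exact finE (yv_nonneg ht (le_refl 0) (le_refl 0) (le_refl 0) (le_refl 0) (le_refl 0) (le_refl 0) (le_refl 0) (le_refl 0)) .z (.S (.A (.S (.D (.n 16001) 29998) (.M (.D (.n 175) 998) .v0)) (.M (.D (.n 465) 2498) (.P .v0))) (.M (.D (.n 99) 2498) (.Q .v0)))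
    [.v0, (.S (.D (.n 1) 3) .v0)]
    ⟨ht, kt, trivial⟩
    12499 3 0x104100000000000000000012843c0820800000000000000000007fde8008200000000000000000018c56d 0 0x0 (by decide +kernel)

theorem yo_c {t : ℝ} (ht : 0 ≤ t) (lt : 0 ≤ -3 / 5 + t) (kt : 0 ≤ 1 - t) :
    0 ≤ 3043 / 30000 + 903 / 1000 * t - 227 / 625 * t ^ 2 - 232 / 1875 * t ^ 3 := by
  exact finE (yv_nonneg ht (le_refl 0) (le_refl 0) (le_refl 0) (le_refl 0) (le_refl 0) (le_refl 0) (le_refl 0) (le_refl 0)) .z (.S (.S (.A (.D (.n 3041) 29998) (.M (.D (.n 901) 998) .v0)) (.M (.D (.n 225) 623) (.P .v0))) (.M (.D (.n 230) 1873) (.Q .v0)))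
    [.v0, (.A (.D (.N (.n 1)) 3) .v0), (.S .o .v0)]
    ⟨ht, lt, kt, trivial⟩
    499 3 0x10c200000000000000000005aa1d0030800000000000000000066c234000200000000000000000003a17f 0 0x0 (by decide +kernel)

theorem oy_b {t : ℝ} (ht : 0 ≤ t) (kt : 0 ≤ 3 / 5 - t) :
    0 ≤ 16003 / 30000 - 2549 / 10000 * t - 179 / 10000 * t ^ 2 + 1193 / 10000 * t ^ 3 := by
  exact finE (yv_nonneg ht (le_refl 0) (le_refl 0) (le_refl 0) (le_refl 0) (le_refl 0) (le_refl 0) (le_refl 0) (le_refl 0)) .z (.A (.S (.S (.D (.n 16001) 29998) (.M (.D (.n 2547) 9998) .v0)) (.M (.D (.n 177) 9998) (.P .v0))) (.M (.D (.n 1191) 9998) (.Q .v0)))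
    [.v0, (.S (.D (.n 1) 3) .v0)]
    ⟨ht, kt, trivial⟩
    2499 3 0x10820000000000000000000575ee0020800000000000000000016ee88000200000000000000000021c69f 0 0x0 (by decide +kernel)

theorem oy_c {t : ℝ} (ht : 0 ≤ t) (lt : 0 ≤ -3 / 5 + t) (kt : 0 ≤ 1 - t) :
    0 ≤ 3043 / 30000 + 8251 / 10000 * t - 5679 / 10000 * t ^ 2 + 1079 / 30000 * t ^ 3 := by
  exact finE (yv_nonneg ht (le_refl 0) (le_refl 0) (le_refl 0) (le_refl 0) (le_refl 0) (le_refl 0) (le_refl 0) (le_refl 0)) .z (.A (.S (.A (.D (.n 3041) 29998) (.M (.D (.n 8249) 9998) .v0)) (.M (.D (.n 5677) 9998) (.P .v0))) (.M (.D (.n 1077) 29998) (.Q .v0)))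
    [.v0, (.A (.D (.N (.n 1)) 3) .v0), (.S .o .v0)]
    ⟨ht, lt, kt, trivial⟩
    499 3 0x10430000000000000000000852b40c20c0000000000000000000d3e000083000000000000000000130dd3 0 0x0 (by decide +kernel)

theorem tzy {u x v : ℝ} (hu : 0 ≤ u) (hx : 0 ≤ x) (hv : 0 ≤ v) (lt : 0 ≤ -1 / 5 + u + x + v) (kt : 0 ≤ 1 - u - x - v) :
    0 ≤ 1253 / 30000 + 9 / 40 * u + 4371 / 10000 * x + 3251 / 10000 * v + 629 / 15000 * u ^ 2 - 3827 / 6000 * u * x - 1 / 3 * u * v - 1807 / 6000 * x ^ 2 - 1 / 3 * x * v - 14537 / 30000 * v ^ 2 - 3041 / 10000 * u ^ 3 + 3279 / 10000 * u ^ 2 * x + 2013 / 10000 * u * x ^ 2 - 101 / 2500 * x ^ 3 + 1193 / 10000 * v ^ 3 := by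
  exact finE (yv_nonneg hu hx hv (le_refl 0) (le_refl 0) (le_refl 0) (le_refl 0) (le_refl 0) (le_refl 0)) .z (.A (.S (.A (.A (.S (.S (.S (.S (.S (.S (.A (.A (.A (.A (.D (.n 1251) 29998) (.M (.D (.n 7) 38) .v0)) (.M (.D (.n 4369) 9998) .v1)) (.M (.D (.n 3249) 9998) .v2)) (.M (.D (.n 627) 14998) (.P .v0))) (.M (.M (.D (.n 3825) 5998) .v0) .v1)) (.M (.M (.D .o 1) .v0) .v2)) (.M (.D (.n 1805) 5998) (.P .v1))) (.M (.M (.D .o 1) .v1) .v2)) (.M (.D (.n 14535) 29998) (.P .v2))) (.M (.D (.n 3039) 9998) (.Q .v0))) (.M (.M (.D (.n 3277) 9998) (.P .v0)) .v1)) (.M (.M (.D (.n 2011) 9998) .v0) (.P .v1))) (.M (.D (.n 99) 2498) (.Q .v1))) (.M (.D (.n 1191) 9998) (.Q .v2)))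
    [.v0, .v1, .v2, (.A (.A (.A (.D (.N .o) 3) .v0) .v1) .v2), (.S (.S (.S .o .v0) .v1) .v2)]
    ⟨hu, hx, hv, lt, kt, trivial⟩
    499 19 0x1050000000000000000000b42c7143140000000000000000006d3698000500000000000000000014760c145080000000000000000005783e821420000000000000000001f20c01430800000000000000000131f37020c2000000000000000000248d6c00308000000000000000000e8c12800020000000000000000001f0f2c04504000000000000000001166bc8014100000000000000000003b4a2102040000000000000000001ac0e81081000000000000000000595524002040000000000000000005313a850c100000000000000000037521c0c30400000000000000000002d8e810c1000000000000000000619ed2003040000000000000000009d36e0000100000000000000000000afc8 0 0x0 (by decide +kernel)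

theorem tyz {u x v : ℝ} (hu : 0 ≤ u) (hx : 0 ≤ x) (hv : 0 ≤ v) (lt : 0 ≤ -1 / 5 + u + x + v) (kt : 0 ≤ 1 - u - x - v) :
    0 ≤ 1337 / 30000 + 2483 / 10000 * u + 2033 / 10000 * x + 3251 / 10000 * v - 6437 / 30000 * u ^ 2 - 259 / 1200 * u * x - 1 / 3 * u * v - 3109 / 15000 * x ^ 2 - 1 / 3 * x * v - 14537 / 30000 * v ^ 2 + 23 / 10000 * u ^ 3 + 11 / 250 * u ^ 2 * x + 73 / 625 * u * x ^ 2 - 16 / 625 * x ^ 3 + 1193 / 10000 * v ^ 3 := by
  exact finE (yv_nonneg hu hx hv (le_refl 0) (le_refl 0) (le_refl 0) (le_refl 0) (le_refl 0) (le_refl 0)) .z (.A (.S (.A (.A (.A (.S (.S (.S (.S (.S (.S (.A (.A (.A (.D (.n 1335) 29998) (.M (.D (.n 2481) 9998) .v0)) (.M (.D (.n 2031) 9998) .v1)) (.M (.D (.n 3249) 9998) .v2)) (.M (.D (.n 6435) 29998) (.P .v0))) (.M (.M (.D (.n 257) 1198) .v0) .v1)) (.M (.M (.D .o 1) .v0) .v2)) (.M (.D (.n 3107) 14998) (.P .v1))) (.M (.M (.D .o 1) .v1) .v2)) (.M (.D (.n 14535) 29998)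 (.P .v2))) (.M (.D (.n 21) 9998) (.Q .v0))) (.M (.M (.D (.n 9) 248) (.P .v0)) .v1)) (.M (.M (.D (.n 71) 623) .v0) (.P .v1))) (.M (.D (.n 14) 623) (.Q .v1))) (.M (.D (.n 1191) 9998) (.Q .v2)))
    [.v0, .v1, .v2, (.A (.A (.A (.D (.N .o) 3) .v0) .v1) .v2), (.S (.S (.S .o .v0) .v1) .v2)]
    ⟨hu, hx, hv, lt, kt, trivial⟩
    499 19 0x20c2000000000000000000212a3c00308000000000000000000853c980002000000000000000000026d181431400000000000000000084a8f04105000000000000000000003c06004140000000000000000002a3ad4308500000000000000000030bf4c002140000000000000000000b71b000050000000000000000001385ee145040000000000000000000910501041000000000000000000041eb014304000000000000000000cc0d8010c10000000000000000001ee6280030400000000000000000082db384081000000000000000000049fd40c204000000000000000000a3c758208100000000000000000012edb400204000000000000000000cf1ae800010000000000000000000d5228 0 0x0 (by decide +kernel)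

end Pool.Agent.Helper8.TS.OL1ArC
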