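import Pool.Agent.Helper83.Cert.RE
import Pool.Agent.Helper83.Cert.Check

/-!
# Certificates of the piece `OL1Br`: the high main cell, the cycle, the total
-/

set_option linter.unusedVariables false
set_option autoImplicit false
set_option maxRecDepth 100000

namespace Pool.Agent.Helper8.TS.OL1BrC

open Pool.Agent.Helper83.Cert

theorem cyc1 {p q r : ℝ} (hp : 0 ≤ p) (hq : 0 ≤ q) (hr : 0 ≤ r) (kp : 0 ≤ 1 - p) (kq : 0 ≤ 1 - q) (kr : 0 ≤ 1 - r) :
    0 ≤ 18209 / 50000 - 13883 / 50000 * p - 11647 / 50000 * q - 12741 / 50000 * r - 1863 / 100000 * p ^ 2 + 10013 / 100000 * p * q - 6457 / 100000 * p * r - 1853 / 12500 * q ^ 2 + 4251 / 50000 * q * r - 11189 / 100000 * r ^ 2 + 223 / 20000 * p ^ 3 - 361 / 100000 * p ^ 2 * q + 17877 / 100000 * p ^ 2 * r + 18859 / 100000 * p * q ^ 2 + 369 / 4000 * p * r ^ 2 + 189 / 10000 * q ^ 3 + 19003 / 100000 * q ^ 2 * r + 327 / 20000 * q * r ^ 2 + 11231 / 100000 * r ^ 3 := by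
  have h := cert (y := yv p q r 0 0 0 0 0 0)
    (gs := [(.v 2),
      (.v 3),
      (.v 5),
      (.add (.c (1)) (.mul (.c (-1)) (.v 2))),
      (.add (.c (1)) (.mul (.c (-1)) (.v 3))),
      (.add (.c (1)) (.mul (.c (-1)) (.v 5)))])
    (p := .mul (.c 100000) (.add (.add (.add (.add (.c (36418)) (.mul (.c (-27766)) (.v 2))) (.add (.mul (.c (-23294)) (.v 3)) (.mul (.c (-1863)) (.mul (.v 2) (.v 2))))) (.add (.add (.mul (.c (-25482)) (.v 5)) (.mul (.c (10013)) (.mul (.v 2) (.v 3)))) (.add (.mul (.c (1115)) (.mul (.mul (.v 2) (.v 2)) (.v 2))) (.add (.mul (.c (-14824)) (.mul (.v 3) (.v 3))) (.mul (.c (-6457)) (.mul (.v 2) (.v 5))))))) (.add (.add (.add (.mul (.c (-361)) (.mul (.mul (.v 2) (.v 2)) (.v 3))) (.mul (.c (8502)) (.mul (.v 3) (.v 5)))) (.add (.mul (.c (18859)) (.mul (.mul (.v 2) (.v 3)) (.v 3))) (.add (.mul (.c (17877)) (.mul (.mul (.v 2) (.v 2)) (.v 5))) (.mul (.c (-11189)) (.mul (.v 5) (.v 5))))))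 (.add (.add (.mul (.c (1890)) (.mul (.mul (.v 3) (.v 3)) (.v 3))) (.mul (.c (19003)) (.mul (.mul (.v 3) (.v 3)) (.v 5)))) (.add (.mul (.c (9225)) (.mul (.mul (.v 2) (.v 5)) (.v 5))) (.add (.mul (.c (1635)) (.mul (.mul (.v 3) (.v 5)) (.v 5))) (.mul (.c (11231)) (.mul (.mul (.v 5) (.v 5)) (.v 5)))))))))
    (e := (.add (.add (.add (.mul (.g 4) (.add (.add (.mul (.g 3) (.add (.add (.mul (.pp [(1, 21014)]) (.sq [(1, -58), (2, 100), (3, 63), (5, -58)])) (.mul (.pp [(1, 33945)]) (.sq [(1, -3), (2, -3), (3, 100), (5, -3)]))) (.add (.mul (.g 3) (.add (.mul (.g 1) (.pp [(1, 28910000)])) (.add (.mul (.g 3) (.pp [(1, 30220000)])) (.mul (.g 5) (.pp [(1, 29800000)]))))) (.mul (.g 5) (.add (.mul (.g 1) (.pp [(1, 1444340000)])) (.mul (.g 5) (.pp [(1, 2010040000)]))))))) (.mul (.g 4) (.add (.add (.mul (.pp [(1, 47337)]) (.sq [(1, -100), (2, 41), (3, 26), (5, 88)])) (.mul (.pp [(1, 9039)]) (.sq [(1, 23), (2, -7), (3, 100),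 (5, -80)]))) (.add (.mul (.pp [(1, 30973)]) (.sq [(1, -13), (2, -9), (3, 100), (5, -6)])) (.mul (.pp [(1, 81638)]) (.sq [(1, -100), (2, 70), (3, -4), (5, 47)])))))) (.add (.mul (.g 1) (.add (.mul (.pp [(1, 175558)]) (.sq [(1, -100), (2, 52), (3, 46), (5, 61)])) (.mul (.pp [(1, 6476)]) (.sq [(1, -80), (2, 76), (3, -100), (5, 75)])))) (.add (.mul (.g 2) (.add (.mul (.pp [(1, 26395)]) (.sq [(1, -98), (2, 82), (3, -100), (5, 63)])) (.mul (.pp [(1, 18998)]) (.sq [(1, -100), (2, 60), (3, 9), (5, 76)])))) (.mul (.g 5) (.mul (.pp [(1, 24295)]) (.sq [(1, -43), (2, -43), (3, 100), (5, 81)]))))))) (.mul (.g 0) (.add (.add (.mul (.pp [(1, 59702)]) (.sq [(1, -100), (2, 40), (3, 56), (5, 69)])) (.add (.mul (.g 0) (.add (.mul (.pp [(1, 3587)]) (.sq [(1, -100), (2, 88), (3, 30), (5, 21)])) (.mul (.pp [(1, 19942)]) (.sq [(1, -100), (2, 51), (3, 39), (5, 71)])))) (.mul (.g 1) (.add (.mul (.pp [(1, 9567)]) (.sq [(1, -100),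 (2, 25), (3, 86), (5, 89)])) (.mul (.pp [(1, 39485)]) (.sq [(1, -100), (2, 32), (3, 81), (5, 66)])))))) (.add (.mul (.g 2) (.add (.mul (.pp [(1, 263212)]) (.sq [(1, -50), (2, 16), (3, 23), (5, 44)])) (.mul (.pp [(1, 28320)]) (.sq [(1, 46), (2, -35), (3, 50), (5, -44)])))) (.add (.mul (.g 3) (.mul (.pp [(1, 61534)]) (.sq [(1, -100), (2, 36), (3, 87), (5, 45)]))) (.mul (.g 5) (.mul (.pp [(1, 11712)]) (.sq [(1, -49), (2, 5), (3, 45), (5, 50)])))))))) (.add (.mul (.g 2) (.add (.add (.mul (.pp [(1, 340836)]) (.sq [(1, -50), (2, 29), (3, 29), (5, 29)])) (.mul (.pp [(1, 65493)]) (.sq [(1, -100), (2, 36), (3, 72), (5, 71)]))) (.add (.mul (.g 1) (.add (.mul (.pp [(1, 201648)]) (.sq [(1, -47), (2, 50), (3, 49), (5, -14)])) (.mul (.pp [(1, 44170)]) (.sq [(1, -88), (2, 100), (3, 97), (5, -26)])))) (.add (.mul (.g 3) (.mul (.pp [(1, 150470)]) (.sq [(1, -100), (2, 20), (3, 77), (5, 59)]))) (.mul (.g 5) (.mul (.pp [(1,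 12905)]) (.sq [(1, -100), (2, 76), (3, 97), (5, 6)]))))))) (.add (.mul (.g 5) (.add (.mul (.pp [(1, 15059)]) (.sq [(1, -100), (2, 35), (3, 70), (5, 76)])) (.mul (.g 5) (.mul (.pp [(1, 58)]) (.sq [(1, -100), (2, 36), (3, 69), (5, 79)]))))) (.mul (.g 1) (.mul (.g 1) (.mul (.pp [(1, 412)]) (.sq [(1, -96), (2, 28), (3, 81), (5, 100)]))))))) (.pp [(1, 4885876), (2, 113445), (3, 126904), (4, 97466), (5, 122975), (6, 87487), (8, 96241), (9, 76004), (10, 78124), (12, 99048), (15, 57593), (16, 101194), (18, 106524), (20, 110932), (24, 102820), (25, 93934), (27, 98102), (30, 109984), (36, 102803), (40, 99172), (45, 141875), (50, 102879), (54, 93053), (60, 91697), (75, 96000), (81, 111576), (90, 98534), (100, 98077), (125, 96493), (135, 76932), (150, 116110), (225, 112927), (250, 99574), (375, 101884), (625, 102602)])))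
    (by decide +kernel) (yv_nonneg hp hq hr (le_refl 0) (le_refl 0) (le_refl 0) (le_refl 0) (le_refl 0) (le_refl 0))
    (by
      simp only [List.forall_mem_cons, exadd, exsub, exmul, exc, exv2, exv3, exv5]
      push_cast
      refine ⟨?_, ?_, ?_, ?_, ?_, ?_, fun _ hh => absurd hh List.not_mem_nil⟩
      · linarith [hp]
      · linarith [hq]
      · linarith [hr]
      · linarith [kp]
      · linarith [kq]
      · linarith [kr]
    )
  simp only [exadd, exsub, exmul, exc, exv2, exv3, exv5] at h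
  push_cast at h
  linarith [h]

theorem cyc2 {p q r : ℝ} (hp : 0 ≤ p) (hq : 0 ≤ q) (hr : 0 ≤ r) (kp : 0 ≤ 1 - p) (kq : 0 ≤ 1 - q) (kr : 0 ≤ 1 - r) :
    0 ≤ 5279 / 12500 - 16201 / 100000 * p - 37063 / 100000 * q - 15951 / 100000 * r - 5859 / 50000 * p ^ 2 - 437 / 50000 * p * q - 4473 / 20000 * p * r - 4983 / 100000 * q ^ 2 + 11521 / 100000 * q * r - 269 / 1000 * r ^ 2 - 307 / 100000 * p ^ 3 + 2193 / 20000 * p ^ 2 * q + 6107 / 50000 * p ^ 2 * r + 1219 / 6250 * p * q ^ 2 + 38349 / 100000 * p * r ^ 2 + 4983 / 100000 * q ^ 2 * r + 12771 / 50000 * q * r ^ 2 + 417 / 50000 * r ^ 3 := by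
  have h := cert (y := yv p q r 0 0 0 0 0 0)
    (gs := [(.v 2),
      (.v 3),
      (.v 5),
      (.add (.c (1)) (.mul (.c (-1)) (.v 2))),
      (.add (.c (1)) (.mul (.c (-1)) (.v 3))),
      (.add (.c (1)) (.mul (.c (-1)) (.v 5)))])
    (p := .mul (.c 100000) (.add (.add (.add (.add (.c (42232)) (.mul (.c (-16201)) (.v 2))) (.add (.mul (.c (-37063)) (.v 3)) (.mul (.c (-11718)) (.mul (.v 2) (.v 2))))) (.add (.add (.mul (.c (-15951)) (.v 5)) (.mul (.c (-874)) (.mul (.v 2) (.v 3)))) (.add (.mul (.c (-307)) (.mul (.mul (.v 2) (.v 2)) (.v 2))) (.add (.mul (.c (-4983)) (.mul (.v 3) (.v 3))) (.mul (.c (-22365)) (.mul (.v 2) (.v 5))))))) (.add (.add (.add (.mul (.c (10965)) (.mul (.mul (.v 2) (.v 2)) (.v 3))) (.mul (.c (11521)) (.mul (.v 3) (.v 5)))) (.add (.mul (.c (19504)) (.mul (.mul (.v 2) (.v 3)) (.v 3))) (.mul (.c (12214)) (.mul (.mul (.v 2) (.v 2)) (.v 5))))) (.add (.add (.mul (.c (-26900)) (.mul (.v 5)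 (.v 5))) (.mul (.c (4983)) (.mul (.mul (.v 3) (.v 3)) (.v 5)))) (.add (.mul (.c (38349)) (.mul (.mul (.v 2) (.v 5)) (.v 5))) (.add (.mul (.c (25542)) (.mul (.mul (.v 3) (.v 5)) (.v 5))) (.mul (.c (834)) (.mul (.mul (.v 5) (.v 5)) (.v 5)))))))))
    (e := (.add (.add (.add (.mul (.g 0) (.add (.add (.add (.mul (.pp [(1, 63495)]) (.sq [(1, -100), (2, 10), (3, 81), (5, 87)])) (.mul (.pp [(1, 13788)]) (.sq [(1, -100), (2, 34), (3, 69), (5, 69)]))) (.add (.mul (.g 1) (.add (.add (.mul (.pp [(1, 153797)]) (.sq [(1, -63), (2, 15), (3, 39), (5, 100)])) (.mul (.pp [(1, 17224)]) (.sq [(1, -19), (2, -24), (3, 12), (5, 100)]))) (.add (.mul (.pp [(1, 65810)]) (.sq [(1, -72), (2, 32), (3, 19), (5, 100)])) (.add (.mul (.pp [(1, 41049)]) (.sq [(1, -59), (2, 6), (3, 44), (5, 100)])) (.mul (.pp [(1, 10352)]) (.sq [(1, -59), (2, 14), (3, 100), (5, -66)])))))) (.mul (.g 5) (.add (.add (.mul (.pp [(1, 2882)]) (.sq [(1, -92), (2,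 28), (3, 100), (5, -27)])) (.mul (.pp [(1, 46094)]) (.sq [(1, -100), (2, 38), (3, 85), (5, 23)]))) (.add (.mul (.pp [(1, 11030)]) (.sq [(1, -37), (2, 4), (3, 3), (5, 100)])) (.mul (.g 3) (.mul (.g 4) (.pp [(1, 501390000)])))))))) (.add (.add (.mul (.g 2) (.add (.mul (.pp [(1, 16285)]) (.sq [(1, -100), (2, 40), (3, 59), (5, 78)])) (.mul (.pp [(1, 21152)]) (.sq [(1, -100), (2, 33), (3, 72), (5, 70)])))) (.mul (.g 0) (.mul (.pp [(1, 11428)]) (.sq [(1, -100), (2, 5), (3, 100), (5, 98)])))) (.add (.mul (.g 3) (.mul (.pp [(1, 156)]) (.sq [(1, -47), (2, 50), (3, 42), (5, 31)]))) (.mul (.g 4) (.mul (.pp [(1, 79067)]) (.sq [(1, -100), (2, 26), (3, 75), (5, 76)]))))))) (.mul (.g 3) (.add (.add (.mul (.g 4) (.add (.mul (.pp [(1, 7276)]) (.sq [(1, -15), (2, 100), (3, -34), (5, -15)])) (.add (.mul (.g 5) (.add (.pp [(1, 4195870000)]) (.add (.mul (.g 1) (.pp [(1, 435050000)])) (.mul (.g 2) (.pp [(1, 2241590000)]))))) (.mul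 (.g 1) (.mul (.g 3) (.pp [(1, 6480000)])))))) (.mul (.g 1) (.add (.mul (.pp [(1, 13286)]) (.sq [(1, -42), (2, 100), (3, 13), (5, 28)])) (.mul (.pp [(1, 1276)]) (.sq [(1, -65), (2, 100), (3, 62), (5, -31)]))))) (.add (.mul (.g 2) (.add (.mul (.pp [(1, 3648)]) (.sq [(1, -100), (2, 15), (3, 50), (5, 89)])) (.mul (.pp [(1, 8255)]) (.sq [(1, -52), (2, 100), (3, 5), (5, 29)])))) (.mul (.g 5) (.mul (.pp [(1, 147920)]) (.sq [(1, -1), (2, 25), (3, -1), (5, -14)]))))))) (.add (.mul (.g 5) (.add (.add (.mul (.g 1) (.add (.mul (.pp [(1, 10886)]) (.sq [(1, -100), (2, 43), (3, 87), (5, 6)])) (.mul (.pp [(1, 1531)]) (.sq [(1, -100), (2, 50), (3, 84), (5, -21)])))) (.mul (.g 2) (.mul (.pp [(1, 30156)]) (.sq [(1, -100), (2, 46), (3, 77), (5, 19)])))) (.add (.mul (.g 4) (.mul (.pp [(1, 147136)]) (.sq [(1, -12), (2, -12), (3, 25), (5, 24)]))) (.mul (.g 5) (.mul (.pp [(1, 1079)]) (.sq [(1, 21), (2, -30), (3, -38), (5, 100)]))))))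 (.add (.mul (.g 1) (.add (.mul (.g 2) (.mul (.pp [(1, 1671)]) (.sq [(1, -100), (2, 74), (3, 23), (5, 87)]))) (.mul (.g 4) (.mul (.pp [(1, 15)]) (.sq [(1, -68), (2, 93), (3, -81), (5, 100)]))))) (.mul (.g 2) (.mul (.pp [(1, 9381)]) (.sq [(1, -100), (2, 52), (3, 51), (5, 75)])))))) (.pp [(1, 3881557), (2, 95470), (3, 84044), (4, 119264), (5, 98238), (6, 124702), (8, 81376), (9, 127060), (10, 89910), (12, 74509), (15, 114864), (16, 104300), (18, 69930), (20, 91028), (24, 114947), (25, 98709), (27, 88733), (30, 95714), (36, 103121), (40, 110136), (45, 76632), (50, 117977), (54, 111340), (60, 102894), (75, 92233), (81, 98415), (90, 111334), (100, 95648), (125, 105352), (135, 111911), (150, 97470), (225, 99922), (250, 94595), (375, 105788), (625, 96316)])))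
    (by decide +kernel) (yv_nonneg hp hq hr (le_refl 0) (le_refl 0) (le_refl 0) (le_refl 0) (le_refl 0) (le_refl 0))
    (by
      simp only [List.forall_mem_cons, exadd, exsub, exmul, exc, exv2, exv3, exv5]
      push_cast
      refine ⟨?_, ?_, ?_, ?_, ?_, ?_, fun _ hh => absurd hh List.not_mem_nil⟩
      · linarith [hp]
      · linarith [hq]
      · linarith [hr]
      · linarith [kp]
      · linarith [kq]
      · linarith [kr]
    )
  simp only [exadd, exsub, exmul, exc, exv2, exv3, exv5] at h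
  push_cast at h
  linarith [h]

theorem total {x y z : ℝ} (hx : 0 ≤ x) (hy : 0 ≤ y) (hz : 0 ≤ z) (kx : 0 ≤ 3 / 5 - x) (ky : 0 ≤ 3 / 5 - y) (kz : 0 ≤ 3 / 5 - z) :
    0 ≤ 1 / 1000 - 81 / 10000 * x - 1 / 100000 * y + 3 / 100000 * z + 1287 / 12500 * x ^ 2 + 3453 / 100000 * x * y + 46009 / 100000 * x * z - 1 / 100000 * y ^ 2 + 41761 / 100000 * y * z - 1 / 20000 * z ^ 2 - 44743 / 300000 * x ^ 3 - 1439 / 50000 * x ^ 2 * y - 941 / 3125 * x ^ 2 * z - 1439 / 50000 * x * y ^ 2 - 941 / 3125 * x * z ^ 2 - 1 / 300000 * y ^ 3 - 8179 / 25000 * y ^ 2 * z - 8179 / 25000 * y * z ^ 2 + 1 / 150000 * z ^ 3 := by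
  exact finE (yv_nonneg hx hy hz (le_refl 0) (le_refl 0) (le_refl 0) (le_refl 0) (le_refl 0) (le_refl 0)) .z (.A (.S (.S (.S (.S (.S (.S (.S (.S (.S (.A (.S (.A (.A (.A (.A (.S (.S (.D .o 998) (.M (.D (.n 79) 9998) .v0)) (.M (.D .o 99998) .v1)) (.M (.D (.n 1) 99998) .v2)) (.M (.D (.n 1285) 12498) (.P .v0))) (.M (.M (.D (.n 3451) 99998) .v0) .v1)) (.M (.M (.D (.n 46007) 99998) .v0) .v2)) (.M (.D .o 99998) (.P .v1))) (.M (.M (.D (.n 41759) 99998) .v1) .v2)) (.M (.D .o 19998) (.P .v2))) (.M (.D (.n 44741) 299998) (.Q .v0))) (.M (.M (.D (.n 1437) 49998) (.P .v0)) .v1)) (.M (.M (.D (.n 939) 3123) (.P .v0)) .v2)) (.M (.M (.D (.n 1437) 49998) .v0) (.P .v1))) (.M (.M (.D (.n 939) 3123) .v0) (.P .v2))) (.M (.D .o 299998) (.Q .v1))) (.M (.M (.D (.n 8177) 24998) (.P .v1)) .v2)) (.M (.M (.D (.n 8177) 24998) .v1) (.P .v2))) (.M (.D .o 149998) (.Q .v2)))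
    [.v0, .v1, .v2, (.S (.D (.n 1) 3) .v0), (.S (.D (.n 1) 3) .v1), (.S (.D (.n 1) 3) .v2)]
    ⟨hx, hy, hz, kx, ky, kz, trivial⟩
    499999 16 0x41100000000000000003a07cdf003183000000000000000000015f900060c000000000000000000718680604300000000000000021a765fe01010c0000000000000008660d35400043000000000000000373cbfbd00850800000000000000000017cdc00142000000000000000000175890183080000000000000009241a298050c2000000000000000248f4b010003080000000000000003809bdc40604200000000000000000087f4b0141080000000000000000cdec10804042000000000000000027fd6d400010800000000000000003a8b2ec00002000000000000000000ee0980 3 0x2020202020202019791b860000000000000000000006398080808080808080e46f14000000000000000000012d3a020202020202020265e840000000000000000000e2aa0 (by decide +kernel)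

theorem bm_pr {s t c : ℝ} (hs : 0 ≤ s) (ht : 0 ≤ t) (hc : 0 ≤ c) (kt : 0 ≤ 1 - t) (kc : 0 ≤ 1 - c) (st : 0 ≤ -s + t) :
    0 ≤ 28923 / 100000 + 451 / 12500 * s + 451 / 12500 * t - 10013 / 100000 * c - 223 / 20000 * s ^ 2 - 223 / 20000 * s * t + 361 / 100000 * s * c - 223 / 20000 * t ^ 2 + 361 / 100000 * t * c - 18859 / 100000 * c ^ 2 := by
  exact finE (yv_nonneg hs ht hc (le_refl 0) (le_refl 0) (le_refl 0) (le_refl 0) (le_refl 0) (le_refl 0)) .z (.S (.A (.S (.A (.S (.S (.S (.A (.A (.D (.n 28921) 99998) (.M (.D (.n 449) 12498) .v0)) (.M (.D (.n 449) 12498) .v1)) (.M (.D (.n 10011) 99998) .v2)) (.M (.D (.n 221) 19998) (.P .v0))) (.M (.M (.D (.n 221) 19998) .v0) .v1)) (.M (.M (.D (.n 359) 99998) .v0) .v2)) (.M (.D (.n 221) 19998) (.P .v1))) (.M (.M (.D (.n 359) 99998) .v1) .v2)) (.M (.D (.n 18857) 99998) (.P .v2)))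
    [.v0, .v1, .v2, (.S .o .v1), (.S .o .v2), (.A (.N .v0) .v1)]
    ⟨hs, ht, hc, kt, kc, st, trivial⟩
    0 9 0x1050000000000000000000070ca003140000000000000000000126b00142000000000000000000006f62004080000000000000000000011700002000000000000000000000b230060400000000000000000000117001010000000000000000000008b8003040000000000000000000005a0000100000000000000000000055f 0 0x0 (by decide +kernel)

theorem bm_ps {s t c : ℝ} (hs : 0 ≤ s) (ht : 0 ≤ t) (hc : 0 ≤ c) (kt : 0 ≤ 1 - t) (kc : 0 ≤ 1 - c) (st : 0 ≤ -s + t) :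
    0 ≤ 19509 / 100000 + 10089 / 100000 * s + 10089 / 100000 * t + 437 / 50000 * c + 307 / 100000 * s ^ 2 + 307 / 100000 * s * t - 2193 / 20000 * s * c + 307 / 100000 * t ^ 2 - 2193 / 20000 * t * c - 1219 / 6250 * c ^ 2 := by
  exact finE (yv_nonneg hs ht hc (le_refl 0) (le_refl 0) (le_refl 0) (le_refl 0) (le_refl 0) (le_refl 0)) .z (.S (.S (.A (.S (.A (.A (.A (.A (.A (.D (.n 19507) 99998) (.M (.D (.n 10087) 99998) .v0)) (.M (.D (.n 10087) 99998) .v1)) (.M (.D (.n 435) 49998) .v2)) (.M (.D (.n 305) 99998) (.P .v0))) (.M (.M (.D (.n 305) 99998) .v0) .v1)) (.M (.M (.D (.n 2191) 19998) .v0) .v2)) (.M (.D (.n 305) 99998) (.P .v1))) (.M (.M (.D (.n 2191) 19998) .v1) .v2)) (.M (.D (.n 1217) 6248) (.P .v2)))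
    [.v0, .v1, .v2, (.S .o .v1), (.S .o .v2), (.A (.N .v0) .v1)]
    ⟨hs, ht, hc, kt, kc, st, trivial⟩
    99999 7 0x186000000000000000001b921b0006100000000000000000144535800104000000000000000005114d60004140000000000000001bc6c954000c5000000000000000074468a60002140000000000000002c18ae5800045000000000000000041479410 1 0x20202020202015f93915c00000000000000000000000a9 (by decide +kernel)

theorem bm_rp {s t c : ℝ} (hs : 0 ≤ s) (ht : 0 ≤ t) (hc : 0 ≤ c) (kt : 0 ≤ 1 - t) (kc : 0 ≤ 1 - c) (st : 0 ≤ -s + t) :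
    0 ≤ 16001 / 100000 + 15399 / 50000 * s + 15399 / 50000 * t + 4473 / 20000 * c - 417 / 50000 * s ^ 2 - 417 / 50000 * s * t - 38349 / 100000 * s * c - 417 / 50000 * t ^ 2 - 38349 / 100000 * t * c - 6107 / 50000 * c ^ 2 := by
  exact finE (yv_nonneg hs ht hc (le_refl 0) (le_refl 0) (le_refl 0) (le_refl 0) (le_refl 0) (le_refl 0)) .z (.S (.S (.S (.S (.S (.S (.A (.A (.A (.D (.n 15999) 99998) (.M (.D (.n 15397) 49998) .v0)) (.M (.D (.n 15397) 49998) .v1)) (.M (.D (.n 4471) 19998) .v2)) (.M (.D (.n 415) 49998) (.P .v0))) (.M (.M (.D (.n 415) 49998) .v0) .v1)) (.M (.M (.D (.n 38347) 99998) .v0) .v2)) (.M (.D (.n 415) 49998) (.P .v1))) (.M (.M (.D (.n 38347) 99998) .v1) .v2)) (.M (.D (.n 6105) 49998) (.P .v2)))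
    [.v0, .v1, .v2, (.S .o .v1), (.S .o .v2), (.A (.N .v0) .v1)]
    ⟨hs, ht, hc, kt, kc, st, trivial⟩
    0 9 0x4000000000000000000001d2600604000000000000000000000d0c014100000000000000000000784d0060c0000000000000000000076040143000000000000000000002fb70040c000000000000000000009e94018200000000000000000000068600508000000000000000000022ea801020000000000000000000009c9 0 0x0 (by decide +kernel)

theorem bm_rs {s t c : ℝ} (hs : 0 ≤ s) (ht : 0 ≤ t) (hc : 0 ≤ c) (kt : 0 ≤ 1 - t) (kc : 0 ≤ 1 - c) (st : 0 ≤ -s + t) :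
    0 ≤ 11873 / 50000 + 7529 / 50000 * s + 7529 / 50000 * t - 4251 / 50000 * c - 189 / 10000 * s ^ 2 - 189 / 10000 * s * t - 19003 / 100000 * s * c - 189 / 10000 * t ^ 2 - 19003 / 100000 * t * c - 327 / 20000 * c ^ 2 := by
  exact finE (yv_nonneg hs ht hc (le_refl 0) (le_refl 0) (le_refl 0) (le_refl 0) (le_refl 0) (le_refl 0)) .z (.S (.S (.S (.S (.S (.S (.S (.A (.A (.D (.n 11871) 49998) (.M (.D (.n 7527) 49998) .v0)) (.M (.D (.n 7527) 49998) .v1)) (.M (.D (.n 4249) 49998) .v2)) (.M (.D (.n 187) 9998) (.P .v0))) (.M (.M (.D (.n 187) 9998) .v0) .v1)) (.M (.M (.D (.n 19001) 99998) .v0) .v2)) (.M (.D (.n 187) 9998) (.P .v1))) (.M (.M (.D (.n 19001) 99998) .v1) .v2)) (.M (.D (.n 325) 19998) (.P .v2)))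
    [.v0, .v1, .v2, (.S .o .v1), (.S .o .v2), (.A (.N .v0) .v1)]
    ⟨hs, ht, hc, kt, kc, st, trivial⟩
    0 9 0x840000000000000000000016290001000000000000000000000d3fc00c6000000000000000000000f6b00218000000000000000000003b18004600000000000000000000076300414000000000000000000009e6c00c5000000000000000000000664002140000000000000000000205080045000000000000000000003ad1 0 0x0 (by decide +kernel)

theorem bm_sp {s t c : ℝ} (hs : 0 ≤ s) (ht : 0 ≤ t) (hc : 0 ≤ c) (kt : 0 ≤ 1 - t) (kc : 0 ≤ 1 - c) (st : 0 ≤ -s + t) :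
    0 ≤ 25533 / 100000 + 916 / 3125 * s + 916 / 3125 * t + 6457 / 100000 * c - 11231 / 100000 * s ^ 2 - 11231 / 100000 * s * t - 369 / 4000 * s * c - 11231 / 100000 * t ^ 2 - 369 / 4000 * t * c - 17877 / 100000 * c ^ 2 := by
  exact finE (yv_nonneg hs ht hc (le_refl 0) (le_refl 0) (le_refl 0) (le_refl 0) (le_refl 0) (le_refl 0)) .z (.S (.S (.S (.S (.S (.S (.A (.A (.A (.D (.n 25531) 99998) (.M (.D (.n 914) 3123) .v0)) (.M (.D (.n 914) 3123) .v1)) (.M (.D (.n 6455) 99998) .v2)) (.M (.D (.n 11229) 99998) (.P .v0))) (.M (.M (.D (.n 11229) 99998) .v0) .v1)) (.M (.M (.D (.n 367) 3998) .v0) .v2)) (.M (.D (.n 11229) 99998) (.P .v1))) (.M (.M (.D (.n 367) 3998) .v1) .v2)) (.M (.D (.n 17875) 99998) (.P .v2)))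
    [.v0, .v1, .v2, (.S .o .v1), (.S .o .v2), (.A (.N .v0) .v1)]
    ⟨hs, ht, hc, kt, kc, st, trivial⟩
    0 9 0x105000000000000000000002c9e003140000000000000000000117580182000000000000000000002295005080000000000000000000142a00102000000000000000000004e750060400000000000000000000af80014100000000000000000000240a0040400000000000000000000d4ac000100000000000000000000194a 0 0x0 (by decide +kernel)

theorem bm_sr {s t c : ℝ} (hs : 0 ≤ s) (ht : 0 ≤ t) (hc : 0 ≤ c) (kt : 0 ≤ 1 - t) (kc : 0 ≤ 1 - c) (st : 0 ≤ -s + t) :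
    0 ≤ 37113 / 100000 + 4983 / 100000 * s + 4983 / 100000 * t - 11521 / 100000 * c - 4983 / 100000 * s * c - 4983 / 100000 * t * c - 12771 / 50000 * c ^ 2 := by
  exact finE (yv_nonneg hs ht hc (le_refl 0) (le_refl 0) (le_refl 0) (le_refl 0) (le_refl 0) (le_refl 0)) .z (.S (.S (.S (.S (.A (.A (.D (.n 37111) 99998) (.M (.D (.n 4981) 99998) .v0)) (.M (.D (.n 4981) 99998) .v1)) (.M (.D (.n 11519) 99998) .v2)) (.M (.M (.D (.n 4981) 99998) .v0) .v2)) (.M (.M (.D (.n 4981) 99998) .v1) .v2)) (.M (.D (.n 12769) 49998) (.P .v2)))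
    [.v0, .v1, .v2, (.S .o .v1), (.S .o .v2), (.A (.N .v0) .v1)]
    ⟨hs, ht, hc, kt, kc, st, trivial⟩
    0 9 0x840000000000000000000000030001000000000000000000000001c00c60000000000000000000000020021800000000000000000000000800460000000000000000000000010041400000000000000000002432400c50000000000000000000063c70021400000000000000000002910c0045000000000000000000001376 0 0x0 (by decide +kernel)

theorem one_p_a {t : ℝ} (ht : 0 ≤ t) (kt : 0 ≤ 3 / 5 - t) :
    0 ≤ 1103 / 3750 - 12993 / 50000 * t + 1529 / 6250 * t ^ 2 - 1403 / 50000 * t ^ 3 := by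
  exact finE (yv_nonneg ht (le_refl 0) (le_refl 0) (le_refl 0) (le_refl 0) (le_refl 0) (le_refl 0) (le_refl 0) (le_refl 0)) .z (.S (.A (.S (.D (.n 1101) 3748) (.M (.D (.n 12991) 49998) .v0)) (.M (.D (.n 1527) 6248) (.P .v0))) (.M (.D (.n 1401) 49998) (.Q .v0)))
    [.v0, (.S (.D (.n 1) 3) .v0)]
    ⟨ht, kt, trivial⟩
    2499 3 0x104100000000000000000011dbc70820800000000000000000005b61400820000000000000000002b2429 0 0x0 (by decide +kernel)

theorem one_r_a {t : ℝ} (ht : 0 ≤ t) (kt : 0 ≤ 3 / 5 - t) :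
    0 ≤ 1831 / 7500 - 7441 / 25000 * t + 29941 / 100000 * t ^ 2 - 713 / 4000 * t ^ 3 := by
  exact finE (yv_nonneg ht (le_refl 0) (le_refl 0) (le_refl 0) (le_refl 0) (le_refl 0) (le_refl 0) (le_refl 0) (le_refl 0)) .z (.S (.A (.S (.D (.n 1829) 7498) (.M (.D (.n 7439) 24998) .v0)) (.M (.D (.n 29939) 99998) (.P .v0))) (.M (.D (.n 711) 3998) (.Q .v0)))
    [.v0, (.S (.D (.n 1) 3) .v0)]
    ⟨ht, kt, trivial⟩
    124 3 0x208200000000000000000000bbef0410800000000000000000008307c00020000000000000000000e3dff 0 0x0 (by decide +kernel)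

theorem one_s_a {t : ℝ} (ht : 0 ≤ t) (kt : 0 ≤ 3 / 5 - t) :
    0 ≤ 1103 / 3750 - 48653 / 100000 * t + 1849 / 6250 * t ^ 2 - 117 / 4000 * t ^ 3 := by
  exact finE (yv_nonneg ht (le_refl 0) (le_refl 0) (le_refl 0) (le_refl 0) (le_refl 0) (le_refl 0) (le_refl 0) (le_refl 0)) .z (.S (.A (.S (.D (.n 1101) 3748) (.M (.D (.n 48651) 99998) .v0)) (.M (.D (.n 1847) 6248) (.P .v0))) (.M (.D (.n 115) 3998) (.Q .v0)))
    [.v0, (.S (.D (.n 1) 3) .v0)]
    ⟨ht, kt, trivial⟩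
    249 3 0x2082000000000000000000004494002080000000000000000002c86380002000000000000000000255747 0 0x0 (by decide +kernel)

theorem one_p_d {t : ℝ} (ht : 0 ≤ t) (lt : 0 ≤ -3 / 5 + t) (kt : 0 ≤ 1 - t) :
    0 ≤ 1373 / 3750 - 30993 / 50000 * t + 5279 / 6250 * t ^ 2 - 54209 / 150000 * t ^ 3 := by
  exact finE (yv_nonneg ht (le_refl 0) (le_refl 0) (le_refl 0) (le_refl 0) (le_refl 0) (le_refl 0) (le_refl 0) (le_refl 0)) .z (.S (.A (.S (.D (.n 1371) 3748) (.M (.D (.n 30991) 49998) .v0)) (.M (.D (.n 5277) 6248) (.P .v0))) (.M (.D (.n 54207) 149998) (.Q .v0)))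
    [.v0, (.A (.D (.N (.n 1)) 3) .v0), (.S .o .v0)]
    ⟨ht, lt, kt, trivial⟩
    499 3 0x30420000000000000000000336d50c2080000000000000000003f9a80008200000000000000000002a753 0 0x0 (by decide +kernel)

theorem one_r_d {t : ℝ} (ht : 0 ≤ t) (lt : 0 ≤ -3 / 5 + t) (kt : 0 ≤ 1 - t) :
    0 ≤ 2371 / 7500 - 16441 / 25000 * t + 89941 / 100000 * t ^ 2 - 6139 / 12000 * t ^ 3 := by
  exact finE (yv_nonneg ht (le_refl 0) (le_refl 0) (le_refl 0) (le_refl 0) (le_refl 0) (le_refl 0) (le_refl 0) (le_refl 0)) .z (.S (.A (.S (.D (.n 2369) 7498) (.M (.D (.n 16439) 24998) .v0)) (.M (.D (.n 89939) 99998) (.P .v0))) (.M (.D (.n 6137) 11998) (.Q .v0)))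
    [.v0, (.A (.D (.N (.n 1)) 3) .v0), (.S .o .v0)]
    ⟨ht, lt, kt, trivial⟩
    49 3 0x30c30000000000000000000d37ca0810c0000000000000000005319e40003000000000000000000308b53 0 0x0 (by decide +kernel)

theorem one_s_d {t : ℝ} (ht : 0 ≤ t) (lt : 0 ≤ -3 / 5 + t) (kt : 0 ≤ 1 - t) :
    0 ≤ 1373 / 3750 - 84653 / 100000 * t + 5599 / 6250 * t ^ 2 - 4351 / 12000 * t ^ 3 := by
  exact finE (yv_nonneg ht (le_refl 0) (le_refl 0) (le_refl 0) (le_refl 0) (le_refl 0) (le_refl 0) (le_refl 0) (le_refl 0)) .z (.S (.A (.S (.D (.n 1371) 3748) (.M (.D (.n 84651) 99998) .v0)) (.M (.D (.n 5597) 6248) (.P .v0))) (.M (.D (.n 4349) 11998) (.Q .v0)))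
    [.v0, (.A (.D (.N (.n 1)) 3) .v0), (.S .o .v0)]
    ⟨ht, lt, kt, trivial⟩
    49 3 0x30c3000000000000000000339c120810c000000000000000000191ae40003000000000000000000141987 0 0x0 (by decide +kernel)

theorem zy_b {v x : ℝ} (hv : 0 ≤ v) (hx : 0 ≤ x) (kt : 0 ≤ 3 / 5 - v - x) :
    0 ≤ 28967 / 150000 - 15873 / 50000 * v - 26301 / 50000 * x + 7471 / 50000 * v ^ 2 + 34251 / 50000 * v * x + 47707 / 100000 * x ^ 2 + 189 / 10000 * v ^ 3 + 19003 / 100000 * v ^ 2 * x + 327 / 20000 * v * x ^ 2 - 117 / 4000 * x ^ 3 := by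
  exact finE (yv_nonneg hv hx (le_refl 0) (le_refl 0) (le_refl 0) (le_refl 0) (le_refl 0) (le_refl 0) (le_refl 0)) .z (.S (.A (.A (.A (.A (.A (.A (.S (.S (.D (.n 28965) 149998) (.M (.D (.n 15871) 49998) .v0)) (.M (.D (.n 26299) 49998) .v1)) (.M (.D (.n 7469) 49998) (.P .v0))) (.M (.M (.D (.n 34249) 49998) .v0) .v1)) (.M (.D (.n 47705) 99998) (.P .v1))) (.M (.D (.n 187) 9998) (.Q .v0))) (.M (.M (.D (.n 19001) 99998) (.P .v0)) .v1)) (.M (.M (.D (.n 325) 19998) .v0) (.P .v1))) (.M (.D (.n 115) 3998) (.Q .v1)))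
    [.v0, .v1, (.S (.S (.D (.n 1) 3) .v0) .v1)]
    ⟨hv, hx, kt, trivial⟩
    1249 9 0x20820000000000000000004ea1e20c30c00000000000000000007dfb800c30000000000000000005b796704204000000000000000009fe9fd000810000000000000000026d7b9c0c30400000000000000000085117810c10000000000000000005f816a00304000000000000000003a2ab900001000000000000000000c3fc5d 0 0x0 (by decide +kernel)

theorem zy_c {v x : ℝ} (hv : 0 ≤ v) (hx : 0 ≤ x) (lt : 0 ≤ -3 / 5 + v + x) (kt : 0 ≤ 1 - v - x) :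
    0 ≤ -35833 / 150000 + 38127 / 50000 * v + 27699 / 50000 * x - 20029 / 50000 * v ^ 2 - 20749 / 50000 * v * x - 7293 / 100000 * x ^ 2 - 1933 / 30000 * v ^ 3 - 5997 / 100000 * v ^ 2 * x - 4673 / 20000 * v * x ^ 2 - 1351 / 12000 * x ^ 3 := by
  exact finE (yv_nonneg hv hx (le_refl 0) (le_refl 0) (le_refl 0) (le_refl 0) (le_refl 0) (le_refl 0) (le_refl 0)) .z (.S (.S (.S (.S (.S (.S (.S (.A (.A (.D (.N (.n 35831)) 149998) (.M (.D (.n 38125) 49998) .v0)) (.M (.D (.n 27697) 49998) .v1)) (.M (.D (.n 20027) 49998) (.P .v0))) (.M (.M (.D (.n 20747) 49998) .v0) .v1)) (.M (.D (.n 7291) 99998) (.P .v1))) (.M (.D (.n 1931) 29998) (.Q .v0))) (.M (.M (.D (.n 5995) 99998) (.P .v0)) .v1)) (.M (.M (.D (.n 4671) 19998) .v0) (.P .v1))) (.M (.D (.n 1349) 11998) (.Q .v1)))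
    [.v0, .v1, (.A (.A (.D (.N (.n 1)) 3) .v0) .v1), (.S (.S .o .v0) .v1)]
    ⟨hv, hx, lt, kt, trivial⟩
    249 9 0x8300000000000000000028979a0c40c000000000000000000149dcc010300000000000000000071fb650000c00000000000000000023eb3c410100000000000000000074e6c204404000000000000000000f7314020810000000000000000000241260420400000000000000000247a610008100000000000000000080cab4 0 0x0 (by decide +kernel)

theorem yz_b {v x : ℝ} (hv : 0 ≤ v) (hx : 0 ≤ x) (kt : 0 ≤ 3 / 5 - v - x) :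
    0 ≤ 31019 / 150000 - 45113 / 100000 * v - 16857 / 50000 * x + 25017 / 100000 * v ^ 2 + 71521 / 100000 * v * x + 33839 / 100000 * x ^ 2 + 4983 / 100000 * v ^ 2 * x + 12771 / 50000 * v * x ^ 2 - 713 / 4000 * x ^ 3 := by
  exact finE (yv_nonneg hv hx (le_refl 0) (le_refl 0) (le_refl 0) (le_refl 0) (le_refl 0) (le_refl 0) (le_refl 0)) .z (.S (.A (.A (.A (.A (.A (.S (.S (.D (.n 31017) 149998) (.M (.D (.n 45111) 99998) .v0)) (.M (.D (.n 16855) 49998) .v1)) (.M (.D (.n 25015) 99998) (.P .v0))) (.M (.M (.D (.n 71519) 99998) .v0) .v1)) (.M (.D (.n 33837) 99998) (.P .v1))) (.M (.M (.D (.n 4981) 99998) (.P .v0)) .v1)) (.M (.M (.D (.n 12769) 49998) .v0) (.P .v1))) (.M (.D (.n 711) 3998) (.Q .v1)))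
    [.v0, .v1, (.S (.S (.D (.n 1) 3) .v0) .v1)]
    ⟨hv, hx, kt, trivial⟩
    249 9 0x2042000000000000000001b7452000108000000000000000004b64c8000020000000000000000007597200820c000000000000000000c84d4410430000000000000000000221eb0830c000000000000000000076b8410c3000000000000000000006d110030c0000000000000000002ed3b8000300000000000000000021c8bb 0 0x0 (by decide +kernel)

theorem yz_c {v x : ℝ} (hv : 0 ≤ v) (hx : 0 ≤ x) (lt : 0 ≤ -3 / 5 + v + x) (kt : 0 ≤ 1 - v - x) :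
    0 ≤ -33781 / 150000 + 62887 / 100000 * v + 37143 / 50000 * x - 29983 / 100000 * v ^ 2 - 38479 / 100000 * v * x - 21161 / 100000 * x ^ 2 - 1 / 12 * v ^ 3 - 20017 / 100000 * v ^ 2 * x + 271 / 50000 * v * x ^ 2 - 3139 / 12000 * x ^ 3 := by
  exact finE (yv_nonneg hv hx (le_refl 0) (le_refl 0) (le_refl 0) (le_refl 0) (le_refl 0) (le_refl 0) (le_refl 0)) .z (.S (.A (.S (.S (.S (.S (.S (.A (.A (.D (.N (.n 33779)) 149998) (.M (.D (.n 62885) 99998) .v0)) (.M (.D (.n 37141) 49998) .v1)) (.M (.D (.n 29981) 99998) (.P .v0))) (.M (.M (.D (.n 38477) 99998) .v0) .v1)) (.M (.D (.n 21159) 99998) (.P .v1))) (.M (.D .o 10) (.Q .v0))) (.M (.M (.D (.n 20015) 99998) (.P .v0)) .v1)) (.M (.M (.D (.n 269) 49998) .v0) (.P .v1))) (.M (.D (.n 3137) 11998) (.Q .v1)))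
    [.v0, .v1, (.A (.A (.D (.N (.n 1)) 3) .v0) .v1), (.S (.S .o .v0) .v1)]
    ⟨hv, hx, lt, kt, trivial⟩
    249 9 0x30c400000000000000000003d0ad00310000000000000000001ba60d40004000000000000000000104aff104080000000000000000019c1fe821020000000000000000013305a810108000000000000000000b7edf02042000000000000000001b745200010800000000000000000657f66000020000000000000000001b6b88 0 0x0 (by decide +kernel)

theorem zo_b {t : ℝ} (ht : 0 ≤ t) (kt : 0 ≤ 3 / 5 - t) :
    0 ≤ 1861 / 7500 - 8441 / 25000 * t + 29941 / 100000 * t ^ 2 - 713 / 4000 * t ^ 3 := by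
  exact finE (yv_nonneg ht (le_refl 0) (le_refl 0) (le_refl 0) (le_refl 0) (le_refl 0) (le_refl 0) (le_refl 0) (le_refl 0)) .z (.S (.A (.S (.D (.n 1859) 7498) (.M (.D (.n 8439) 24998) .v0)) (.M (.D (.n 29939) 99998) (.P .v0))) (.M (.D (.n 711) 3998) (.Q .v0)))
    [.v0, (.S (.D (.n 1) 3) .v0)]
    ⟨ht, kt, trivial⟩
    124 3 0x208200000000000000000000bbef0410800000000000000000008307c000200000000000000000012d1df 0 0x0 (by decide +kernel)

theorem zo_c {t : ℝ} (ht : 0 ≤ t) (lt : 0 ≤ -3 / 5 + t) (kt : 0 ≤ 1 - t) :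
    0 ≤ -1379 / 7500 + 18559 / 25000 * t - 25059 / 100000 * t ^ 2 - 3139 / 12000 * t ^ 3 := by
  exact finE (yv_nonneg ht (le_refl 0) (le_refl 0) (le_refl 0) (le_refl 0) (le_refl 0) (le_refl 0) (le_refl 0) (le_refl 0)) .z (.S (.S (.A (.D (.N (.n 1377)) 7498) (.M (.D (.n 18557) 24998) .v0)) (.M (.D (.n 25057) 99998) (.P .v0))) (.M (.D (.n 3137) 11998) (.Q .v0)))
    [.v0, (.A (.D (.N (.n 1)) 3) .v0), (.S .o .v0)]
    ⟨ht, lt, kt, trivial⟩
    49 3 0x10430000000000000000006cee3b0c20c000000000000000000273ec4008300000000000000000007bf8d 0 0x0 (by decide +kernel)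

theorem oz_b {t : ℝ} (ht : 0 ≤ t) (kt : 0 ≤ 3 / 5 - t) :
    0 ≤ 1861 / 7500 - 14993 / 50000 * t + 1529 / 6250 * t ^ 2 - 1403 / 50000 * t ^ 3 := by
  exact finE (yv_nonneg ht (le_refl 0) (le_refl 0) (le_refl 0) (le_refl 0) (le_refl 0) (le_refl 0) (le_refl 0) (le_refl 0)) .z (.S (.A (.S (.D (.n 1859) 7498) (.M (.D (.n 14991) 49998) .v0)) (.M (.D (.n 1527) 6248) (.P .v0))) (.M (.D (.n 1401) 49998) (.Q .v0)))
    [.v0, (.S (.D (.n 1) 3) .v0)]
    ⟨ht, kt, trivial⟩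
    249 3 0x20820000000000000000000020e50020800000000000000000011c5500002000000000000000000043125 0 0x0 (by decide +kernel)

theorem oz_c {t : ℝ} (ht : 0 ≤ t) (lt : 0 ≤ -3 / 5 + t) (kt : 0 ≤ 1 - t) :
    0 ≤ -1379 / 7500 + 39007 / 50000 * t - 3817 / 12500 * t ^ 2 - 16709 / 150000 * t ^ 3 := by
  exact finE (yv_nonneg ht (le_refl 0) (le_refl 0) (le_refl 0) (le_refl 0) (le_refl 0) (le_refl 0) (le_refl 0) (le_refl 0)) .z (.S (.S (.A (.D (.N (.n 1377)) 7498) (.M (.D (.n 39005) 49998) .v0)) (.M (.D (.n 3815) 12498) (.P .v0))) (.M (.D (.n 16707) 149998) (.Q .v0)))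
    [.v0, (.A (.D (.N (.n 1)) 3) .v0), (.S .o .v0)]
    ⟨ht, lt, kt, trivial⟩
    99 3 0x10c200000000000000000005198100308000000000000000000588d7400020000000000000000000359a9 0 0x0 (by decide +kernel)

theorem yo_b {t : ℝ} (ht : 0 ≤ t) (kt : 0 ≤ 3 / 5 - t) :
    0 ≤ 559 / 1875 - 52653 / 100000 * t + 1849 / 6250 * t ^ 2 - 117 / 4000 * t ^ 3 := by
  exact finE (yv_nonneg ht (le_refl 0) (le_refl 0) (le_refl 0) (le_refl 0) (le_refl 0) (le_refl 0) (le_refl 0) (le_refl 0)) .z (.S (.A (.S (.D (.n 557) 1873) (.M (.D (.n 52651) 99998) .v0)) (.M (.D (.n 1847) 6248) (.P .v0))) (.M (.D (.n 115) 3998) (.Q .v0)))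
    [.v0, (.S (.D (.n 1) 3) .v0)]
    ⟨ht, kt, trivial⟩
    249 3 0x2082000000000000000000004494002080000000000000000002c863800020000000000000000002e7f07 0 0x0 (by decide +kernel)

theorem yo_c {t : ℝ} (ht : 0 ≤ t) (lt : 0 ≤ -3 / 5 + t) (kt : 0 ≤ 1 - t) :
    0 ≤ -251 / 1875 + 55347 / 100000 * t - 3177 / 12500 * t ^ 2 - 1351 / 12000 * t ^ 3 := by
  exact finE (yv_nonneg ht (le_refl 0) (le_refl 0) (le_refl 0) (le_refl 0) (le_refl 0) (le_refl 0) (le_refl 0) (le_refl 0)) .z (.S (.S (.A (.D (.N (.n 249)) 1873) (.M (.D (.n 55345) 99998) .v0)) (.M (.D (.n 3175) 12498) (.P .v0))) (.M (.D (.n 1349) 11998) (.Q .v0)))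
    [.v0, (.A (.D (.N (.n 1)) 3) .v0), (.S .o .v0)]
    ⟨ht, lt, kt, trivial⟩
    49 3 0x10430000000000000000002efb300c20c00000000000000000010f7e800830000000000000000000a0071 0 0x0 (by decide +kernel)

theorem oy_b {t : ℝ} (ht : 0 ≤ t) (kt : 0 ≤ 3 / 5 - t) :
    0 ≤ 559 / 1875 - 14993 / 50000 * t + 1529 / 6250 * t ^ 2 - 1403 / 50000 * t ^ 3 := by
  exact finE (yv_nonneg ht (le_refl 0) (le_refl 0) (le_refl 0) (le_refl 0) (le_refl 0) (le_refl 0) (le_refl 0) (le_refl 0)) .z (.S (.A (.S (.D (.n 557) 1873) (.M (.D (.n 14991) 49998) .v0)) (.M (.D (.n 1527) 6248) (.P .v0))) (.M (.D (.n 1401) 49998) (.Q .v0)))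
    [.v0, (.S (.D (.n 1) 3) .v0)]
    ⟨ht, kt, trivial⟩
    249 3 0x20820000000000000000000020e50020800000000000000000011c5500002000000000000000000043125 0 0x0 (by decide +kernel)

theorem oy_c {t : ℝ} (ht : 0 ≤ t) (lt : 0 ≤ -3 / 5 + t) (kt : 0 ≤ 1 - t) :
    0 ≤ -251 / 1875 + 39007 / 50000 * t - 3817 / 12500 * t ^ 2 - 16709 / 150000 * t ^ 3 := by
  exact finE (yv_nonneg ht (le_refl 0) (le_refl 0) (le_refl 0) (le_refl 0) (le_refl 0) (le_refl 0) (le_refl 0) (le_refl 0)) .z (.S (.S (.A (.D (.N (.n 249)) 1873) (.M (.D (.n 39005) 49998) .v0)) (.M (.D (.n 3815) 12498) (.P .v0))) (.M (.D (.n 16707) 149998) (.Q .v0)))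
    [.v0, (.A (.D (.N (.n 1)) 3) .v0), (.S .o .v0)]
    ⟨ht, lt, kt, trivial⟩
    99 3 0x10c200000000000000000005198100308000000000000000000588d7400020000000000000000000359a9 0 0x0 (by decide +kernel)

theorem tzy {u x v : ℝ} (hu : 0 ≤ u) (hx : 0 ≤ x) (hv : 0 ≤ v) (lt : 0 ≤ -1 / 5 + u + x + v) (kt : 0 ≤ 1 - u - x - v) :
    0 ≤ 14167 / 150000 + 13127 / 50000 * u + 2699 / 50000 * x + 14007 / 50000 * v - 47587 / 150000 * u ^ 2 - 37247 / 150000 * u * x - 1 / 3 * u * v + 3121 / 300000 * x ^ 2 - 1 / 3 * x * v - 4163 / 18750 * v ^ 2 + 189 / 10000 * u ^ 3 + 19003 / 100000 * u ^ 2 * x + 327 / 20000 * u * x ^ 2 - 117 / 4000 * x ^ 3 - 1403 / 50000 * v ^ 3 := by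
  exact finE (yv_nonneg hu hx hv (le_refl 0) (le_refl 0) (le_refl 0) (le_refl 0) (le_refl 0) (le_refl 0)) .z (.S (.S (.A (.A (.A (.S (.S (.A (.S (.S (.S (.A (.A (.A (.D (.n 14165) 149998) (.M (.D (.n 13125) 49998) .v0)) (.M (.D (.n 2697) 49998) .v1)) (.M (.D (.n 14005) 49998) .v2)) (.M (.D (.n 47585) 149998) (.P .v0))) (.M (.M (.D (.n 37245) 149998) .v0) .v1)) (.M (.M (.D .o 1) .v0) .v2)) (.M (.D (.n 3119) 299998) (.P .v1))) (.M (.M (.D .o 1) .v1) .v2)) (.M (.D (.n 4161) 18748) (.P .v2))) (.M (.D (.n 187) 9998) (.Q .v0))) (.M (.M (.D (.n 19001) 99998) (.P .v0)) .v1)) (.M (.M (.D (.n 325) 19998) .v0) (.P .v1))) (.M (.D (.n 115) 3998) (.Q .v1))) (.M (.D (.n 1401) 49998) (.Q .v2)))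
    [.v0, .v1, .v2, (.A (.A (.A (.D (.N .o) 3) .v0) .v1) .v2), (.S (.S (.S .o .v0) .v1) .v2)]
    ⟨hu, hx, hv, lt, kt, trivial⟩
    124 19 0x30c300000000000000000007270e0000c0000000000000000007a21a041020000000000000000000195810820800000000000000000019e2f4000200000000000000000008c6c714514000000000000000000c326344105000000000000000000008fa300414000000000000000000735ec450c50000000000000000006d3cbf0c314000000000000000001168c985141000000000000000000499f8f00504000000000000000000e04de050c1000000000000000000bb7b9b0c30400000000000000000265d69410c1000000000000000000776faf1020400000000000000000023f9c430810000000000000000004a78f104204000000000000000001056dc800810000000000000000002a7da3 0 0x0 (by decide +kernel)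

theorem tyz {u x v : ℝ} (hu : 0 ≤ u) (hx : 0 ≤ x) (hv : 0 ≤ v) (lt : 0 ≤ -1 / 5 + u + x + v) (kt : 0 ≤ 1 - u - x - v) :
    0 ≤ 16219 / 150000 + 12887 / 100000 * u + 12143 / 50000 * x + 14007 / 50000 * v - 64949 / 300000 * u ^ 2 - 65437 / 300000 * u * x - 1 / 3 * u * v - 38483 / 300000 * x ^ 2 - 1 / 3 * x * v - 4163 / 18750 * v ^ 2 + 4983 / 100000 * u ^ 2 * x + 12771 / 50000 * u * x ^ 2 - 713 / 4000 * x ^ 3 - 1403 / 50000 * v ^ 3 := by
  exact finE (yv_nonneg hu hx hv (le_refl 0) (le_refl 0) (le_refl 0) (le_refl 0) (le_refl 0) (le_refl 0)) .z (.S (.S (.A (.A (.S (.S (.S (.S (.S (.S (.A (.A (.A (.D (.n 16217) 149998) (.M (.D (.n 12885) 99998) .v0)) (.M (.D (.n 12141) 49998) .v1)) (.M (.D (.n 14005) 49998) .v2)) (.M (.D (.n 64947) 299998) (.P .v0))) (.M (.M (.D (.n 65435) 299998) .v0) .v1)) (.M (.M (.D .o 1) .v0) .v2)) (.M (.D (.n 38481) 299998) (.P .v1))) (.M (.M (.D .o 1) .v1) .v2)) (.M (.D (.n 4161) 18748)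 (.P .v2))) (.M (.M (.D (.n 4981) 99998) (.P .v0)) .v1)) (.M (.M (.D (.n 12769) 49998) .v0) (.P .v1))) (.M (.D (.n 711) 3998) (.Q .v1))) (.M (.D (.n 1401) 49998) (.Q .v2)))
    [.v0, .v1, .v2, (.A (.A (.A (.D (.N .o) 3) .v0) .v1) .v2), (.S (.S (.S .o .v0) .v1) .v2)]
    ⟨hu, hx, hv, lt, kt, trivial⟩
    49 19 0x5045000000000000000000066c2410414000000000000000000010728010500000000000000000009240f0001400000000000000000073c9a401430000000000000000000e1c4e0c10c0000000000000000003365d01043000000000000000000066d500010c00000000000000000060504000030000000000000000001aef50081080000000000000000015f6a8000420000000000000000005132b814508000000000000000000475428214200000000000000000034353c0050800000000000000000024c93050c20000000000000000003818280c308000000000000000000e622d820c20000000000000000005be8e804308000000000000000000b886480002000000000000000000057be8 0 0x0 (by decide +kernel)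

end Pool.Agent.Helper8.TS.OL1BrC
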