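import Pool.Agent.Helper83.Cert.RE
import Pool.Agent.Helper83.Cert.Check

/-!
# Certificates of the piece `OL1Bs`: the high main cell, the cycle, the total
-/

set_option linter.unusedVariables false
set_option autoImplicit false
set_option maxRecDepth 100000

namespace Pool.Agent.Helper8.TS.OL1BsC

open Pool.Agent.Helper83.Cert

theorem cyc1 {p q r : ℝ} (hp : 0 ≤ p) (hq : 0 ≤ q) (hr : 0 ≤ r) (kp : 0 ≤ 1 - p) (kq : 0 ≤ 1 - q) (kr : 0 ≤ 1 - r) :
    0 ≤ 1807 / 5000 - 303 / 5000 * p - 2161 / 10000 * q - 63 / 5000 * r - 2449 / 10000 * p ^ 2 - 1827 / 10000 * p * q - 3363 / 10000 * p * r - 611 / 5000 * q ^ 2 + 379 / 10000 * q * r - 1329 / 5000 * r ^ 2 - 8 / 625 * p ^ 3 + 593 / 2000 * p ^ 2 * q + 2667 / 10000 * p ^ 2 * r + 116 / 625 * p * q ^ 2 + 1917 / 5000 * p * r ^ 2 + 537 / 5000 * q ^ 2 * r + 1887 / 10000 * q * r ^ 2 - 383 / 5000 * r ^ 3 := by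
  have h := cert (y := yv p q r 0 0 0 0 0 0)
    (gs := [(.v 2),
      (.v 3),
      (.v 5),
      (.add (.c (1)) (.mul (.c (-1)) (.v 2))),
      (.add (.c (1)) (.mul (.c (-1)) (.v 3))),
      (.add (.c (1)) (.mul (.c (-1)) (.v 5)))])
    (p := .mul (.c 1000000) (.add (.add (.add (.add (.c (3614)) (.mul (.c (-606)) (.v 2))) (.add (.mul (.c (-2161)) (.v 3)) (.mul (.c (-2449)) (.mul (.v 2) (.v 2))))) (.add (.add (.mul (.c (-126)) (.v 5)) (.mul (.c (-1827)) (.mul (.v 2) (.v 3)))) (.add (.mul (.c (-128)) (.mul (.mul (.v 2) (.v 2)) (.v 2))) (.add (.mul (.c (-1222)) (.mul (.v 3) (.v 3))) (.mul (.c (-3363)) (.mul (.v 2) (.v 5))))))) (.add (.add (.add (.mul (.c (2965)) (.mul (.mul (.v 2) (.v 2)) (.v 3))) (.mul (.c (379)) (.mul (.v 3) (.v 5)))) (.add (.mul (.c (1856)) (.mul (.mul (.v 2) (.v 3)) (.v 3))) (.mul (.c (2667)) (.mul (.mul (.v 2) (.v 2)) (.v 5))))) (.add (.add (.mul (.c (-2658)) (.mul (.v 5) (.v 5)))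 (.mul (.c (1074)) (.mul (.mul (.v 3) (.v 3)) (.v 5)))) (.add (.mul (.c (3834)) (.mul (.mul (.v 2) (.v 5)) (.v 5))) (.add (.mul (.c (1887)) (.mul (.mul (.v 3) (.v 5)) (.v 5))) (.mul (.c (-766)) (.mul (.mul (.v 5) (.v 5)) (.v 5)))))))))
    (e := (.add (.add (.add (.mul (.g 5) (.add (.add (.mul (.g 3) (.add (.mul (.pp [(1, 201824)]) (.sq [(1, -8), (2, 25), (3, -8)])) (.add (.mul (.g 2) (.add (.add (.mul (.g 2) (.pp [(1, 1118770000)])) (.mul (.g 3) (.pp [(1, 1043780000)]))) (.add (.mul (.g 4) (.pp [(1, 2055830000)])) (.mul (.g 5) (.pp [(1, 355930000)]))))) (.mul (.g 4) (.add (.pp [(1, 3538240000)]) (.add (.mul (.g 0) (.pp [(1, 2855590000)])) (.mul (.g 1) (.pp [(1, 646980000)])))))))) (.mul (.g 2) (.mul (.g 2) (.add (.mul (.g 0) (.pp [(1, 592270000)])) (.add (.mul (.g 1) (.pp [(1, 167710000)])) (.mul (.g 2) (.pp [(1, 100000)]))))))) (.add (.mul (.g 4) (.add (.mul (.pp [(1, 1579)]) (.sq [(1, -17), (2, -17),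 (3, 27), (5, 100)])) (.mul (.g 4) (.mul (.g 4) (.pp [(1, 54530000)]))))) (.add (.mul (.g 0) (.mul (.pp [(1, 40311)]) (.sq [(1, -7), (2, -20), (3, 17), (5, 100)]))) (.mul (.g 1) (.mul (.pp [(1, 2433)]) (.sq [(1, -100), (2, 44), (3, 85), (5, -87)]))))))) (.mul (.g 1) (.add (.add (.mul (.pp [(1, 19203)]) (.sq [(1, -100), (2, 87), (3, 30), (5, 61)])) (.mul (.g 2) (.add (.mul (.pp [(1, 36145)]) (.sq [(1, -51), (2, 100), (3, 31), (5, 11)])) (.add (.mul (.pp [(1, 57115)]) (.sq [(1, -80), (2, 100), (3, 13), (5, 52)])) (.mul (.pp [(1, 5738)]) (.sq [(1, -54), (2, 100), (3, 5), (5, 47)])))))) (.add (.mul (.g 0) (.add (.mul (.pp [(1, 335580)]) (.sq [(1, -50), (2, 35), (3, 22), (5, 46)])) (.mul (.pp [(1, 19548)]) (.sq [(1, -91), (2, 66), (3, 20), (5, 100)])))) (.add (.mul (.g 4) (.add (.mul (.pp [(1, 33196)]) (.sq [(1, -86), (2, 100), (3, -16), (5, 43)])) (.mul (.pp [(1, 15118)]) (.sq [(1, -100), (2, 97), (3, 32),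 (5, 68)])))) (.mul (.g 3) (.mul (.pp [(1, 51505)]) (.sq [(1, -75), (2, 100), (3, 35), (5, 38)])))))))) (.add (.mul (.g 0) (.add (.add (.mul (.pp [(1, 2571)]) (.sq [(1, -100), (2, 33), (3, 75), (5, 68)])) (.mul (.g 2) (.add (.mul (.pp [(1, 61967)]) (.sq [(1, -100), (2, 54), (3, 71), (5, 47)])) (.mul (.pp [(1, 28682)]) (.sq [(1, -100), (2, 61), (3, 80), (5, 61)]))))) (.add (.mul (.g 0) (.mul (.pp [(1, 30847)]) (.sq [(1, -80), (2, -2), (3, 100), (5, 85)]))) (.add (.mul (.g 3) (.mul (.pp [(1, 22)]) (.sq [(1, -71), (2, 100), (3, 54), (5, 12)]))) (.mul (.g 4) (.mul (.pp [(1, 15267)]) (.sq [(1, -100), (2, 11), (3, 91), (5, 83)]))))))) (.add (.mul (.g 4) (.add (.mul (.g 2) (.mul (.pp [(1, 7408)]) (.sq [(1, -56), (2, 52), (3, 100), (5, 13)]))) (.add (.mul (.g 3) (.mul (.pp [(1, 13260)]) (.sq [(1, -6), (2, 50), (3, -9), (5, -6)]))) (.mul (.g 4) (.mul (.pp [(1, 38208)]) (.sq [(1, -12), (2, 3), (3, 25), (5, 6)]))))))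 (.mul (.g 2) (.mul (.g 3) (.mul (.pp [(1, 38699)]) (.sq [(1, -17), (2, 100), (3, 32), (5, -17)]))))))) (.pp [(1, 1877621), (2, 101869), (3, 123124), (4, 85619), (5, 103400), (6, 78575), (8, 115034), (9, 76793), (10, 100888), (12, 127794), (15, 66518), (16, 96612), (18, 117463), (20, 109901), (24, 87119), (25, 106578), (27, 106385), (30, 124994), (36, 89156), (40, 93686), (45, 122149), (50, 86731), (54, 99816), (60, 87487), (75, 114982), (81, 99008), (90, 91404), (100, 97057), (125, 94037), (135, 99544), (150, 86721), (225, 92448), (250, 113186), (375, 99582), (625, 100000)])))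
    (by decide +kernel) (yv_nonneg hp hq hr (le_refl 0) (le_refl 0) (le_refl 0) (le_refl 0) (le_refl 0) (le_refl 0))
    (by
      simp only [List.forall_mem_cons, exadd, exsub, exmul, exc, exv2, exv3, exv5]
      push_cast
      refine ⟨?_, ?_, ?_, ?_, ?_, ?_, fun _ hh => absurd hh List.not_mem_nil⟩
      · linarith [hp]
      · linarith [hq]
      · linarith [hr]
      · linarith [kp]
      · linarith [kq]
      · linarith [kr]
    )
  simp only [exadd, exsub, exmul, exc, exv2, exv3, exv5] at h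
  push_cast at h
  linarith [h]

theorem cyc2 {p q r : ℝ} (hp : 0 ≤ p) (hq : 0 ≤ q) (hr : 0 ≤ r) (kp : 0 ≤ 1 - p) (kq : 0 ≤ 1 - q) (kr : 0 ≤ 1 - r) :
    0 ≤ 367 / 1000 - 2221 / 10000 * p - 733 / 2500 * q - 1089 / 2500 * r - 501 / 5000 * p ^ 2 + 571 / 5000 * p * q - 1091 / 10000 * p * r - 61 / 2500 * q ^ 2 + 103 / 500 * q * r + 953 / 5000 * r ^ 2 - 47 / 10000 * p ^ 3 + 161 / 1250 * p ^ 2 * q + 1719 / 5000 * p ^ 2 * r + 657 / 10000 * p * q ^ 2 + 57 / 500 * p * r ^ 2 - 269 / 10000 * q ^ 3 + 933 / 5000 * q ^ 2 * r - 591 / 5000 * q * r ^ 2 - 67 / 2000 * r ^ 3 := by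
  exact finE (yv_nonneg hp hq hr (le_refl 0) (le_refl 0) (le_refl 0) (le_refl 0) (le_refl 0) (le_refl 0)) .z (.S (.S (.A (.S (.A (.A (.A (.A (.S (.A (.A (.S (.S (.A (.S (.S (.S (.S (.D (.n 365) 998) (.M (.D (.n 2219) 9998) .v0)) (.M (.D (.n 731) 2498) .v1)) (.M (.D (.n 1087) 2498) .v2)) (.M (.D (.n 499) 4998) (.P .v0))) (.M (.M (.D (.n 569) 4998) .v0) .v1)) (.M (.M (.D (.n 1089) 9998) .v0) .v2)) (.M (.D (.n 59) 2498) (.P .v1))) (.M (.M (.D (.n 101) 498) .v1) .v2)) (.M (.D (.n 951) 4998) (.P .v2))) (.M (.D (.n 45) 9998) (.Q .v0))) (.M (.M (.D (.n 159) 1248) (.P .v0)) .v1)) (.M (.M (.D (.n 1717) 4998) (.P .v0)) .v2)) (.M (.M (.D (.n 655) 9998) .v0) (.P .v1))) (.M (.M (.D (.n 55) 498) .v0) (.P .v2))) (.M (.D (.n 267) 9998) (.Q .v1))) (.M (.M (.D (.n 931) 4998) (.P .v1)) .v2)) (.M (.M (.D (.n 589) 4998) .v1) (.P .v2))) (.M (.D (.n 65) 1998) (.Q .v2)))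
    [.v0, .v1, .v2, (.S .o .v0), (.S .o .v1), (.S .o .v2)]
    ⟨hp, hq, hr, kp, kq, kr, trivial⟩
    999999 3 0x60850000000000000000067b3da0184140000000000000002260200801105000000000000000003918b30 16 0x808080808080b0c3b11c08000000000000000000000f360202020202034ab700701000000000000000000029168808080808080cea3d11c0400000000000000000001c8f20202020202039272c0dc6000000000000000000000315808080808080e4a8a1411800000000000000000000241e020202020202c27679386000000000000000000027ad4808080808080a1b91c5b1000000000000000000001883a0202020202023dcb9184400000000000000000000fcc8808080808080867be46d10000000000000000000002f26020202020202b32b907c30000000000000000000086bd8080808080807de1e4220c00000000000000000002e94602020202020213935cd830000000000000000000086668080808080808497b2630c00000000000000000009d2620202020202029636a138500000000000000000000f5f08080808080801cc354cb14000000000000000000035392020202020202bdd689385000000000000000000024ab8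 (by decide +kernel)

theorem total {x y z : ℝ} (hx : 0 ≤ x) (hy : 0 ≤ y) (hz : 0 ≤ z) (kx : 0 ≤ 3 / 5 - x) (ky : 0 ≤ 3 / 5 - y) (kz : 0 ≤ 3 / 5 - z) (sm : 0 ≤ 9 / 10 - x - y - z) :
    0 ≤ 23 / 10000 - 123 / 5000 * x + 171 / 10000 * y - 51 / 2000 * z + 1469 / 10000 * x ^ 2 + 993 / 2500 * x * y + 5789 / 10000 * x * z - 237 / 2500 * y ^ 2 + 9029 / 10000 * y * z + 373 / 2000 * z ^ 2 - 5449 / 30000 * x ^ 3 - 3841 / 10000 * x ^ 2 * y - 5187 / 10000 * x ^ 2 * z - 3841 / 10000 * x * y ^ 2 - 5187 / 10000 * x * z ^ 2 + 7 / 60 * y ^ 3 - 9629 / 10000 * y ^ 2 * z - 9629 / 10000 * y * z ^ 2 - 3659 / 15000 * z ^ 3 := by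
  exact finE (yv_nonneg hx hy hz (le_refl 0) (le_refl 0) (le_refl 0) (le_refl 0) (le_refl 0) (le_refl 0)) .z (.S (.S (.S (.A (.S (.S (.S (.S (.S (.A (.A (.S (.A (.A (.A (.S (.A (.S (.D (.n 21) 9998) (.M (.D (.n 121) 4998) .v0)) (.M (.D (.n 169) 9998) .v1)) (.M (.D (.n 49) 1998) .v2)) (.M (.D (.n 1467) 9998) (.P .v0))) (.M (.M (.D (.n 991) 2498) .v0) .v1)) (.M (.M (.D (.n 5787) 9998) .v0) .v2)) (.M (.D (.n 235) 2498) (.P .v1))) (.M (.M (.D (.n 9027) 9998) .v1) .v2)) (.M (.D (.n 371) 1998) (.P .v2))) (.M (.D (.n 5447) 29998) (.Q .v0))) (.M (.M (.D (.n 3839) 9998) (.P .v0)) .v1)) (.M (.M (.D (.n 5185) 9998) (.P .v0)) .v2)) (.M (.M (.D (.n 3839) 9998) .v0) (.P .v1))) (.M (.M (.D (.n 5185) 9998) .v0) (.P .v2))) (.M (.D (.n 5) 58) (.Q .v1))) (.M (.M (.D (.n 9627) 9998) (.P .v1)) .v2)) (.M (.M (.D (.n 9627) 9998) .v1) (.P .v2))) (.M (.D (.n 3657) 14998) (.Q .v2)))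
    [.v0, .v1, .v2, (.S (.D (.n 1) 3) .v0), (.S (.D (.n 1) 3) .v1), (.S (.D (.n 1) 3) .v2), (.S (.S (.S (.D (.n 7) 8) .v0) .v1) .v2)]
    ⟨hx, hy, hz, kx, ky, kz, sm, trivial⟩
    4999999 14 0xc31800000000000000037204824040410000000000000000981801301c3040000000000000005b47fa26010c10000000000000000052aefe000304000000000000000b0bdeefc001420000000000000000032de7601c308000000000000000d69ce90c030c200000000000000007c4fbb0000308000000000000000143395c80704200000000000000014f02b5e80c10800000000000000f8281eda4010420000000000000001bef8e570001080000000000000001df78c04000020000000000000000080befc0 5 0x2020202020202c28b91cc400000000000000000003394e808080808080b496e46d1000000000000000000004ca4e02020202020392029dd86000000000000000000045df2808080808080e4a1997218000000000000000000049eaa0202020202020392015420000000000000000001ab35f (by decide +kernel)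

theorem bm_pr {s t c : ℝ} (hs : 0 ≤ s) (ht : 0 ≤ t) (hc : 0 ≤ c) (kt : 0 ≤ 1 - t) (kc : 0 ≤ 1 - c) (st : 0 ≤ -s + t) :
    0 ≤ 21 / 400 + 2531 / 10000 * s + 2531 / 10000 * t + 1827 / 10000 * c + 8 / 625 * s ^ 2 + 8 / 625 * s * t - 593 / 2000 * s * c + 8 / 625 * t ^ 2 - 593 / 2000 * t * c - 116 / 625 * c ^ 2 := by
  exact finE (yv_nonneg hs ht hc (le_refl 0) (le_refl 0) (le_refl 0) (le_refl 0) (le_refl 0) (le_refl 0)) .z (.S (.S (.A (.S (.A (.A (.A (.A (.A (.D (.n 19) 398) (.M (.D (.n 2529) 9998) .v0)) (.M (.D (.n 2529) 9998) .v1)) (.M (.D (.n 1825) 9998) .v2)) (.M (.D (.n 6) 623) (.P .v0))) (.M (.M (.D (.n 6) 623) .v0) .v1)) (.M (.M (.D (.n 591) 1998) .v0) .v2)) (.M (.D (.n 6) 623) (.P .v1))) (.M (.M (.D (.n 591) 1998) .v1) .v2)) (.M (.D (.n 114) 623) (.P .v2)))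
    [.v0, .v1, .v2, (.S .o .v1), (.S .o .v2), (.A (.N .v0) .v1)]
    ⟨hs, ht, hc, kt, kc, st, trivial⟩
    9 9 0x1860000000000000000000006f8001180000000000000000000007e400c50000000000000000000048810021400000000000000000001d3dc00450000000000000000000073d3006100000000000000000000053a0014400000000000000000000012400410000000000000000000004bbc00440000000000000000000003f2 0 0x0 (by decide +kernel)

theorem bm_ps {s t c : ℝ} (hs : 0 ≤ s) (ht : 0 ≤ t) (hc : 0 ≤ c) (kt : 0 ≤ 1 - t) (kc : 0 ≤ 1 - c) (st : 0 ≤ -s + t) :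
    0 ≤ 1983 / 10000 + 61 / 500 * s + 61 / 500 * t - 571 / 5000 * c + 47 / 10000 * s ^ 2 + 47 / 10000 * s * t - 161 / 1250 * s * c + 47 / 10000 * t ^ 2 - 161 / 1250 * t * c - 657 / 10000 * c ^ 2 := by
  exact finE (yv_nonneg hs ht hc (le_refl 0) (le_refl 0) (le_refl 0) (le_refl 0) (le_refl 0) (le_refl 0)) .z (.S (.S (.A (.S (.A (.A (.S (.A (.A (.D (.n 1981) 9998) (.M (.D (.n 59) 498) .v0)) (.M (.D (.n 59) 498) .v1)) (.M (.D (.n 569) 4998) .v2)) (.M (.D (.n 45) 9998) (.P .v0))) (.M (.M (.D (.n 45) 9998) .v0) .v1)) (.M (.M (.D (.n 159) 1248) .v0) .v2)) (.M (.D (.n 45) 9998) (.P .v1))) (.M (.M (.D (.n 159) 1248) .v1) .v2)) (.M (.D (.n 655) 9998) (.P .v2)))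
    [.v0, .v1, .v2, (.S .o .v1), (.S .o .v2), (.A (.N .v0) .v1)]
    ⟨hs, ht, hc, kt, kc, st, trivial⟩
    9 9 0x1830000000000000000000001d50061000000000000000000000035401040000000000000000000002aa0020400000000000000000000040000410000000000000000000001d50041400000000000000000001192000c50000000000000000000019ab0021400000000000000000001e9b8004500000000000000000000307c 0 0x0 (by decide +kernel)

theorem bm_rp {s t c : ℝ} (hs : 0 ≤ s) (ht : 0 ≤ t) (hc : 0 ≤ c) (kt : 0 ≤ 1 - t) (kc : 0 ≤ 1 - c) (st : 0 ≤ -s + t) :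
    0 ≤ 1471 / 5000 + 943 / 10000 * s + 943 / 10000 * t + 1091 / 10000 * c + 67 / 2000 * s ^ 2 + 67 / 2000 * s * t - 57 / 500 * s * c + 67 / 2000 * t ^ 2 - 57 / 500 * t * c - 1719 / 5000 * c ^ 2 := by
  exact finE (yv_nonneg hs ht hc (le_refl 0) (le_refl 0) (le_refl 0) (le_refl 0) (le_refl 0) (le_refl 0)) .z (.S (.S (.A (.S (.A (.A (.A (.A (.A (.D (.n 1469) 4998) (.M (.D (.n 941) 9998) .v0)) (.M (.D (.n 941) 9998) .v1)) (.M (.D (.n 1089) 9998) .v2)) (.M (.D (.n 65) 1998) (.P .v0))) (.M (.M (.D (.n 65) 1998) .v0) .v1)) (.M (.M (.D (.n 55) 498) .v0) .v2)) (.M (.D (.n 65) 1998) (.P .v1))) (.M (.M (.D (.n 55) 498) .v1) .v2)) (.M (.D (.n 1717) 4998) (.P .v2)))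
    [.v0, .v1, .v2, (.S .o .v1), (.S .o .v2), (.A (.N .v0) .v1)]
    ⟨hs, ht, hc, kt, kc, st, trivial⟩
    9 9 0x1040000000000000000000007b40060c000000000000000000001ed00082000000000000000000000561002040000000000000000000034540041000000000000000000000d1500414000000000000000000016ec000c500000000000000000000864d00214000000000000000000023fb400450000000000000000000024d5 0 0x0 (by decide +kernel)

theorem bm_rs {s t c : ℝ} (hs : 0 ≤ s) (ht : 0 ≤ t) (hc : 0 ≤ c) (kt : 0 ≤ 1 - t) (kc : 0 ≤ 1 - c) (st : 0 ≤ -s + t) :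
    0 ≤ 569 / 2500 + 537 / 5000 * s + 537 / 5000 * t - 379 / 10000 * c - 537 / 5000 * s * c - 537 / 5000 * t * c - 1887 / 10000 * c ^ 2 := by
  exact finE (yv_nonneg hs ht hc (le_refl 0) (le_refl 0) (le_refl 0) (le_refl 0) (le_refl 0) (le_refl 0)) .z (.S (.S (.S (.S (.A (.A (.D (.n 567) 2498) (.M (.D (.n 535) 4998) .v0)) (.M (.D (.n 535) 4998) .v1)) (.M (.D (.n 377) 9998) .v2)) (.M (.M (.D (.n 535) 4998) .v0) .v2)) (.M (.M (.D (.n 535) 4998) .v1) .v2)) (.M (.D (.n 1885) 9998) (.P .v2)))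
    [.v0, .v1, .v2, (.S .o .v1), (.S .o .v2), (.A (.N .v0) .v1)]
    ⟨hs, ht, hc, kt, kc, st, trivial⟩
    9 9 0x840000000000000000000000030001000000000000000000000001c00c60000000000000000000000020021800000000000000000000000800460000000000000000000000010041400000000000000000001621800c50000000000000000000049b7002140000000000000000000209f400450000000000000000000029f3 0 0x0 (by decide +kernel)

theorem bm_sp {s t c : ℝ} (hs : 0 ≤ s) (ht : 0 ≤ t) (hc : 0 ≤ c) (kt : 0 ≤ 1 - t) (kc : 0 ≤ 1 - c) (st : 0 ≤ -s + t) :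
    0 ≤ 953 / 10000 + 2331 / 10000 * s + 2331 / 10000 * t + 3363 / 10000 * c + 383 / 5000 * s ^ 2 + 383 / 5000 * s * t - 1917 / 5000 * s * c + 383 / 5000 * t ^ 2 - 1917 / 5000 * t * c - 2667 / 10000 * c ^ 2 := by
  exact finE (yv_nonneg hs ht hc (le_refl 0) (le_refl 0) (le_refl 0) (le_refl 0) (le_refl 0) (le_refl 0)) .z (.S (.S (.A (.S (.A (.A (.A (.A (.A (.D (.n 951) 9998) (.M (.D (.n 2329) 9998) .v0)) (.M (.D (.n 2329) 9998) .v1)) (.M (.D (.n 3361) 9998) .v2)) (.M (.D (.n 381) 4998) (.P .v0))) (.M (.M (.D (.n 381) 4998) .v0) .v1)) (.M (.M (.D (.n 1915) 4998) .v0) .v2)) (.M (.D (.n 381) 4998) (.P .v1))) (.M (.M (.D (.n 1915) 4998) .v1) .v2)) (.M (.D (.n 2665) 9998) (.P .v2)))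
    [.v0, .v1, .v2, (.S .o .v1), (.S .o .v2), (.A (.N .v0) .v1)]
    ⟨hs, ht, hc, kt, kc, st, trivial⟩
    19999 8 0x61800000000000000000143a20000850000000000000000039b7ed80011400000000000000000e6dfb60018400000000000000000059e6d800410000000000000000001679b6001830000000000000000001157100050c00000000000000000e0f98e0010300000000000000000022aee8 1 0x2020202020201c65251e000000000000000000000061cf (by decide +kernel)

theorem bm_sr {s t c : ℝ} (hs : 0 ≤ s) (ht : 0 ≤ t) (hc : 0 ≤ c) (kt : 0 ≤ 1 - t) (kc : 0 ≤ 1 - c) (st : 0 ≤ -s + t) :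
    0 ≤ 1927 / 10000 + 123 / 1000 * s + 123 / 1000 * t - 103 / 500 * c + 269 / 10000 * s ^ 2 + 269 / 10000 * s * t - 933 / 5000 * s * c + 269 / 10000 * t ^ 2 - 933 / 5000 * t * c + 591 / 5000 * c ^ 2 := by
  exact finE (yv_nonneg hs ht hc (le_refl 0) (le_refl 0) (le_refl 0) (le_refl 0) (le_refl 0) (le_refl 0)) .z (.A (.S (.A (.S (.A (.A (.S (.A (.A (.D (.n 1925) 9998) (.M (.D (.n 121) 998) .v0)) (.M (.D (.n 121) 998) .v1)) (.M (.D (.n 101) 498) .v2)) (.M (.D (.n 267) 9998) (.P .v0))) (.M (.M (.D (.n 267) 9998) .v0) .v1)) (.M (.M (.D (.n 931) 4998) .v0) .v2)) (.M (.D (.n 267) 9998) (.P .v1))) (.M (.M (.D (.n 931) 4998) .v1) .v2)) (.M (.D (.n 589) 4998) (.P .v2)))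
    [.v0, .v1, .v2, (.S .o .v1), (.S .o .v2), (.A (.N .v0) .v1)]
    ⟨hs, ht, hc, kt, kc, st, trivial⟩
    19 9 0x186000000000000000000000e590030c000000000000000000002f7400820000000000000000000006a900104000000000000000000001aa401840000000000000000000031b40041000000000000000000000c6d001450000000000000000000050790021400000000000000000002472800450000000000000000000091ca 0 0x0 (by decide +kernel)

theorem one_p_a {t : ℝ} (ht : 0 ≤ t) (kt : 0 ≤ 3 / 5 - t) :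
    0 ≤ 1901 / 3750 - 1111 / 10000 * t + 221 / 2500 * t ^ 2 - 307 / 10000 * t ^ 3 := by
  exact finE (yv_nonneg ht (le_refl 0) (le_refl 0) (le_refl 0) (le_refl 0) (le_refl 0) (le_refl 0) (le_refl 0) (le_refl 0)) .z (.S (.A (.S (.D (.n 1899) 3748) (.M (.D (.n 1109) 9998) .v0)) (.M (.D (.n 219) 2498) (.P .v0))) (.M (.D (.n 305) 9998) (.Q .v0)))
    [.v0, (.S (.D (.n 1) 3) .v0)]
    ⟨ht, kt, trivial⟩
    2499 3 0x20820000000000000000000047fa00208000000000000000000061020000200000000000000000008becf 0 0x0 (by decide +kernel)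

theorem one_r_a {t : ℝ} (ht : 0 ≤ t) (kt : 0 ≤ 3 / 5 - t) :
    0 ≤ 3787 / 7500 - 2459 / 10000 * t + 131 / 10000 * t ^ 2 + 871 / 10000 * t ^ 3 := by
  exact finE (yv_nonneg ht (le_refl 0) (le_refl 0) (le_refl 0) (le_refl 0) (le_refl 0) (le_refl 0) (le_refl 0) (le_refl 0)) .z (.A (.A (.S (.D (.n 3785) 7498) (.M (.D (.n 2457) 9998) .v0)) (.M (.D (.n 129) 9998) (.P .v0))) (.M (.D (.n 869) 9998) (.Q .v0)))
    [.v0, (.S (.D (.n 1) 3) .v0)]
    ⟨ht, kt, trivial⟩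
    2499 3 0x108200000000000000000003fc960020800000000000000000015886800020000000000000000001f293f 0 0x0 (by decide +kernel)

theorem one_s_a {t : ℝ} (ht : 0 ≤ t) (kt : 0 ≤ 3 / 5 - t) :
    0 ≤ 2633 / 15000 - 2081 / 10000 * t + 497 / 2500 * t ^ 2 - 153 / 1250 * t ^ 3 := by
  exact finE (yv_nonneg ht (le_refl 0) (le_refl 0) (le_refl 0) (le_refl 0) (le_refl 0) (le_refl 0) (le_refl 0) (le_refl 0)) .z (.S (.A (.S (.D (.n 2631) 14998) (.M (.D (.n 2079) 9998) .v0)) (.M (.D (.n 495) 2498) (.P .v0))) (.M (.D (.n 151) 1248) (.Q .v0)))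
    [.v0, (.S (.D (.n 1) 3) .v0)]
    ⟨ht, kt, trivial⟩
    12499 3 0x208200000000000000000004c80f0410800000000000000000052335c00020000000000000000006d0fec 0 0x0 (by decide +kernel)

theorem one_p_d {t : ℝ} (ht : 0 ≤ t) (lt : 0 ≤ -3 / 5 + t) (kt : 0 ≤ 1 - t) :
    0 ≤ 2171 / 3750 - 4711 / 10000 * t + 1721 / 2500 * t ^ 2 - 10921 / 30000 * t ^ 3 := by
  exact finE (yv_nonneg ht (le_refl 0) (le_refl 0) (le_refl 0) (le_refl 0) (le_refl 0) (le_refl 0) (le_refl 0) (le_refl 0)) .z (.S (.A (.S (.D (.n 2169) 3748) (.M (.D (.n 4709) 9998) .v0)) (.M (.D (.n 1719) 2498) (.P .v0))) (.M (.D (.n 10919) 29998) (.Q .v0)))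
    [.v0, (.A (.D (.N (.n 1)) 3) .v0), (.S .o .v0)]
    ⟨ht, lt, kt, trivial⟩
    249 3 0x30c300000000000000000008a88b0810c0000000000000000001a670c000300000000000000000008232f 0 0x0 (by decide +kernel)

theorem one_r_d {t : ℝ} (ht : 0 ≤ t) (lt : 0 ≤ -3 / 5 + t) (kt : 0 ≤ 1 - t) :
    0 ≤ 4327 / 7500 - 6059 / 10000 * t + 6131 / 10000 * t ^ 2 - 7387 / 30000 * t ^ 3 := by
  exact finE (yv_nonneg ht (le_refl 0) (le_refl 0) (le_refl 0) (le_refl 0) (le_refl 0) (le_refl 0) (le_refl 0) (le_refl 0)) .z (.S (.A (.S (.D (.n 4325) 7498) (.M (.D (.n 6057) 9998) .v0)) (.M (.D (.n 6129) 9998) (.P .v0))) (.M (.D (.n 7385) 29998) (.Q .v0)))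
    [.v0, (.A (.D (.N (.n 1)) 3) .v0), (.S .o .v0)]
    ⟨ht, lt, kt, trivial⟩
    499 3 0x30c300000000000000000023d1ec0810c000000000000000000106eb4000300000000000000000012e5ad 0 0x0 (by decide +kernel)

theorem one_s_d {t : ℝ} (ht : 0 ≤ t) (lt : 0 ≤ -3 / 5 + t) (kt : 0 ≤ 1 - t) :
    0 ≤ 3713 / 15000 - 5681 / 10000 * t + 1997 / 2500 * t ^ 2 - 1709 / 3750 * t ^ 3 := by
  exact finE (yv_nonneg ht (le_refl 0) (le_refl 0) (le_refl 0) (le_refl 0) (le_refl 0) (le_refl 0) (le_refl 0) (le_refl 0)) .z (.S (.A (.S (.D (.n 3711) 14998) (.M (.D (.n 5679) 9998) .v0)) (.M (.D (.n 1995) 2498) (.P .v0))) (.M (.D (.n 1707) 3748) (.Q .v0)))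
    [.v0, (.A (.D (.N (.n 1)) 3) .v0), (.S .o .v0)]
    ⟨ht, lt, kt, trivial⟩
    499 3 0x30c30000000000000000000b60fd0810c0000000000000000004a589c000300000000000000000028225b 0 0x0 (by decide +kernel)

theorem zy_b {v x : ℝ} (hv : 0 ≤ v) (hx : 0 ≤ x) (kt : 0 ≤ 3 / 5 - v - x) :
    0 ≤ 5323 / 30000 - 1753 / 10000 * v - 199 / 1250 * x + 669 / 10000 * v ^ 2 + 2637 / 10000 * v * x + 483 / 5000 * x ^ 2 - 383 / 5000 * v ^ 3 + 1917 / 5000 * v ^ 2 * x + 2667 / 10000 * v * x ^ 2 - 307 / 10000 * x ^ 3 := by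
  exact finE (yv_nonneg hv hx (le_refl 0) (le_refl 0) (le_refl 0) (le_refl 0) (le_refl 0) (le_refl 0) (le_refl 0)) .z (.S (.A (.A (.S (.A (.A (.A (.S (.S (.D (.n 5321) 29998) (.M (.D (.n 1751) 9998) .v0)) (.M (.D (.n 197) 1248) .v1)) (.M (.D (.n 667) 9998) (.P .v0))) (.M (.M (.D (.n 2635) 9998) .v0) .v1)) (.M (.D (.n 481) 4998) (.P .v1))) (.M (.D (.n 381) 4998) (.Q .v0))) (.M (.M (.D (.n 1915) 4998) (.P .v0)) .v1)) (.M (.M (.D (.n 2665) 9998) .v0) (.P .v1))) (.M (.D (.n 305) 9998) (.Q .v1)))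
    [.v0, .v1, (.S (.S (.D (.n 1) 3) .v0) .v1)]
    ⟨hv, hx, kt, trivial⟩
    2499 9 0x1042000000000000000000ba14b800108000000000000000006225258000200000000000000000039ba840820c00000000000000000078958810430000000000000000003e7cae0830c000000000000000000127e6010c300000000000000000008fd900030c0000000000000000001968900003000000000000000000123207 0 0x0 (by decide +kernel)

theorem zy_c {v x : ℝ} (hv : 0 ≤ v) (hx : 0 ≤ x) (lt : 0 ≤ -3 / 5 + v + x) (kt : 0 ≤ 1 - v - x) :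
    0 ≤ -7637 / 30000 + 9047 / 10000 * v + 1151 / 1250 * x - 4831 / 10000 * v ^ 2 - 8363 / 10000 * v * x - 2267 / 5000 * x ^ 2 - 2399 / 15000 * v ^ 3 + 667 / 5000 * v ^ 2 * x + 167 / 10000 * v * x ^ 2 - 3421 / 30000 * x ^ 3 := by
  exact finE (yv_nonneg hv hx (le_refl 0) (le_refl 0) (le_refl 0) (le_refl 0) (le_refl 0) (le_refl 0) (le_refl 0)) .z (.S (.A (.A (.S (.S (.S (.S (.A (.A (.D (.N (.n 7635)) 29998) (.M (.D (.n 9045) 9998) .v0)) (.M (.D (.n 1149) 1248) .v1)) (.M (.D (.n 4829) 9998) (.P .v0))) (.M (.M (.D (.n 8361) 9998) .v0) .v1)) (.M (.D (.n 2265) 4998) (.P .v1))) (.M (.D (.n 2397) 14998) (.Q .v0))) (.M (.M (.D (.n 665) 4998) (.P .v0)) .v1)) (.M (.M (.D (.n 165) 9998) .v0) (.P .v1))) (.M (.D (.n 3419) 29998) (.Q .v1)))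
    [.v0, .v1, (.A (.A (.D (.N (.n 1)) 3) .v0) .v1), (.S (.S .o .v0) .v1)]
    ⟨hv, hx, lt, kt, trivial⟩
    499 9 0x8200000000000000000014fd0c0410800000000000000000094dd600042000000000000000000888eca04110000000000000000000c6e85040c4000000000000000000029faf0031000000000000000000064f464408400000000000000000003af5c08210000000000000000000ab9ff0000400000000000000000017b407 0 0x0 (by decide +kernel)

theorem yz_b {v x : ℝ} (hv : 0 ≤ v) (hx : 0 ≤ x) (kt : 0 ≤ 3 / 5 - v - x) :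
    0 ≤ 5323 / 30000 - 2783 / 10000 * v - 1743 / 5000 * x + 89 / 500 * v ^ 2 + 3571 / 5000 * v * x + 1487 / 5000 * x ^ 2 - 47 / 10000 * v ^ 3 + 161 / 1250 * v ^ 2 * x + 657 / 10000 * v * x ^ 2 - 153 / 1250 * x ^ 3 := by
  exact finE (yv_nonneg hv hx (le_refl 0) (le_refl 0) (le_refl 0) (le_refl 0) (le_refl 0) (le_refl 0) (le_refl 0)) .z (.S (.A (.A (.S (.A (.A (.A (.S (.S (.D (.n 5321) 29998) (.M (.D (.n 2781) 9998) .v0)) (.M (.D (.n 1741) 4998) .v1)) (.M (.D (.n 87) 498) (.P .v0))) (.M (.M (.D (.n 3569) 4998) .v0) .v1)) (.M (.D (.n 1485) 4998) (.P .v1))) (.M (.D (.n 45) 9998) (.Q .v0))) (.M (.M (.D (.n 159) 1248) (.P .v0)) .v1)) (.M (.M (.D (.n 655) 9998) .v0) (.P .v1))) (.M (.D (.n 151) 1248) (.Q .v1)))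
    [.v0, .v1, (.S (.S (.D (.n 1) 3) .v0) .v1)]
    ⟨hv, hx, kt, trivial⟩
    2499 9 0x810000000000000000020f3b4a04104000000000000000000f9f06000010000000000000000001876800820c00000000000000000087f708104300000000000000000032a7620830c00000000000000000004c77010c3000000000000000000076a700030c0000000000000000002bdf7000030000000000000000001021bf 0 0x0 (by decide +kernel)

theorem yz_c {v x : ℝ} (hv : 0 ≤ v) (hx : 0 ≤ x) (lt : 0 ≤ -3 / 5 + v + x) (kt : 0 ≤ 1 - v - x) :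
    0 ≤ -7637 / 30000 + 8017 / 10000 * v + 3657 / 5000 * x - 93 / 250 * v ^ 2 - 1929 / 5000 * v * x - 1263 / 5000 * x ^ 2 - 2641 / 30000 * v ^ 3 - 303 / 2500 * v ^ 2 * x - 1843 / 10000 * v * x ^ 2 - 1543 / 7500 * x ^ 3 := by
  exact finE (yv_nonneg hv hx (le_refl 0) (le_refl 0) (le_refl 0) (le_refl 0) (le_refl 0) (le_refl 0) (le_refl 0)) .z (.S (.S (.S (.S (.S (.S (.S (.A (.A (.D (.N (.n 7635)) 29998) (.M (.D (.n 8015) 9998) .v0)) (.M (.D (.n 3655) 4998) .v1)) (.M (.D (.n 91) 248) (.P .v0))) (.M (.M (.D (.n 1927) 4998) .v0) .v1)) (.M (.D (.n 1261) 4998) (.P .v1))) (.M (.D (.n 2639) 29998) (.Q .v0))) (.M (.M (.D (.n 301) 2498) (.P .v0)) .v1)) (.M (.M (.D (.n 1841) 9998) .v0) (.P .v1))) (.M (.D (.n 1541) 7498) (.Q .v1)))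
    [.v0, .v1, (.A (.A (.D (.N (.n 1)) 3) .v0) .v1), (.S (.S .o .v0) .v1)]
    ⟨hv, hx, lt, kt, trivial⟩
    2499 9 0x410000000000000000004e81a808204000000000000000000f9f06000810000000000000000028a0f0a08210000000000000000002c1007830c4000000000000000000025e3f00310000000000000000001dc787c40440000000000000000005073b404110000000000000000001e8059800040000000000000000001792dd 0 0x0 (by decide +kernel)

theorem zo_b {t : ℝ} (ht : 0 ≤ t) (kt : 0 ≤ 3 / 5 - t) :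
    0 ≤ 5257 / 30000 - 2481 / 10000 * t + 497 / 2500 * t ^ 2 - 153 / 1250 * t ^ 3 := by
  exact finE (yv_nonneg ht (le_refl 0) (le_refl 0) (le_refl 0) (le_refl 0) (le_refl 0) (le_refl 0) (le_refl 0) (le_refl 0)) .z (.S (.A (.S (.D (.n 5255) 29998) (.M (.D (.n 2479) 9998) .v0)) (.M (.D (.n 495) 2498) (.P .v0))) (.M (.D (.n 151) 1248) (.Q .v0)))
    [.v0, (.S (.D (.n 1) 3) .v0)]
    ⟨ht, kt, trivial⟩
    12499 3 0x208200000000000000000004c80f0410800000000000000000052335c00020000000000000000009ad6ac 0 0x0 (by decide +kernel)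

theorem zo_c {t : ℝ} (ht : 0 ≤ t) (lt : 0 ≤ -3 / 5 + t) (kt : 0 ≤ 1 - t) :
    0 ≤ -7703 / 30000 + 8319 / 10000 * t - 439 / 1250 * t ^ 2 - 1543 / 7500 * t ^ 3 := by
  exact finE (yv_nonneg ht (le_refl 0) (le_refl 0) (le_refl 0) (le_refl 0) (le_refl 0) (le_refl 0) (le_refl 0) (le_refl 0)) .z (.S (.S (.A (.D (.N (.n 7701)) 29998) (.M (.D (.n 8317) 9998) .v0)) (.M (.D (.n 437) 1248) (.P .v0))) (.M (.D (.n 1541) 7498) (.Q .v0)))
    [.v0, (.A (.D (.N (.n 1)) 3) .v0), (.S .o .v0)]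
    ⟨ht, lt, kt, trivial⟩
    499 3 0x104300000000000000000054c0720c20c0000000000000000001e20f400830000000000000000000d719f 0 0x0 (by decide +kernel)

theorem oz_b {t : ℝ} (ht : 0 ≤ t) (kt : 0 ≤ 3 / 5 - t) :
    0 ≤ 5257 / 30000 - 2859 / 10000 * t + 131 / 10000 * t ^ 2 + 871 / 10000 * t ^ 3 := by
  exact finE (yv_nonneg ht (le_refl 0) (le_refl 0) (le_refl 0) (le_refl 0) (le_refl 0) (le_refl 0) (le_refl 0) (le_refl 0)) .z (.A (.A (.S (.D (.n 5255) 29998) (.M (.D (.n 2857) 9998) .v0)) (.M (.D (.n 129) 9998) (.P .v0))) (.M (.D (.n 869) 9998) (.Q .v0)))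
    [.v0, (.S (.D (.n 1) 3) .v0)]
    ⟨ht, kt, trivial⟩
    2499 3 0x108200000000000000000003fc960020800000000000000000015886800020000000000000000002850ff 0 0x0 (by decide +kernel)

theorem oz_c {t : ℝ} (ht : 0 ≤ t) (lt : 0 ≤ -3 / 5 + t) (kt : 0 ≤ 1 - t) :
    0 ≤ -7703 / 30000 + 7941 / 10000 * t - 5369 / 10000 * t ^ 2 + 113 / 30000 * t ^ 3 := by
  exact finE (yv_nonneg ht (le_refl 0) (le_refl 0) (le_refl 0) (le_refl 0) (le_refl 0) (le_refl 0) (le_refl 0) (le_refl 0)) .z (.A (.S (.A (.D (.N (.n 7701)) 29998) (.M (.D (.n 7939) 9998) .v0)) (.M (.D (.n 5367) 9998) (.P .v0))) (.M (.D (.n 111) 29998) (.Q .v0)))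
    [.v0, (.A (.D (.N (.n 1)) 3) .v0), (.S .o .v0)]
    ⟨ht, lt, kt, trivial⟩
    99 3 0x10430000000000000000000753180c20c00000000000000000005ff4c0083000000000000000000027b76 0 0x0 (by decide +kernel)

theorem yo_b {t : ℝ} (ht : 0 ≤ t) (kt : 0 ≤ 3 / 5 - t) :
    0 ≤ 15199 / 30000 - 1511 / 10000 * t + 221 / 2500 * t ^ 2 - 307 / 10000 * t ^ 3 := by
  exact finE (yv_nonneg ht (le_refl 0) (le_refl 0) (le_refl 0) (le_refl 0) (le_refl 0) (le_refl 0) (le_refl 0) (le_refl 0)) .z (.S (.A (.S (.D (.n 15197) 29998) (.M (.D (.n 1509) 9998) .v0)) (.M (.D (.n 219) 2498) (.P .v0))) (.M (.D (.n 305) 9998) (.Q .v0)))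
    [.v0, (.S (.D (.n 1) 3) .v0)]
    ⟨ht, kt, trivial⟩
    2499 3 0x20820000000000000000000047fa00208000000000000000000061020000200000000000000000011e68f 0 0x0 (by decide +kernel)

theorem yo_c {t : ℝ} (ht : 0 ≤ t) (lt : 0 ≤ -3 / 5 + t) (kt : 0 ≤ 1 - t) :
    0 ≤ 2239 / 30000 + 9289 / 10000 * t - 577 / 1250 * t ^ 2 - 3421 / 30000 * t ^ 3 := by
  exact finE (yv_nonneg ht (le_refl 0) (le_refl 0) (le_refl 0) (le_refl 0) (le_refl 0) (le_refl 0) (le_refl 0) (le_refl 0)) .z (.S (.S (.A (.D (.n 2237) 29998) (.M (.D (.n 9287) 9998) .v0)) (.M (.D (.n 575) 1248) (.P .v0))) (.M (.D (.n 3419) 29998) (.Q .v0)))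
    [.v0, (.A (.D (.N (.n 1)) 3) .v0), (.S .o .v0)]
    ⟨ht, lt, kt, trivial⟩
    499 3 0x830000000000000000001af3280810c00000000000000000003fd741043000000000000000000151d73 0 0x0 (by decide +kernel)

theorem oy_b {t : ℝ} (ht : 0 ≤ t) (kt : 0 ≤ 3 / 5 - t) :
    0 ≤ 15199 / 30000 - 2859 / 10000 * t + 131 / 10000 * t ^ 2 + 871 / 10000 * t ^ 3 := by
  exact finE (yv_nonneg ht (le_refl 0) (le_refl 0) (le_refl 0) (le_refl 0) (le_refl 0) (le_refl 0) (le_refl 0) (le_refl 0)) .z (.A (.A (.S (.D (.n 15197) 29998) (.M (.D (.n 2857) 9998) .v0)) (.M (.D (.n 129) 9998) (.P .v0))) (.M (.D (.n 869) 9998) (.Q .v0)))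
    [.v0, (.S (.D (.n 1) 3) .v0)]
    ⟨ht, kt, trivial⟩
    2499 3 0x108200000000000000000003fc960020800000000000000000015886800020000000000000000002850ff 0 0x0 (by decide +kernel)

theorem oy_c {t : ℝ} (ht : 0 ≤ t) (lt : 0 ≤ -3 / 5 + t) (kt : 0 ≤ 1 - t) :
    0 ≤ 2239 / 30000 + 7941 / 10000 * t - 5369 / 10000 * t ^ 2 + 113 / 30000 * t ^ 3 := by
  exact finE (yv_nonneg ht (le_refl 0) (le_refl 0) (le_refl 0) (le_refl 0) (le_refl 0) (le_refl 0) (le_refl 0) (le_refl 0)) .z (.A (.S (.A (.D (.n 2237) 29998) (.M (.D (.n 7939) 9998) .v0)) (.M (.D (.n 5367) 9998) (.P .v0))) (.M (.D (.n 111) 29998) (.Q .v0)))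
    [.v0, (.A (.D (.N (.n 1)) 3) .v0), (.S .o .v0)]
    ⟨ht, lt, kt, trivial⟩
    99 3 0x10430000000000000000000753180c20c00000000000000000005ff4c0083000000000000000000027b76 0 0x0 (by decide +kernel)

theorem tzy {u x v : ℝ} (hu : 0 ≤ u) (hx : 0 ≤ x) (hv : 0 ≤ v) (lt : 0 ≤ -1 / 5 + u + x + v) (kt : 0 ≤ 1 - u - x - v) :
    0 ≤ 1117 / 15000 + 4047 / 10000 * u + 263 / 625 * x + 2941 / 10000 * v - 11993 / 30000 * u ^ 2 - 20089 / 30000 * u * x - 1 / 3 * u * v - 5551 / 15000 * x ^ 2 - 1 / 3 * x * v - 13607 / 30000 * v ^ 2 - 383 / 5000 * u ^ 3 + 1917 / 5000 * u ^ 2 * x + 2667 / 10000 * u * x ^ 2 - 307 / 10000 * x ^ 3 + 871 / 10000 * v ^ 3 := by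
  exact finE (yv_nonneg hu hx hv (le_refl 0) (le_refl 0) (le_refl 0) (le_refl 0) (le_refl 0) (le_refl 0)) .z (.A (.S (.A (.A (.S (.S (.S (.S (.S (.S (.S (.A (.A (.A (.D (.n 1115) 14998) (.M (.D (.n 4045) 9998) .v0)) (.M (.D (.n 261) 623) .v1)) (.M (.D (.n 2939) 9998) .v2)) (.M (.D (.n 11991) 29998) (.P .v0))) (.M (.M (.D (.n 20087) 29998) .v0) .v1)) (.M (.M (.D .o 1) .v0) .v2)) (.M (.D (.n 5549) 14998) (.P .v1))) (.M (.M (.D .o 1) .v1) .v2)) (.M (.D (.n 13605) 29998) (.P .v2))) (.M (.D (.n 381) 4998) (.Q .v0))) (.M (.M (.D (.n 1915) 4998) (.P .v0)) .v1)) (.M (.M (.D (.n 2665) 9998) .v0) (.P .v1))) (.M (.D (.n 305) 9998) (.Q .v1))) (.M (.D (.n 869) 9998) (.Q .v2)))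
    [.v0, .v1, .v2, (.A (.A (.A (.D (.N .o) 3) .v0) .v1) .v2), (.S (.S (.S .o .v0) .v1) .v2)]
    ⟨hu, hx, hv, lt, kt, trivial⟩
    499 19 0x1050000000000000000000cca2f143140000000000000000004fbbb800050000000000000000001d5c2c105040000000000000000000e071801410000000000000000003098281430400000000000000000059565010c10000000000000000002577cc0030400000000000000000182bf080001000000000000000000002904085080000000000000000001c1da801420000000000000000001bc8b210108000000000000000000447bb8104200000000000000000025375800108000000000000000000bc581850c20000000000000000004411c80c30800000000000000000070cd5820c20000000000000000003729ae00308000000000000000000ccbaf00002000000000000000000152610 0 0x0 (by decide +kernel)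

theorem tyz {u x v : ℝ} (hu : 0 ≤ u) (hx : 0 ≤ x) (hv : 0 ≤ v) (lt : 0 ≤ -1 / 5 + u + x + v) (kt : 0 ≤ 1 - u - x - v) :
    0 ≤ 1117 / 15000 + 3017 / 10000 * u + 1157 / 5000 * x + 2941 / 10000 * v - 433 / 1500 * u ^ 2 - 3287 / 15000 * u * x - 1 / 3 * u * v - 2539 / 15000 * x ^ 2 - 1 / 3 * x * v - 13607 / 30000 * v ^ 2 - 47 / 10000 * u ^ 3 + 161 / 1250 * u ^ 2 * x + 657 / 10000 * u * x ^ 2 - 153 / 1250 * x ^ 3 + 871 / 10000 * v ^ 3 := by
  exact finE (yv_nonneg hu hx hv (le_refl 0) (le_refl 0) (le_refl 0) (le_refl 0) (le_refl 0) (le_refl 0)) .z (.A (.S (.A (.A (.S (.S (.S (.S (.S (.S (.S (.A (.A (.A (.D (.n 1115) 14998) (.M (.D (.n 3015) 9998) .v0)) (.M (.D (.n 1155) 4998) .v1)) (.M (.D (.n 2939) 9998) .v2)) (.M (.D (.n 431) 1498) (.P .v0))) (.M (.M (.D (.n 3285) 14998) .v0) .v1)) (.M (.M (.D .o 1) .v0) .v2)) (.M (.D (.n 2537) 14998) (.P .v1))) (.M (.M (.D .o 1) .v1) .v2)) (.M (.D (.n 13605) 29998)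 (.P .v2))) (.M (.D (.n 45) 9998) (.Q .v0))) (.M (.M (.D (.n 159) 1248) (.P .v0)) .v1)) (.M (.M (.D (.n 655) 9998) .v0) (.P .v1))) (.M (.D (.n 151) 1248) (.Q .v1))) (.M (.D (.n 869) 9998) (.Q .v2)))
    [.v0, .v1, .v2, (.A (.A (.A (.D (.N .o) 3) .v0) .v1) .v2), (.S (.S (.S .o .v0) .v1) .v2)]
    ⟨hu, hx, hv, lt, kt, trivial⟩
    499 19 0xc2000000000000000000392e7a0c208000000000000000000cae180208200000000000000000002c4fc14314000000000000000000cae1804105000000000000000000013b42004140000000000000000002461a4308500000000000000000009150000214000000000000000000917a300005000000000000000000186f1e1450400000000000000000087f4b011410000000000000000000447b414304000000000000000000ac48b010c10000000000000000001502e800304000000000000000000db346840810000000000000000000ba0cc0c2040000000000000000002540b820810000000000000000000f4434002040000000000000000011a45180001000000000000000000127884 0 0x0 (by decide +kernel)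

end Pool.Agent.Helper8.TS.OL1BsC
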